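import Pool.Agent.Lib.MP_62d77c_ag.End.Zero

/-! A numerically trivial divisor has degree zero on open and closed parts of a fibre. -/

set_option autoImplicit false
set_option linter.unusedSectionVars false

namespace Pool.Agent.Lib.MP_62d77c_ag

open Filter Polynomial Submodule

noncomputable section

variable {A : Type} [CommRing A] [IsDomain A] {𝒜 : ℕ → AddSubgroup A} [GradedRing 𝒜]
  [hG : Fact (Gen 𝒜)] {d : ℕ} {p : ℕ} [Fact p.Prime]
  {m : Comp 𝒜 p → ℕ} {I : Comp 𝒜 p → Car (MX 𝒜).V}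

/-- a coefficient of the pairing of `c` with a family of functions on the components in `S` -/
def Gs (m : Comp 𝒜 p → ℕ) (S : Finset (Comp 𝒜 p)) (c : Pt 𝒜 →₀ ℚ) (D : Pt 𝒜 → Car (MX 𝒜).V)
    (s : ℕ) (F : ∀ j : Comp 𝒜 p, Pic (Mp j.1).V → ℚ[X]) : ℚ :=
  ∑ j ∈ S, ∑ x ∈ c.support, m j * c x * lin s (F j) ((MX 𝒜).rho j.1 (cl (D x)))

variable {S : Finset (Comp 𝒜 p)} {c : Pt 𝒜 →₀ ℚ} {D : Pt 𝒜 → Car (MX 𝒜).V} {s : ℕ}

theorem Gs_congr {s' : ℕ} {F F' : ∀ j : Comp 𝒜 p, Pic (Mp j.1).V → ℚ[X]} (r : ℚ)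
    (h : ∀ j E, lin s (F j) E = r * lin s' (F' j) E) : Gs m S c D s F = r * Gs m S c D s' F' := by
  simp only [Gs, Finset.mul_sum, h]
  exact Finset.sum_congr rfl fun j _ => Finset.sum_congr rfl fun x _ => by ring

theorem Gs_zero {F : ∀ j : Comp 𝒜 p, Pic (Mp j.1).V → ℚ[X]} (h : ∀ j, Lev (s + 1) (F j)) :
    Gs m S c D s F = 0 := by
  simp only [Gs, lin_eq_zero (h _), mul_zero, Finset.sum_const_zero]

theorem Gs_filt [CharZero A] (hdim : Algebra.trdeg ℤ A = d + 1)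
    (ih : ∀ W : Pt 𝒜, CharZero (kap W) → trn W = s + 1 → (∀ x ∈ c.support, ¬pr x ≤ pr W) →
      Gs m S c D s (fun j => Phi j.1 (pr W)) = 0) (l : List (Ideal A × ℕ))
    (hl : ∀ q ∈ l, q.1.IsPrime ∧ q.1.IsHomogeneous 𝒜 ∧
      (∀ y : Pt 𝒜, pr y = q.1 → CharZero (kap y) →
        trn y ≤ s + 1 ∧ (trn y = s + 1 → ∀ x ∈ c.support, ¬pr x ≤ pr y)) ∧
      ∀ y : Vp 𝒜 p, pr y.1 = q.1 → dm y ≤ s + 1) :
    Gs m S c D s (fun j E => (l.map fun q =>
      (PV j.1 (CC I j) q.1 E).comp (X - C (q.2 : ℚ))).sum) = 0 := by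
  induction l with
  | nil => exact Gs_zero fun j => lev_zero_fun
  | cons q l ihl =>
    have e : Gs m S c D s (fun j E => ((q :: l).map fun q =>
        (PV j.1 (CC I j) q.1 E).comp (X - C (q.2 : ℚ))).sum) =
        Gs m S c D s (fun j E => (PV j.1 (CC I j) q.1 E).comp (X - C (q.2 : ℚ))) +
        Gs m S c D s (fun j E => (l.map fun q =>
          (PV j.1 (CC I j) q.1 E).comp (X - C (q.2 : ℚ))).sum) := by
      simp only [Gs, List.map_cons, List.sum_cons, lin_add, mul_add, Finset.sum_add_distrib]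
    rw [e, ihl fun q' hq' => hl q' (List.mem_cons_of_mem _ hq'), add_zero]
    obtain ⟨h1, h2, h3, h4⟩ := hl q List.mem_cons_self
    rcases exists_pt h1 h2 with hirr | ⟨y, hy⟩
    · refine Gs_zero fun j => Lev.shift ?_ _
      rw [span_PV_zero j.1 _ h2 fun y _ hy => (ell_spec y).2 (hy (hirr _ (ell_spec y).1))]
      exact lev_zero_fun
    rw [← hy]
    by_cases hz : CharZero (kap y)
    · obtain ⟨k1, k2⟩ := h3 y hy hz
      have hL := fun j : Comp 𝒜 p => lev_horiz j.1 hz (tr_eq_trn hdim hz)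
      simp only [PV_horiz _ _ hz]
      rcases k1.lt_or_eq with k | k
      · exact Gs_zero fun j => ((hL j).mono k).shift _
      · rw [Gs_congr (F' := fun j => Phi j.1 (pr y)) 1 fun j E => by
          rw [one_mul]; exact lin_shift ((hL j).mono (by omega)) _ _, ih y hz k (k2 k), mul_zero]
    obtain ⟨r, hr, hry⟩ := exists_prime_of_not_charZero y hz
    refine Gs_zero fun j => Lev.shift ?_ _
    by_cases e : r = p
    · subst e
      exact (lev_PV_vert j _ ⟨y, hry⟩).mono (h4 ⟨y, hry⟩ hy)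
    · rw [PV_other j _ hr e hry]
      exact lev_zero_fun

theorem Fib0.cut_horiz [CharZero A] (h : Fib0 m I) (hdim : Algebra.trdeg ℤ A = d + 1)
    (hD : ∀ x ∈ c.support, IsCl (D x) ((MX 𝒜).fam (pr x))) (ht : NumTriv c) (hS : Clop S) (s : ℕ)
    (W : Pt 𝒜) (hW : CharZero (kap W)) (h1 : trn W = s + 1) (h2 : ∀ x ∈ c.support, ¬pr x ≤ pr W) :
    Gs m S c D s (fun j => Phi j.1 (pr W)) = 0 := by
  classical
  have htr := tr_eq_trn hdim hW
  induction s generalizing W with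
  | zero =>
    obtain ⟨lam, hl⟩ := h.exists_lam hS
    rw [h1] at htr
    obtain ⟨n, k1, k2⟩ := (((Finset.eventually_all c.support).2 fun x hx =>
      (hl W hW).2 (fun j => lev_horiz j.1 hW htr) _ (pr_hom x) _ (hD x hx) (h2 x hx)).and
      (ht W hW (by simpa using htr) h2)).exists
    rw [Gs, Finset.sum_comm, ← mul_zero (-lam), ← k2, Finsupp.sum, Finset.mul_sum]
    refine Finset.sum_congr rfl fun x hx => ?_
    rw [mul_left_comm, ← k1 x hx, Finset.mul_sum]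
    exact Finset.sum_congr rfl fun j _ => by ring
  | succ s ih =>
    choose Z hZ1 hZ2 using fun x : Pt 𝒜 => exists_min ((pr_hom W).sup (pr_hom x))
    obtain ⟨Zp, hp1, hp2⟩ := exists_min ((pr_hom W).sup (md_span_hom (md_natCast_mem (𝒜 := 𝒜) p)))
    obtain ⟨e, ⟨f, -, hf, hav⟩, he⟩ := ((avoid (Ideal.IsHomogeneous.top 𝒜)
      (insert W (Zp ∪ c.support.biUnion Z))
      fun y _ k => y.isPrime.ne_top (top_le_iff.1 k)).and (eventually_gt_atTop 0)).exists
    have hn : f ∉ pr W := hav W (Finset.mem_insert_self _ _)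
    have hh := (pr_hom W).sup (span_hom_single hf)
    obtain ⟨l, hl⟩ := exists_filt hh
    have key := Gs_filt (I := I) hdim
      (fun W a b c => ih W a b c (tr_eq_trn hdim a)) l fun q hq => by
      obtain ⟨k1, k2, k3⟩ := hl.mem hh q hq
      have k4 : f ∈ q.1 := k3 (Ideal.mem_sup_right (Ideal.mem_span_singleton_self _))
      have k5 : pr W ≤ q.1 := le_sup_left.trans k3
      refine ⟨k1, k2, fun y hy hz => ?_, fun y hy => ?_⟩
      · rw [← hy] at k4 k5
        have := trn_lt hdim hz (lt_of_le_of_ne k5 fun e => hn (e ▸ k4))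
        refine ⟨by omega, fun k6 x hx k7 => ?_⟩
        obtain ⟨y', m1, m2⟩ := hZ2 x y (sup_le k5 k7)
        have m3 := (hZ1 x y' m1).1
        have m4 := trn_lt hdim (charZero_of_le hz m2) (lt_of_le_of_ne (le_sup_left.trans m3)
          fun e => h2 x hx (e ▸ le_sup_right.trans m3))
        have m5 := trn_lt hdim hz (lt_of_le_of_ne m2 fun e => hav y' (Finset.mem_insert_of_mem
          (Finset.mem_union_right _ (Finset.mem_biUnion.2 ⟨x, hx, m1⟩))) (e ▸ k4))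
        omega
      · rw [← hy] at k4 k5
        obtain ⟨y', m1, m2⟩ := hp2 y.1 (sup_le k5 ((Ideal.span_singleton_le_iff_mem _).2 y.2))
        have m3 := (hp1 y' m1).1
        have m4 := dm_le_of_horiz hW htr
          (⟨y', m3 (Ideal.mem_sup_right (Ideal.mem_span_singleton_self _))⟩ : Vp 𝒜 p)
          (le_sup_left.trans m3)
        have m5 := dm_lt (y := y)
          (x := ⟨y', m3 (Ideal.mem_sup_right (Ideal.mem_span_singleton_self _))⟩)
          (lt_of_le_of_ne m2 fun e => hav y' (Finset.mem_insert_of_mem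
            (Finset.mem_union_left _ m1)) (e ▸ k4))
        omega
    rw [Gs_congr (F' := fun j => Phi j.1 (pr W)) (s' := s + 1) ((s + 1) * e) fun j E => by
      obtain ⟨k⟩ := h.cls j
      have e1 := lin_sub_shift ((lev_horiz j.1 hW htr).mono (show trn W + 1 ≤ s + 3 by omega))
        (e : ℚ) E
      rw [← e1, ← PV_horiz j (CC I j) hW]
      simp only [PV_cut k W.isPrime (pr_hom W) hf hn hl]] at key
    exact (mul_eq_zero.1 key).resolve_left (by positivity)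

theorem Fib0.deg_zero [CharZero A] (h : Fib0 m I) (hdim : Algebra.trdeg ℤ A = (s + 1 : ℕ) + 1)
    (hc : ∀ x ∈ c.support, CharZero (kap x) ∧ trn x = s)
    (hD : ∀ x ∈ c.support, IsCl (D x) ((MX 𝒜).fam (pr x))) (ht : NumTriv c) (hS : Clop S) :
    Gs m S c D s (fun j => PP (Mp j.1).V) = 0 := by
  rcases S.eq_empty_or_nonempty with rfl | ⟨j₀, -⟩
  · rfl
  obtain ⟨W, hW⟩ := (exists_pt (𝒜 := 𝒜) Ideal.isPrime_bot (Ideal.IsHomogeneous.bot 𝒜)).resolve_left
    fun k => (ell_spec j₀.1.1).2 (bot_le (a := pr j₀.1.1) (k _ (ell_spec j₀.1.1).1))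
  have hz : CharZero (kap W) := by
    by_contra k
    obtain ⟨r, hr, k⟩ := exists_prime_of_not_charZero W k
    rw [hW] at k
    exact hr.ne_zero (Nat.cast_eq_zero.1 k)
  have h1 : trn W = s + 1 := by rw [trn, tr_bot hdim hz hW, Cardinal.toNat_natCast]
  have := h.cut_horiz hdim hD ht hS s W hz h1 fun x hx k => by
    have e : x = W := pr_inj (le_antisymm k (hW ▸ bot_le))
    have := (hc x hx).2
    rw [e] at this
    omega
  have e : ∀ j : Comp 𝒜 p, Phi j.1 (pr W) = PP (Mp j.1).V := fun j => by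
    rw [← Phi_sup j.1 (pr_hom W), hW, bot_sup_eq]
    exact funext (Phi_self j.1)
  simpa only [e] using this

theorem lin_dl_pow {G : Type} [CommGroup G] {f : G → ℚ[X]} {L : G}
    (hL : ∀ E, f (E * L) = (f E).comp (X + 1)) (h : Lev (s + 3) f) (E u : G) (r : ℕ) :
    lin s (dl (E * L ^ r) f) u = lin s (dl E f) u + r * (s + 1) * lin (s + 1) f u := by
  rw [lin_dl_comm, lin_mul (h.dl u), lin_pow (h.dl u), lin_dl_comm E u, lin_dl_comm L u,
    lin_dl_L hL h]
  ring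

theorem Fib0.sq_ideal [CharZero A] (h : Fib0 m I) (hdim : Algebra.trdeg ℤ A = (s + 1 + 1 : ℕ) + 1)
    (hc : ∀ x ∈ c.support, CharZero (kap x) ∧ trn x = s + 1)
    (hD : ∀ x ∈ c.support, IsCl (D x) ((MX 𝒜).fam (pr x))) (ht : NumTriv c) (hS : Clop S)
    {𝔞 : Ideal A} {D' : Car (MX 𝒜).V} (ha : 𝔞.IsHomogeneous 𝒜) (h1 : IsCl D' ((MX 𝒜).fam 𝔞))
    (h0 : 𝔞 ≠ ⊥) (h3 : ∀ x ∈ c.support, ¬𝔞 ≤ pr x) (h4 : ∀ j : Comp 𝒜 p, ¬𝔞 ≤ cI j) :
    Gs m S c D s (fun j => dl ((MX 𝒜).rho j.1 (cl D')) (PP (Mp j.1).V)) = 0 := by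
  have hd : ∀ j : Comp 𝒜 p, dm j.1 = s + 2 := dm_comp hdim
  obtain ⟨l, hl⟩ := exists_filt ha
  have key := Gs_filt (I := I) hdim (h.cut_horiz hdim hD ht hS s) l fun q hq => by
    obtain ⟨k1, k2, k3⟩ := hl.mem ha q hq
    refine ⟨k1, k2, fun y hy hz => ?_, fun y hy => ?_⟩
    · rw [← hy] at k3
      have := trn_lt_d hdim hz fun e => h0 (le_bot_iff.1 (k3.trans e.le))
      refine ⟨by omega, fun k6 x hx k7 => h3 x hx ?_⟩
      rcases k7.lt_or_eq with e | e
      · have := trn_lt hdim hz e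
        have := (hc x hx).2
        omega
      · exact k3.trans e.ge
    · rw [← hy] at k3
      obtain ⟨j, hj⟩ := exists_comp y
      have := dm_lt (lt_of_le_of_ne hj fun e => h4 j (k3.trans e.ge))
      have := hd j
      omega
  rw [← neg_eq_zero, ← neg_one_mul, ← key]
  refine (Gs_congr (-1) fun j E => ?_).symm
  obtain ⟨k⟩ := h.cls j
  have hT : TorFree 𝒜 (cI j) 𝔞 := fun y n c a b e => by
    rw [mul_comm 𝔞]
    exact torFree_of_prime ha (lp_of_isCl _ h1) j.1.1.isPrime (pr_hom _) (h4 j) y n c b a e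
  rw [← funext (PV_filt_B k ha hT hl), neg_one_mul, ← lin_neg, ← Phi_rho j.1 ha h1 (h4 j)]

theorem Fib0.sq_zero [CharZero A] (h : Fib0 m I) (hdim : Algebra.trdeg ℤ A = (s + 1 + 1 : ℕ) + 1)
    (hc : ∀ x ∈ c.support, CharZero (kap x) ∧ trn x = s + 1)
    (hD : ∀ x ∈ c.support, IsCl (D x) ((MX 𝒜).fam (pr x))) (ht : NumTriv c) (hS : Clop S)
    (E : Pic (MX 𝒜).V) :
    Gs m S c D s (fun j => dl ((MX 𝒜).rho j.1 E) (PP (Mp j.1).V)) = 0 := by
  classical
  rcases S.eq_empty_or_nonempty with rfl | ⟨j₀, -⟩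
  · rfl
  obtain ⟨r, 𝔞, D', ha, -, h1, e, -, h3⟩ := ((MX 𝒜).exists_ideal (Ideal.IsHomogeneous.bot 𝒜)
    (fun n a _ k => by rw [show a = 0 from k, map_zero]) ((MX 𝒜).mdl (on_MX j₀.1.1)) E
    (c.support ∪ Finset.univ.image fun j : Comp 𝒜 p => j.1.1) fun y _ => on_MX y).exists
  have h4 : ∀ j : Comp 𝒜 p, ¬𝔞 ≤ cI j := fun j =>
    h3 _ (Finset.mem_union_right _ (Finset.mem_image_of_mem _ (Finset.mem_univ j)))
  have k1 : Gs m S c D s (fun j => dl ((MX 𝒜).rho j.1 (cl D')) (PP (Mp j.1).V)) +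
      r * (s + 1) * Gs m S c D (s + 1) (fun j => PP (Mp j.1).V) = 0 := by
    rw [h.sq_ideal hdim hc hD ht hS ha h1 (fun k => h4 j₀ (k.le.trans bot_le))
      (fun x hx => h3 x (Finset.mem_union_left _ hx)) h4, h.deg_zero hdim hc hD ht hS, mul_zero,
      add_zero]
  rw [← k1, Gs, Gs, Gs, Finset.mul_sum, ← Finset.sum_add_distrib]
  refine Finset.sum_congr rfl fun j _ => ?_
  rw [Finset.mul_sum, ← Finset.sum_add_distrib]
  refine Finset.sum_congr rfl fun x _ => ?_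
  rw [← e, map_mul, map_pow, AM.rho_L _ (on_MX _), lin_dl_pow (PP_L (mdl_Mp j.1))
    ((snapper (mdl_Mp j.1)).mono (show dm j.1 + 1 ≤ s + 3 by rw [dm_comp hdim j]))]
  ring

end

end Pool.Agent.Lib.MP_62d77c_ag
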