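import Pool.Agent.Lib.MP_62d77c_ag.Defs

/-! Numerical triviality of divisors and of zero-cycles on the generic fibre. -/

set_option autoImplicit false

namespace Pool.Agent.Lib.MP_62d77c_ag

noncomputable section

variable {A : Type} [CommRing A] [IsDomain A] {𝒜 : ℕ → AddSubgroup A} [GradedRing 𝒜]

variable (𝒜) in
/-- the rank of the degree `n` part of `A ⧸ J` -/
def rk (J : Ideal A) (n : ℕ) : ℚ :=
  (Module.finrank ℤ (𝒜 n) : ℚ) - Module.finrank ℤ ↥(J.toAddSubgroup ⊓ 𝒜 n)

/-- the divisor `c` has intersection number zero with every curve of the generic fibre that does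
not lie in its support -/
def NumTriv (c : ProjectiveSpectrum 𝒜 →₀ ℚ) : Prop :=
  ∀ C : ProjectiveSpectrum 𝒜, CharZero (kap C) → tr C = 1 → (∀ x ∈ c.support, ¬pr x ≤ pr C) →
    ∀ᶠ n in Filter.atTop, (c.sum fun x a => a * rk 𝒜 (pr x ⊔ pr C) n) = 0

/-- the degree of the residue field over its prime field -/
def dg (x : ProjectiveSpectrum 𝒜) : ℕ := Module.finrank (⊥ : Subfield (kap x)) (kap x)

/-- the zero-cycle `c` has degree zero -/
def DegZero (c : ProjectiveSpectrum 𝒜 →₀ ℚ) : Prop := (c.sum fun x a => a * dg x) = 0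

end

end Pool.Agent.Lib.MP_62d77c_ag
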