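import Pool.Agent.Lib.MP_62d77c_ag.Snc
import Pool.Agent.Lib.MP_62d77c_ag.Span

/-! Fibres of a regular model. -/

set_option autoImplicit false
set_option linter.unusedSectionVars false

namespace Pool.Agent.Lib.MP_62d77c_ag

open Filter Polynomial Submodule

noncomputable section

theorem ufd_factor {R : Type} [CommRing R] [IsDomain R] [UniqueFactorizationMonoid R] {a : R}
    (ha : a ≠ 0) : ∃ (n : ℕ) (t : Fin n → R) (m : Fin n → ℕ) (u : Rˣ), (∀ i, Prime (t i)) ∧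
      (∀ i k, t k ∣ t i → i = k) ∧ a = u * ∏ i, t i ^ m i := by
  classical
  let : NormalizationMonoid R :=
    (UniqueFactorizationMonoid.strongNormalizationMonoid (α := R)).toNormalizationMonoid
  set s := UniqueFactorizationMonoid.normalizedFactors a
  obtain ⟨u, hu⟩ := UniqueFactorizationMonoid.prod_normalizedFactors ha
  let e := s.toFinset.equivFin.symm
  have hp : ∀ i, Prime (e i).1 := fun i =>
    UniqueFactorizationMonoid.prime_of_normalized_factor _ (Multiset.mem_toFinset.1 (e i).2)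
  refine ⟨_, fun i => (e i).1, fun i => s.count (e i).1, u, hp, fun i k h => ?_, ?_⟩
  · refine e.injective (Subtype.ext ?_)
    exact (UniqueFactorizationMonoid.mem_normalizedFactors_eq_of_associated
      (Multiset.mem_toFinset.1 (e k).2) (Multiset.mem_toFinset.1 (e i).2)
      ((hp k).associated_of_dvd (hp i) h)).symm
  · rw [e.prod_comp fun x : s.toFinset => x.1 ^ s.count x.1,
      Finset.prod_coe_sort s.toFinset fun x => x ^ s.count x, ← Finset.prod_multiset_count,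
      mul_comm]
    exact hu.symm

variable {A : Type} [CommRing A] [IsDomain A] {𝒜 : ℕ → AddSubgroup A} [GradedRing 𝒜]
  [hG : Fact (Gen 𝒜)] {p : ℕ} [Fact p.Prime]

variable (𝒜) in
/-- all local rings are regular -/
def Reg : Prop := ∀ x : Pt 𝒜, IsRegularLocalRing (loc x)

theorem Reg.ufd (h : Reg 𝒜) (y : Pt 𝒜) : UniqueFactorizationMonoid (loc y) :=
  snc_ufd (MX 𝒜) (on_MX y) fun y' _ => h y'

/-- what is used about a fibre of a regular model -/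
structure Fib0 (m : Comp 𝒜 p → ℕ) (I : Comp 𝒜 p → Car (MX 𝒜).V) : Prop where
  pos : ∀ j, 0 < m j
  lp : ∀ j : Comp 𝒜 p, (MX 𝒜).LP (cI j)
  isCl : ∀ j, IsCl (I j) ((MX 𝒜).fam (cI j))
  rel : ∏ j, cl (I j) ^ m j = 1
  eqn : ∀ (y : Vp 𝒜 p) (e : Comp 𝒜 p → ℕ) (g : Comp 𝒜 p → A),
    (∀ j, (MX 𝒜).GenI (cI j) y.1 (e j) (g j)) → ∃ n n', ∃ b ∈ 𝒜 n, ∃ c ∈ 𝒜 n',
      b ∉ pr y.1 ∧ c ∉ pr y.1 ∧ n = n' + ∑ j, m j * e j ∧ b * p = c * ∏ j, g j ^ m j
  sub : ∀ n, ∀ a ∈ 𝒜 n, a ∈ ∏ j : Comp 𝒜 p, cI j ^ m j → ∀ y : Pt 𝒜,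
    ∃ l, ∃ b ∈ 𝒜 l, b ∉ pr y ∧ b * a ∈ Ideal.span {(p : A)}
  sup : ∀ a ∈ Ideal.span {(p : A)}, ∀ y : Pt 𝒜,
    ∃ l, ∃ b ∈ 𝒜 l, b ∉ pr y ∧ b * a ∈ ∏ j : Comp 𝒜 p, cI j ^ m j

/-- the factorisation of `p` in a local ring -/
structure UfD (y : Pt 𝒜) (p : ℕ) where
  n : ℕ
  t : Fin n → loc y
  m : Fin n → ℕ
  u : (loc y)ˣ
  pri : ∀ i, Prime (t i)
  dvd : ∀ i k, t k ∣ t i → i = k
  hp : (p : loc y) = u * ∏ i, t i ^ m i

theorem ufd_data [CharZero A] (h : Reg 𝒜) (y : Pt 𝒜) : Nonempty (UfD y p) := by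
  have := h.ufd y
  have h0 : (p : loc y) ≠ 0 := fun k => by
    have k' := congrArg Subtype.val k
    rw [snc_p_val, map_one, div_one] at k'
    exact (Fact.out : p.Prime).ne_zero
      (by exact_mod_cast (FaithfulSMul.algebraMap_eq_zero_iff _ _).1 k')
  obtain ⟨n, t, m, u, h1, h2, h3⟩ := ufd_factor h0
  exact ⟨⟨n, t, m, u, h1, h2, h3⟩⟩

namespace UfD
variable {y : Pt 𝒜} (D : UfD y p)

theorem eq_of {i k : Fin D.n} (h : D.t i ∈ Ideal.span {D.t k}) : i = k :=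
  D.dvd i k (Ideal.mem_span_singleton.1 h)

theorem ne (i : Fin D.n) : D.t i ≠ 0 := (D.pri i).ne_zero

theorem prime (i : Fin D.n) : (Ideal.span {D.t i}).IsPrime :=
  (Ideal.span_singleton_prime (D.ne i)).2 (D.pri i)

theorem exists_mem {P : Ideal (loc y)} (hP : P.IsPrime) (h : (p : loc y) ∈ P) :
    ∃ i, 0 < D.m i ∧ D.t i ∈ P := by
  rw [D.hp] at h
  have h1 := (hP.mem_or_mem h).resolve_left fun k =>
    hP.ne_top (Ideal.eq_top_of_isUnit_mem _ k D.u.isUnit)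
  obtain ⟨i, -, h2⟩ := (Ideal.IsPrime.prod_mem_iff (hp := hP)).1 h1
  refine ⟨i, Nat.pos_of_ne_zero fun e => ?_, hP.mem_of_pow_mem _ h2⟩
  rw [e, pow_zero] at h2
  exact hP.ne_top ((Ideal.eq_top_iff_one _).2 h2)

theorem p_mem {i : Fin D.n} (h : 0 < D.m i) : (p : loc y) ∈ Ideal.span {D.t i} := by
  rw [D.hp, Ideal.mem_span_singleton]
  exact ((dvd_pow_self _ h.ne').trans
    (Finset.dvd_prod_of_mem (fun k => D.t k ^ D.m k) (Finset.mem_univ i))).mul_left _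

theorem comp_of {i : Fin D.n} (h : 0 < D.m i) :
    ∃ j : Comp 𝒜 p, cI j ≤ pr y ∧ sncE y (cI j) = Ideal.span {D.t i} := by
  obtain ⟨y', h1, h2⟩ := sncE_surj _ (D.prime i)
  have h3 : (p : A) ∈ pr y' := (snc_p_mem h1).1 (h2 ▸ D.p_mem h)
  refine ⟨⟨⟨y', h3⟩, fun z hz => ?_⟩, h1, h2⟩
  have h4 : pr z.1 ≤ pr y := hz.trans h1
  obtain ⟨k, -, h5⟩ := D.exists_mem (sncE_prime h4) ((snc_p_mem h4).2 z.2)
  obtain rfl : k = i := D.eq_of (h2 ▸ sncE_mono y hz h5)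
  refine Subtype.ext (pr_inj (le_antisymm hz (le_of_sncE_le h4 (pr_hom _) ?_)))
  rw [h2, Ideal.span_singleton_le_iff_mem]
  exact h5

theorem of_comp {j : Comp 𝒜 p} (h : cI j ≤ pr y) :
    ∃ i, 0 < D.m i ∧ sncE y (cI j) = Ideal.span {D.t i} := by
  obtain ⟨i, h1, h2⟩ := D.exists_mem (sncE_prime h) ((snc_p_mem h).2 j.1.2)
  obtain ⟨k, h3, h4⟩ := D.comp_of h1
  have : cI k ≤ cI j := le_of_sncE_le h (pr_hom _) (by
    rw [h4, Ideal.span_singleton_le_iff_mem]; exact h2)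
  obtain rfl := cI_le_iff.1 this
  exact ⟨i, h1, h4⟩

theorem mu {j : Pt 𝒜} (h : pr j ≤ pr y) {i : Fin D.n} (e : sncE y (pr j) = Ideal.span {D.t i}) :
    SncMu p j (D.m i) := by
  refine snc_mu_aux (sncI h) D.t D.m D.u D.hp i (snc_max h e) (fun k => D.ne i ?_) fun k hk => ?_
  · rw [← ZeroMemClass.coe_eq_zero, sncI_val, ZeroMemClass.coe_eq_zero] at k
    exact k
  · rw [sncI_mem, e] at hk
    exact D.eq_of hk

include D in
/-- the equation of the fibre in terms of local generators of the components -/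
theorem assoc {M : Comp 𝒜 p → ℕ} (hM : ∀ j : Comp 𝒜 p, SncMu p j.1.1 (M j))
    (γ : Comp 𝒜 p → loc y) (hγ : ∀ j, sncE y (cI j) = Ideal.span {γ j}) :
    Associated (∏ j : Comp 𝒜 p, γ j ^ M j) (p : loc y) := by
  classical
  choose c hc using fun i : {i // 0 < D.m i} => D.comp_of i.2
  have e1 : ∀ i, M (c i) = D.m i := fun i =>
    le_antisymm ((D.mu (hc i).1 (hc i).2 _).1 ((hM (c i) _).2 le_rfl))
      ((hM (c i) _).1 ((D.mu (hc i).1 (hc i).2 _).2 le_rfl))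
  have inj : Function.Injective c := fun i k e => Subtype.ext (D.eq_of (by
    rw [← (hc k).2, ← e, (hc i).2]; exact Ideal.mem_span_singleton_self _))
  let τ : Comp 𝒜 p → loc y := fun j => if h : ∃ i, c i = j then D.t h.choose else 1
  have t1 : ∀ i, τ (c i) = D.t i := fun i => by
    have h : ∃ k, c k = c i := ⟨i, rfl⟩
    simp only [τ, dif_pos h, inj h.choose_spec]
  have t2 : ∀ j, Associated (γ j) (τ j) := fun j => by
    by_cases h : ∃ i, c i = j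
    · obtain ⟨i, rfl⟩ := h
      rw [t1, ← Ideal.span_singleton_eq_span_singleton, ← hγ, (hc i).2]
    · simp only [τ, dif_neg h]
      rw [associated_one_iff_isUnit, ← Ideal.span_singleton_eq_top, ← hγ]
      have hn : ¬cI j ≤ pr y := fun k => by
        obtain ⟨i, h1, h2⟩ := D.of_comp k
        exact h ⟨⟨i, h1⟩, cI_le_iff.1 (le_of_sncE_le k (pr_hom _) ((hc ⟨i, h1⟩).2.trans h2.symm).le)⟩
      obtain ⟨n, a, ha, h1, h2⟩ := md_exists_not_mem (pr_hom j.1.1) hn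
      exact Ideal.eq_top_of_isUnit_mem _ (sncD_mem ha h1) ((snc_unit ha
        (md_pow_mem (ell_spec y).1 n) (md_pow_not_mem (ell_spec y).2 n) (sncD_val y ha)).2 h2)
  have e2 : ∏ i : {i // 0 < D.m i}, D.t i ^ D.m i = ∏ j : Comp 𝒜 p, τ j ^ M j :=
    Fintype.prod_of_injective c inj _ _ (fun j hj => by
      have h : ¬∃ i, c i = j := hj
      simp only [τ, dif_neg h, one_pow]) fun i => by rw [t1, e1]
  have e3 : ∏ i : {i // 0 < D.m i}, D.t i ^ D.m i = ∏ i, D.t i ^ D.m i :=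
    Fintype.prod_of_injective Subtype.val Subtype.val_injective _ _ (fun i hi => by
      have : D.m i = 0 := by
        by_contra hc
        exact hi ⟨⟨i, Nat.pos_of_ne_zero hc⟩, rfl⟩
      rw [this, pow_zero]) fun _ => rfl
  refine (Associated.prod _ _ _ fun j _ => (t2 j).pow_pow).trans ?_
  rw [← e2, e3, D.hp]
  exact (associated_unit_mul_left _ _ D.u.isUnit).symm

end UfD

variable [CharZero A]

theorem fib0_lp (hr : Reg 𝒜) (j : Comp 𝒜 p) : (MX 𝒜).LP (cI j) := fun y hy => by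
  by_cases h : cI j ≤ pr y
  · obtain ⟨D⟩ := ufd_data (p := p) hr y
    obtain ⟨i, -, e⟩ := D.of_comp h
    exact snc_genI (D.ne i) e
  · obtain ⟨n, a, ha, h1, h2⟩ := md_exists_not_mem (pr_hom j.1.1) h
    exact ⟨n, a, (MX 𝒜).genI_of_not_mem hy h1 ha h2⟩

theorem fib0_eqn (hr : Reg 𝒜) {M : Comp 𝒜 p → ℕ} (hM : ∀ j : Comp 𝒜 p, SncMu p j.1.1 (M j))
    (y : Vp 𝒜 p) (e : Comp 𝒜 p → ℕ) (g : Comp 𝒜 p → A)
    (h : ∀ j, (MX 𝒜).GenI (cI j) y.1 (e j) (g j)) : ∃ n n', ∃ b ∈ 𝒜 n, ∃ c ∈ 𝒜 n',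
      b ∉ pr y.1 ∧ c ∉ pr y.1 ∧ n = n' + ∑ j, M j * e j ∧ b * p = c * ∏ j, g j ^ M j := by
  obtain ⟨D⟩ := ufd_data (p := p) hr y.1
  obtain ⟨u, hu⟩ := D.assoc hM _ fun j => snc_of_genI (h j)
  obtain ⟨n, c, hc, b, hb, h1, eu⟩ := mem_loc.1 (u : loc y.1).2
  have h2 : c ∉ pr y.1 := (snc_unit hc hb h1 eu).1 u.isUnit
  have h3 : ell y.1 ^ (∑ j : Comp 𝒜 p, M j * e j) ∉ pr y.1 := md_pow_not_mem (ell_spec y.1).2 _
  refine ⟨_, n, b * ell y.1 ^ (∑ j : Comp 𝒜 p, M j * e j),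
    SetLike.mul_mem_graded hb (md_pow_mem (ell_spec y.1).1 _), c, hc, md_mul_not_mem h1 h3, h2, rfl,
    ?_⟩
  have h4 : ((∏ j : Comp 𝒜 p, sncD y.1 (h j).2.1 ^ M j : loc y.1) : FractionRing A) =
      algebraMap A (FractionRing A) (∏ j : Comp 𝒜 p, g j ^ M j) /
        algebraMap A (FractionRing A) (ell y.1 ^ (∑ j : Comp 𝒜 p, M j * e j)) := by
    rw [SubmonoidClass.coe_finsetProd, ← Finset.prod_pow_eq_pow_sum, map_prod, map_prod,
      ← Finset.prod_div_distrib]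
    refine Finset.prod_congr rfl fun j _ => ?_
    rw [SubmonoidClass.coe_pow, sncD_val, div_pow, ← map_pow, ← map_pow, ← pow_mul, mul_comm]
  have h5 := congrArg Subtype.val hu
  rw [Subring.coe_mul, h4, eu, snc_p_val, div_mul_div_comm, ← map_mul, ← map_mul] at h5
  have h6 := snc_cross (md_mul_not_mem h3 h1) (md_one_not_mem y.1) h5
  linear_combination -h6

theorem fib0_rel1 (hr : Reg 𝒜) {M : Comp 𝒜 p → ℕ} (hM : ∀ j : Comp 𝒜 p, SncMu p j.1.1 (M j))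
    {n : ℕ} {a : A} (ha : a ∈ 𝒜 n) (h5 : a ∈ ∏ j : Comp 𝒜 p, cI j ^ M j) (y : Pt 𝒜) :
    ∃ m, ∃ b ∈ 𝒜 m, b ∉ pr y ∧ b * a ∈ Ideal.span {(p : A)} := by
  by_cases hy : (p : A) ∈ pr y
  · obtain ⟨D⟩ := ufd_data (p := p) hr y
    choose e g hg using fun j : Comp 𝒜 p => fib0_lp hr j y (on_MX y)
    have h6 := D.assoc hM _ fun j => snc_of_genI (hg j)
    obtain ⟨δ, hδ⟩ := snc_deh y
    refine sncE_clear (md_pow_not_mem (ell_spec y).2 n) (sncD_val y ha) ?_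
    have h7 := snc_map_prod δ (fun j : Comp 𝒜 p => cI j) M (fun j => sncD y (hg j).2.1) fun j => by
      rw [← snc_of_genI (hg j)]
      refine Ideal.map_le_iff_le_comap.2 (md_le_of_hom (pr_hom _) fun l c hc h8 => ?_)
      rw [Ideal.mem_comap, hδ l c hc]
      exact sncD_mem hc h8
    rw [Ideal.span_singleton_eq_span_singleton.2 h6] at h7
    have h8 : (p : loc y) ∈ sncE y (Ideal.span {(p : A)}) :=
      ⟨0, p, md_natCast_mem p, 1, SetLike.one_mem_graded 𝒜, Ideal.mem_span_singleton_self _,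
        md_one_not_mem y, snc_p_val y⟩
    rw [← hδ n a ha]
    exact (Ideal.span_singleton_le_iff_mem _).2 h8 (h7 (Ideal.mem_map_of_mem δ h5))
  · exact ⟨0, p, md_natCast_mem p, hy, Ideal.mul_mem_right _ _ (Ideal.mem_span_singleton_self _)⟩

theorem fib0_rel2 (hr : Reg 𝒜) {M : Comp 𝒜 p → ℕ} (hM : ∀ j : Comp 𝒜 p, SncMu p j.1.1 (M j))
    {a : A} (h5 : a ∈ Ideal.span {(p : A)}) (y : Pt 𝒜) :
    ∃ m, ∃ b ∈ 𝒜 m, b ∉ pr y ∧ b * a ∈ ∏ j : Comp 𝒜 p, cI j ^ M j := by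
  choose e g hg using fun j : Comp 𝒜 p => fib0_lp hr j y (on_MX y)
  have h6 : ∏ j : Comp 𝒜 p, g j ^ M j ∈ ∏ j : Comp 𝒜 p, cI j ^ M j :=
    Ideal.prod_mem_prod fun j _ => Ideal.pow_mem_pow (hg j).1 _
  by_cases hy : (p : A) ∈ pr y
  · obtain ⟨l, l', b, hb, c, -, h7, -, -, h8⟩ := fib0_eqn hr hM ⟨y, hy⟩ e g hg
    obtain ⟨d, rfl⟩ := Ideal.mem_span_singleton'.1 h5
    refine ⟨l, b, hb, h7, ?_⟩
    rw [mul_left_comm, h8]
    exact Ideal.mul_mem_left _ _ (Ideal.mul_mem_left _ _ h6)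
  · refine ⟨_, _, snc_prod_mem Finset.univ e M g fun j => (hg j).2.1, fun k => ?_,
      Ideal.mul_mem_right _ _ h6⟩
    obtain ⟨j, -, h7⟩ := (Ideal.IsPrime.prod_mem_iff (hp := y.isPrime)).1 k
    exact AM.GenI.not_mem (MX 𝒜) (pr_hom _) (on_MX y) (hg j) (fun h8 => hy (h8 j.1.2))
      (y.isPrime.mem_of_pow_mem _ h7)

theorem fib0_rel (hr : Reg 𝒜) {M : Comp 𝒜 p → ℕ}
    (hM : ∀ j : Comp 𝒜 p, SncMu p j.1.1 (M j)) {I : Comp 𝒜 p → Car (MX 𝒜).V}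
    (hI : ∀ j, IsCl (I j) ((MX 𝒜).fam (cI j))) : ∏ j : Comp 𝒜 p, cl (I j) ^ M j = 1 := by
  rcases isEmpty_or_nonempty (Comp 𝒜 p) with h | ⟨⟨j0⟩⟩
  · exact Finset.prod_of_isEmpty _
  have hV : Mdl (MX 𝒜).V := (MX 𝒜).mdl (on_MX j0.1.1)
  have h0 : algebraMap A (FractionRing A) (p : A) ≠ 0 := fun k =>
    (Fact.out : p.Prime).ne_zero (by exact_mod_cast (FaithfulSMul.algebraMap_eq_zero_iff _ _).1 k)
  exact snc_rel_gen (MX 𝒜) hV (J := fun j : Comp 𝒜 p => cI j) (fun j => ⟨pr_hom j.1.1, hI j⟩) M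
    (md_natCast_mem p) h0 (fun n a ha h5 y => fib0_rel1 hr hM ha h5 y)
    fun n a _ h5 y => fib0_rel2 hr hM h5 y

theorem exists_fib0 (hr : Reg 𝒜) :
    ∃ (m : Comp 𝒜 p → ℕ) (I : Comp 𝒜 p → Car (MX 𝒜).V), Fib0 m I := by
  have hm : ∀ j : Comp 𝒜 p, ∃ r, 0 < r ∧ SncMu p j.1.1 r := fun j => by
    obtain ⟨D⟩ := ufd_data (p := p) hr j.1.1
    obtain ⟨i, h1, h2⟩ := D.of_comp (j := j) le_rfl
    exact ⟨_, h1, D.mu le_rfl h2⟩
  choose M h0 hM using hm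
  choose I hI using fun j : Comp 𝒜 p =>
    AM.LP.exists_isCl (MX 𝒜) (fib0_lp hr j) (on_MX j.1.1)
  exact ⟨M, I, h0, fib0_lp hr, hI, fib0_rel hr hM hI, fib0_eqn hr hM,
    fun n a ha h y => fib0_rel1 hr hM ha h y, fun a h y => fib0_rel2 hr hM h y⟩

omit [CharZero A] in
theorem Fib0.cls {m : Comp 𝒜 p → ℕ} {I : Comp 𝒜 p → Car (MX 𝒜).V} (h : Fib0 m I)
    (j : Comp 𝒜 p) : Nonempty (Cls j.1 (CC I j)) :=
  exists_cls j.1 (h.lp j) (h.isCl j)

end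

end Pool.Agent.Lib.MP_62d77c_ag
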