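import Pool.Agent.Lib.MP_62d77c_ag.End.Idx
import Pool.Agent.Lib.MP_62d77c_ag.Serre
import Pool.Agent.Lib.MP_62d77c_ag.BTors

/-! An open and closed part of a fibre is cut out by a global function. -/

set_option autoImplicit false
set_option linter.unusedSectionVars false

namespace Pool.Agent.Lib.MP_62d77c_ag

open Filter Polynomial Submodule

noncomputable section

variable {A : Type} [CommRing A] [IsDomain A] {𝒜 : ℕ → AddSubgroup A} [GradedRing 𝒜]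
  [hG : Fact (Gen 𝒜)] {p : ℕ} [Fact p.Prime]

variable (𝒜) in
/-- inclusion at every point -/
def Loc (J J' : Ideal A) : Prop :=
  ∀ n, ∀ a ∈ 𝒜 n, a ∈ J → ∀ y : Pt 𝒜, ∃ m, ∃ b ∈ 𝒜 m, b ∉ pr y ∧ b * a ∈ J'

omit hG in
theorem loc_of_le {J J' : Ideal A} (h : J ≤ J') : Loc 𝒜 J J' := fun _ a _ h1 y =>
  ⟨0, 1, SetLike.one_mem_graded 𝒜, md_one_not_mem y, by rw [one_mul]; exact h h1⟩

omit hG in
theorem Loc.mul {J₁ J₂ J₃ J₄ : Ideal A} (h : Loc 𝒜 J₁ J₂) (h' : Loc 𝒜 J₃ J₄)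
    (h1 : J₁.IsHomogeneous 𝒜) (h3 : J₃.IsHomogeneous 𝒜) : Loc 𝒜 (J₁ * J₃) (J₂ * J₄) := by
  intro n t hn ht y
  refine step_mul_ind (P := fun t => ∃ m, ∃ b ∈ 𝒜 m, b ∉ pr y ∧ b * t ∈ J₂ * J₄) h1 h3 ?_ ?_ ?_ ht hn
  · exact ⟨0, 1, SetLike.one_mem_graded 𝒜, md_one_not_mem y, by simp⟩
  · rintro x - z - - - ⟨m, b, hb, k1, e1⟩ ⟨m', b', hb', k2, e2⟩
    refine ⟨m + m', b * b', SetLike.mul_mem_graded hb hb', step_mul_not k1 k2, ?_⟩
    rw [show b * b' * (x + z) = b' * (b * x) + b * (b' * z) by ring]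
    exact add_mem (Ideal.mul_mem_left _ _ e1) (Ideal.mul_mem_left _ _ e2)
  · intro l m _ a ha s hs hl hm
    obtain ⟨i, b, hb, k1, e1⟩ := h l a hl ha y
    obtain ⟨i', b', hb', k2, e2⟩ := h' m s hm hs y
    refine ⟨i + i', b * b', SetLike.mul_mem_graded hb hb', step_mul_not k1 k2, ?_⟩
    rw [mul_mul_mul_comm]
    exact Ideal.mul_mem_mul e1 e2

omit hG in
theorem hom_pow {J : Ideal A} (h : J.IsHomogeneous 𝒜) (k : ℕ) : (J ^ k).IsHomogeneous 𝒜 := by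
  induction k with
  | zero => rw [pow_zero, Ideal.one_eq_top]; exact Ideal.IsHomogeneous.top 𝒜
  | succ k ih => rw [pow_succ]; exact ih.mul h

omit hG in
theorem Loc.pow {J J' : Ideal A} (h : Loc 𝒜 J J') (h1 : J.IsHomogeneous 𝒜) (k : ℕ) :
    Loc 𝒜 (J ^ k) (J' ^ k) := by
  induction k with
  | zero => rw [pow_zero, pow_zero]; exact loc_of_le le_rfl
  | succ k ih => rw [pow_succ, pow_succ]; exact ih.mul h (hom_pow h1 k) h1

omit hG in
theorem loc_inf {J J' : Ideal A} (hJ : J.IsHomogeneous 𝒜) (hJ' : J'.IsHomogeneous 𝒜)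
    (hdis : ∀ y : Pt 𝒜, J ≤ pr y → ¬J' ≤ pr y) : Loc 𝒜 (J ⊓ J') (J * J') := by
  intro n a _ ha y
  by_cases h : J ≤ pr y
  · obtain ⟨m, b, hb, h1, h2⟩ := md_exists_not_mem hJ' (hdis y h)
    exact ⟨m, b, hb, h2, by rw [mul_comm b]; exact Ideal.mul_mem_mul ha.1 h1⟩
  · obtain ⟨m, b, hb, h1, h2⟩ := md_exists_not_mem hJ h
    exact ⟨m, b, hb, h2, Ideal.mul_mem_mul h1 ha.2⟩

omit hG in
theorem Loc.trans {J₁ J₂ J₃ : Ideal A} (h : Loc 𝒜 J₁ J₂) (h' : Loc 𝒜 J₂ J₃) : Loc 𝒜 J₁ J₃ := by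
  intro n a ha h1 y
  obtain ⟨m, b, hb, k1, e1⟩ := h n a ha h1 y
  obtain ⟨m', b', hb', k2, e2⟩ := h' _ _ (SetLike.mul_mem_graded hb ha) e1 y
  exact ⟨m' + m, b' * b, SetLike.mul_mem_graded hb' hb, step_mul_not k2 k1, by rwa [mul_assoc]⟩

omit hG in
theorem hom_of_span {c : A} (hc : c ∈ 𝒜 0) {n : ℕ} {a : A} (ha : a ∈ 𝒜 n)
    (h : a ∈ Ideal.span {c}) : ∃ b ∈ 𝒜 n, a = b * c := by
  obtain ⟨b, rfl⟩ := Ideal.mem_span_singleton'.1 h
  have h2 := md_proj_mul hc n b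
  rw [add_zero, md_proj_same ha] at h2
  exact ⟨_, md_proj_mem n b, h2⟩

section
variable {k K : Type} [CommRing k] [Field K] [Algebra k K] (M : AM 𝒜 k K)

theorem idem_loc [CharZero A] (hinj : Function.Injective M.θ) (y₀ : Pt 𝒜) {J J' : Ideal A} (hJ : J.IsHomogeneous 𝒜)
    (hJ' : J'.IsHomogeneous 𝒜) (hdis : ∀ y : Pt 𝒜, J ≤ pr y → ¬J' ≤ pr y)
    (hsub : Loc 𝒜 (J * J') (Ideal.span {(p : A)})) (hsup : Loc 𝒜 (Ideal.span {(p : A)}) (J * J')) :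
    ∃ u : K, ∀ y : Pt 𝒜, ∃ m, ∃ b ∈ 𝒜 m, b ∉ pr y ∧ ∃ α ∈ 𝒜 m, α ∈ J' ∧ b - α ∈ J ∧
      M.θ α = u * M.θ b := by
  classical
  have := M.noeth
  obtain ⟨t, ht⟩ := M.V_fg
  let e := (t.erase 0).equivFin.symm
  let y : Fin (t.erase 0).card → K := fun i => (e i).1
  have hy0 : ∀ i, y i ≠ 0 := fun i => (Finset.mem_erase.1 (e i).2).1
  have hV : span k (Set.range y) = M.V := by
    rw [← ht, ← span_sdiff_singleton_zero (R := k) (s := (t : Set K)), ← Finset.coe_erase]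
    congr 1
    ext z
    exact ⟨fun ⟨i, h⟩ => h ▸ (e i).2, fun h => ⟨e.symm ⟨z, h⟩, by simp [y]⟩⟩
  have hx : ∀ i, ∃ a ∈ 𝒜 1, M.θ a = y i := fun i => by
    obtain ⟨a, -, h1, h2⟩ := M.mem_fam.1 (hV.le (subset_span ⟨i, rfl⟩))
    exact ⟨a, h1, h2⟩
  choose x hx1 hx2 using hx
  have hcov : ∀ z : Pt 𝒜, ∃ i, x i ∉ pr z := fun z => by
    by_contra hc
    push Not at hc
    have h1 : span k (Set.range y) ≤ M.fam (pr z) 1 := span_le.2 (by
      rintro _ ⟨i, rfl⟩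
      exact M.mem_fam.2 ⟨_, hc i, hx1 i, hx2 i⟩)
    obtain ⟨a, ha, -, e1⟩ := M.mem_fam.1 (h1 (hV.ge (M.mem_fam.2 ⟨ell z, trivial, (ell_spec z).1, rfl⟩)))
    exact (ell_spec z).2 (hinj e1 ▸ ha)
  let N : ℕ → Submodule k (K) := fun n => M.V ^ n
  have hN0 : ∀ n, span k (Set.range y) • N n ≤ N (n + 1) := fun n => by
    rw [hV]; exact (pow_succ' _ n).ge
  have hN : Fg (span k (Set.range y)) N := by rw [hV]; exact fg_pw' M.V_fg
  obtain ⟨s, hs⟩ := btors_bdd (serre (fun i => (hy0 i).isUnit) hN hN0 1) (p : k)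
  have hk := hom_pow hJ (s + 1)
  have hk' := hom_pow hJ' (s + 1)
  have hdis' : ∀ z : Pt 𝒜, J ^ (s + 1) ≤ pr z → ¬J' ^ (s + 1) ≤ pr z := fun z h1 h2 =>
    hdis z ((z.isPrime.pow_le_iff s.succ_ne_zero).1 h1) ((z.isPrime.pow_le_iff s.succ_ne_zero).1 h2)
  obtain ⟨n, hn⟩ := (irrelevant_of_no_pt (hk.sup hk') fun z h =>
    hdis' z (le_sup_left.trans h) (le_sup_right.trans h)).exists
  choose β hβ α hα hβn hαn hxe using fun i =>
    span_hom_sup hk hk' (hn _ (md_pow_mem (hx1 i) n)) (md_pow_mem (hx1 i) n)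
  let ε : Fin (t.erase 0).card → K := fun i => M.θ (α i) / y i ^ n
  let c : Finset (Fin (t.erase 0).card) → K := fun σ =>
    if σ.card = 1 then ∑ i ∈ σ, ε i else 0
  have hc1 : ∀ i, c {i} = ε i := fun i => by simp [c]
  have hc : c ∈ Coch (chart y N) 1 := mem_Coch.2 fun σ => ⟨fun h => by
    obtain ⟨i, rfl⟩ := Finset.card_eq_one.1 h.1
    refine subset_span ⟨n, ?_⟩
    rw [hc1, Finset.prod_singleton, Finset.card_singleton, mul_one, smul_eq_mul,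
      mul_div_cancel₀ _ (pow_ne_zero _ (hy0 i))]
    exact M.th_mem_pow (hαn i), fun h => if_neg fun h' => h ⟨h', one_ne_zero⟩⟩
  have hp0 : (p : K) ≠ 0 := fun h => (Fact.out : p.Prime).ne_zero
    (Nat.cast_eq_zero.1 (hinj (by rw [map_natCast, h, map_zero]) : (p : A) = 0))
  have hev : Ev 𝒜 (J ^ (s + 1) ⊓ J' ^ (s + 1)) (Ideal.span {(p : A) ^ (s + 1)}) := by
    refine ev_of_loc ((loc_inf hk hk' hdis').trans ?_)
    rw [← mul_pow, ← Ideal.span_singleton_pow]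
    exact hsub.pow (hJ.mul hJ') _
  obtain ⟨n₁, hn₁⟩ := eventually_atTop.1 hev
  let f : K →ₗ[k] K := LinearMap.mulLeft k ((p : K) ^ (s + 1))⁻¹
  have hd := dC_mem (fun σ τ h1 h2 => chart_mono hN0 h1 h2) hc
  have hη : f ∘ dC k _ c ∈ Coch (chart y N) (1 + 1) := mem_Coch.2 fun σ => ⟨fun h => by
    have key : ∀ i j, i < j → f (dC k _ c {i, j}) ∈ chart y N {i, j} := fun i j hij => by
      have h1 : (x i * x j) ^ n₁ * (α j * x i ^ n - α i * x j ^ n) ∈ 𝒜 ((n₁ + n) * 2) := by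
        have h2 := SetLike.mul_mem_graded (SetLike.pow_mem_graded n₁
          (SetLike.mul_mem_graded (hx1 i) (hx1 j))) (sub_mem
            (SetLike.mul_mem_graded (hαn j) (md_pow_mem (hx1 i) n))
            (SetLike.mul_mem_graded (hαn i) (md_pow_mem (hx1 j) n)))
        rwa [show n₁ • (1 + 1) + (n + n) = (n₁ + n) * 2 by rw [smul_eq_mul]; ring] at h2
      obtain ⟨b, hb, e1⟩ := hom_of_span (by simpa using SetLike.pow_mem_graded (s + 1) (md_natCast_mem (𝒜 := 𝒜) p)) h1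
        (hn₁ _ (by omega) _ h1 (Ideal.mul_mem_left _ _ ⟨by
          rw [show α j * x i ^ n - α i * x j ^ n = α j * β i - α i * β j by
            rw [hxe i, hxe j]; ring]
          exact sub_mem (Ideal.mul_mem_left _ _ (hβ i)) (Ideal.mul_mem_left _ _ (hβ j)),
          sub_mem (Ideal.mul_mem_right _ _ (hα j)) (Ideal.mul_mem_right _ _ (hα i))⟩))
      refine subset_span ⟨n₁ + n, ?_⟩
      rw [Finset.prod_pair hij.ne, Finset.card_pair hij.ne, dC_two _ hij, hc1, hc1]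
      have e2 := congrArg (M.θ) e1
      simp only [map_mul, map_pow, map_sub, hx2, map_natCast] at e2
      have : (y i * y j) ^ (n₁ + n) • f (ε j - ε i) = M.θ b := by
        have := hy0 i
        have := hy0 j
        simp only [f, ε, smul_eq_mul, LinearMap.mulLeft_apply, pow_add (y i * y j), mul_pow (y i) (y j) n]
        field_simp
        linear_combination e2
      rw [this]
      exact M.th_mem_pow hb
    obtain ⟨i, j, hij, rfl⟩ := Finset.card_eq_two.1 h.1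
    rcases hij.lt_or_gt with h' | h'
    · exact key i j h'
    · rw [Finset.pair_comm]; exact key j i h', fun h => by
      rw [Function.comp_apply, (mem_Coch.1 hd σ).2 h, map_zero]⟩
  have e3 : ∀ l : ℕ, ∀ w : Finset (Fin (t.erase 0).card) → K, ∀ σ,
      (((p : k) ^ l) • w) σ = (p : K) ^ l * w σ := fun l w σ => by
    rw [Pi.smul_apply, Algebra.smul_def, map_pow, map_natCast]
  obtain ⟨ζ, hζ, e4⟩ := hs (f ∘ dC k _ c) ⟨hη, by
    show dC k _ _ = 0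
    rw [serre_dC_comp, dC_dC]
    funext σ
    exact map_zero f⟩ (s + 1) ⟨c, hc, by
      funext σ
      rw [e3]
      exact (mul_inv_cancel_left₀ (pow_ne_zero _ hp0) _).symm⟩
  have e5 : ∀ i j, i < j → ε j - p * ζ {j} = ε i - p * ζ {i} := fun i j hij => by
    have h1 := congrFun e4 {i, j}
    rw [e3, dC_two _ hij, Function.comp_apply, dC_two _ hij, hc1, hc1] at h1
    simp only [f, LinearMap.mulLeft_apply] at h1
    field_simp at h1
    refine mul_left_cancel₀ (pow_ne_zero s hp0) ?_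
    clear_value ε
    linear_combination -h1
  obtain ⟨i₀, -⟩ := hcov y₀
  refine ⟨ε i₀ - p * ζ {i₀}, fun z => ?_⟩
  obtain ⟨i, hi⟩ := hcov z
  have e6 : ε i₀ - p * ζ {i₀} = ε i - p * ζ {i} := by
    rcases lt_trichotomy i i₀ with h' | h' | h'
    · exact e5 _ _ h'
    · rw [h']
    · exact (e5 _ _ h').symm
  obtain ⟨r, h1⟩ := ((tendsto_add_atTop_nat n).eventually ((mem_chart hN0
    (Finset.singleton_nonempty i)).1 ((mem_Coch.1 hζ {i}).1 ⟨rfl, one_ne_zero⟩))).exists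
  rw [Finset.prod_singleton, Finset.card_singleton, mul_one, smul_eq_mul] at h1
  obtain ⟨w, hw, e7⟩ := M.mem_pow.1 h1
  obtain ⟨l, b, hb, h2, h3⟩ := hsup 0 p (md_natCast_mem p) (Ideal.mem_span_singleton_self _) z
  refine ⟨l + (r + n), b * x i ^ (r + n), SetLike.mul_mem_graded hb (md_pow_mem (hx1 i) _),
    md_mul_not_mem h2 (md_pow_not_mem hi _), b * (x i ^ r * α i - p * w),
    SetLike.mul_mem_graded hb (sub_mem (SetLike.mul_mem_graded (md_pow_mem (hx1 i) r) (hαn i))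
      (by simpa using SetLike.mul_mem_graded (md_natCast_mem p) hw)), ?_, ?_, ?_⟩
  · rw [show b * (x i ^ r * α i - p * w) = b * x i ^ r * α i - b * p * w by ring]
    exact sub_mem (Ideal.mul_mem_left _ _ (Ideal.pow_le_self s.succ_ne_zero (hα i)))
      (Ideal.mul_mem_right _ _ ((Ideal.mul_le_right : J * J' ≤ J') h3))
  · rw [show b * x i ^ (r + n) - b * (x i ^ r * α i - p * w) = b * x i ^ r * β i + b * p * w by
      rw [pow_add, hxe i]; ring]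
    exact add_mem (Ideal.mul_mem_left _ _ (Ideal.pow_le_self s.succ_ne_zero (hβ i)))
      (Ideal.mul_mem_right _ _ ((Ideal.mul_le_left : J * J' ≤ J) h3))
  · have e8 : M.θ w = y i ^ (r + n) * ζ {i} := e7
    have := hy0 i
    rw [e6]
    simp only [map_mul, map_sub, map_pow, map_natCast, hx2, e8, ε, pow_add]
    field_simp

theorem exists_idem_gen [CharZero A] (hinj : Function.Injective M.θ) (y₀ : Pt 𝒜) {J J' : Ideal A} (hJ : J.IsHomogeneous 𝒜)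
    (hJ' : J'.IsHomogeneous 𝒜) (hdis : ∀ y : Pt 𝒜, J ≤ pr y → ¬J' ≤ pr y)
    (hsub : Loc 𝒜 (J * J') (Ideal.span {(p : A)})) (hsup : Loc 𝒜 (Ideal.span {(p : A)}) (J * J')) :
    ∃ u : K, ∀ᶠ n in atTop, ∀ a ∈ 𝒜 n, ∃ α ∈ 𝒜 n, α ∈ J' ∧ a - α ∈ J ∧
      M.θ α = u * M.θ a := by
  obtain ⟨u, hu⟩ := idem_loc M hinj y₀ hJ hJ' hdis hsub hsup
  have key : ∀ (v : K) (T : Ideal A), (∀ y : Pt 𝒜, ∃ m, ∃ b ∈ 𝒜 m, b ∉ pr y ∧
      ∃ α ∈ 𝒜 m, α ∈ T ∧ M.θ α = v * M.θ b) →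
      ∀ᶠ n in atTop, ∀ a ∈ 𝒜 n, ∃ α ∈ 𝒜 n, α ∈ T ∧ M.θ α = v * M.θ a := by
    intro v T h
    have h1 := M.local_global ((M.fg_fam ⊤).map (LinearMap.mulLeft K v))
      (M.fg_fam T).fam (Eventually.of_forall fun n w hw y _ => by
        obtain ⟨_, h2, rfl⟩ := hw
        obtain ⟨a, -, ha, rfl⟩ := M.mem_fam.1 h2
        obtain ⟨m, b, hb, h3, α, h4, h5, e⟩ := h y
        refine ⟨m, b, hb, h3, M.mem_fam.2 ⟨a * α, T.mul_mem_left _ h5,
          SetLike.mul_mem_graded ha h4, ?_⟩⟩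
        change M.θ _ = M.θ b * (v * M.θ a)
        rw [map_mul, e]; ring)
    filter_upwards [h1] with n hn a ha
    obtain ⟨α, h2, h3, e⟩ := M.mem_fam.1
      (hn ⟨_, M.mem_fam.2 ⟨a, trivial, ha, rfl⟩, rfl⟩)
    exact ⟨α, h3, h2, e⟩
  have h1 := key u J' fun y => by
    obtain ⟨m, b, hb, h1, α, h2, h3, -, e⟩ := hu y
    exact ⟨m, b, hb, h1, α, h2, h3, e⟩
  have h2 := key (1 - u) J fun y => by
    obtain ⟨m, b, hb, h1, α, h2, -, h3, e⟩ := hu y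
    exact ⟨m, b, hb, h1, b - α, sub_mem hb h2, h3, by rw [map_sub, e]; ring⟩
  refine ⟨u, ?_⟩
  filter_upwards [h1, h2] with n k1 k2 a ha
  obtain ⟨α, h3, h4, e⟩ := k1 a ha
  obtain ⟨β, -, h5, e'⟩ := k2 a ha
  refine ⟨α, h3, h4, ?_, e⟩
  rwa [show a - α = β from hinj (by rw [map_sub, e, e']; ring)]

end

theorem exists_idem [CharZero A] (y₀ : Pt 𝒜) {J J' : Ideal A} (hJ : J.IsHomogeneous 𝒜)
    (hJ' : J'.IsHomogeneous 𝒜) (hdis : ∀ y : Pt 𝒜, J ≤ pr y → ¬J' ≤ pr y)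
    (hsub : Loc 𝒜 (J * J') (Ideal.span {(p : A)})) (hsup : Loc 𝒜 (Ideal.span {(p : A)}) (J * J')) :
    ∃ u : FractionRing A, ∀ᶠ n in atTop, ∀ a ∈ 𝒜 n, ∃ α ∈ 𝒜 n, α ∈ J' ∧ a - α ∈ J ∧
      algebraMap A _ α = u * algebraMap A _ a :=
  exists_idem_gen (MX 𝒜) (IsFractionRing.injective A (FractionRing A)) y₀ hJ hJ' hdis hsub hsup

end

end Pool.Agent.Lib.MP_62d77c_ag
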