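import Pool.Agent.Lib.MP_62d77c_ag.End.Tr
import Pool.Agent.Lib.MP_62d77c_ag.End.Defs
import Pool.Agent.Lib.MP_62d77c_ag.Tor

/-! Index and rank of the graded pieces of an ideal. -/

set_option autoImplicit false
set_option linter.unusedSectionVars false

namespace Pool.Agent.Lib.MP_62d77c_ag

open Filter Polynomial Submodule

noncomputable section

theorem fr_map {G G' : Type} [AddCommGroup G] [AddCommGroup G'] (f : G →+ G') {S : AddSubgroup G}
    (hS : S.FG) : Module.finrank ℤ S =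
      Module.finrank ℤ (S.map f) + Module.finrank ℤ ↥(S ⊓ f.ker) := by
  have : AddGroup.FG S := (AddGroup.fg_iff_addSubgroup_fg S).2 hS
  have : Module.Finite ℤ S := Module.Finite.iff_addGroup_fg.2 this
  let φ : S →ₗ[ℤ] G' := (f.comp S.subtype).toIntLinearMap
  have h := (LinearMap.ker φ).finrank_quotient_add_finrank
  rw [(LinearMap.quotKerEquivRange φ).finrank_eq] at h
  rw [← h]
  congr 1
  · refine LinearEquiv.finrank_eq (AddEquiv.toIntLinearEquiv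
      { toFun := fun z => ⟨z.1, by obtain ⟨w, hw⟩ := z.2; exact ⟨w.1, w.2, hw⟩⟩
        invFun := fun z => ⟨z.1, by obtain ⟨w, hw, e⟩ := z.2; exact ⟨⟨w, hw⟩, e⟩⟩
        left_inv := fun _ => rfl
        right_inv := fun _ => rfl
        map_add' := fun _ _ => rfl })
  · refine LinearEquiv.finrank_eq (AddEquiv.toIntLinearEquiv
      { toFun := fun z => ⟨z.1.1, z.1.2, z.2⟩
        invFun := fun z => ⟨⟨z.1, z.2.1⟩, z.2.2⟩
        left_inv := fun _ => rfl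
        right_inv := fun _ => rfl
        map_add' := fun _ _ => rfl })

theorem fr_fg {G : Type} [AddCommGroup G] {S T : AddSubgroup G} (hT : T.FG) (h : S ≤ T) : S.FG := by
  have h1 : T.toIntSubmodule.FG := by
    rwa [Submodule.fg_iff_addSubgroup_fg, AddSubgroup.toIntSubmodule_toAddSubgroup]
  have h2 : S.toIntSubmodule.FG :=
    isNoetherian_submodule.1 (isNoetherian_of_fg_of_noetherian _ h1) _ h
  rwa [Submodule.fg_iff_addSubgroup_fg, AddSubgroup.toIntSubmodule_toAddSubgroup] at h2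

theorem fr_fg_map {G G' : Type} [AddCommGroup G] [AddCommGroup G'] (f : G →+ G')
    {S : AddSubgroup G} (h : S.FG) : (S.map f).FG := by
  classical
  obtain ⟨t, rfl⟩ := h
  exact ⟨t.image f, by rw [AddMonoidHom.map_closure, Finset.coe_image]⟩

theorem fr_lattice {K : Type} [Field K] [CharZero K] {Λ : AddSubgroup K} (h : Λ.FG)
    (h' : span ℚ (Λ : Set K) = ⊤) : Submodule.IsLattice ℚ Λ.toIntSubmodule :=
  ⟨by rwa [Submodule.fg_iff_addSubgroup_fg, AddSubgroup.toIntSubmodule_toAddSubgroup], h'⟩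

theorem fr_span {K : Type} [Field K] [CharZero K] {Λ : AddSubgroup K} (h : Λ.FG)
    (h' : span ℚ (Λ : Set K) = ⊤) : Module.finrank ℤ Λ = Module.finrank ℚ K :=
  haveI := fr_lattice h h'
  congrArg Cardinal.toNat (Submodule.IsLattice.rank' ℚ Λ.toIntSubmodule)

theorem alg_of_tz {K : Type} [Field K] [CharZero K] (h : tz K = 0) : Algebra.IsAlgebraic ℚ K :=
  haveI : Algebra.IsAlgebraic ℤ K := trdeg_eq_zero_iff.1 h
  Algebra.IsAlgebraic.extendScalars (R := ℤ) (by exact Int.cast_injective)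

theorem fr_rel {G G' : Type} [AddCommGroup G] [AddCommGroup G'] (f : G →+ G')
    {B Z : AddSubgroup G} {B' Z' : AddSubgroup G'} (hZ : Z.FG) (h1 : Z.map f = Z')
    (h2 : ∀ v ∈ Z, v ∈ B ↔ f v ∈ B') :
    (Module.finrank ℤ Z : ℚ) - Module.finrank ℤ ↥(B ⊓ Z) =
      Module.finrank ℤ Z' - Module.finrank ℤ ↥(B' ⊓ Z') := by
  have e1 : (B ⊓ Z).map f = B' ⊓ Z' := by
    subst h1
    ext w
    constructor
    · rintro ⟨v, hv, rfl⟩
      exact ⟨(h2 v hv.2).1 hv.1, v, hv.2, rfl⟩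
    · rintro ⟨h3, v, hv, rfl⟩
      exact ⟨v, ⟨(h2 v hv).2 h3, hv⟩, rfl⟩
  have e2 : B ⊓ Z ⊓ f.ker = Z ⊓ f.ker := by
    ext v
    exact ⟨fun h => ⟨h.1.2, h.2⟩, fun h => ⟨⟨(h2 v h.1).2 (by
      rw [show f v = 0 from h.2]; exact zero_mem _), h.1⟩, h.2⟩⟩
  rw [fr_map f hZ, fr_map f (fr_fg hZ (inf_le_right : B ⊓ Z ≤ Z)), h1, e1, e2]
  push_cast
  ring

theorem fr_sup {G : Type} [AddCommGroup G] {S T : AddSubgroup G} (hS : S.FG) (hT : T.FG) :
    (Module.finrank ℤ ↥(S ⊔ T) : ℚ) - Module.finrank ℤ S =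
      Module.finrank ℤ T - Module.finrank ℤ ↥(S ⊓ T) := by
  have hST : (S ⊔ T).FG := hS.sup hT
  have h1 := fr_rel (QuotientAddGroup.mk' S) (B := S) (B' := ⊥) hST rfl fun v _ => by simp
  have h2 := fr_rel (QuotientAddGroup.mk' S) (B := S) (B' := ⊥) hT rfl fun v _ => by simp
  rw [inf_eq_left.2 le_sup_left, AddSubgroup.map_sup, QuotientAddGroup.map_mk'_self,
    bot_sup_eq] at h1
  rw [h1, h2]

variable {A : Type} [CommRing A] [IsDomain A] {𝒜 : ℕ → AddSubgroup A} [GradedRing 𝒜]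
  [hG : Fact (Gen 𝒜)] {p : ℕ} [Fact p.Prime]

variable (𝒜) in
/-- inclusion in large degrees -/
def Ev (J J' : Ideal A) : Prop := ∀ᶠ n in atTop, ∀ a ∈ 𝒜 n, a ∈ J → a ∈ J'

theorem ev_of_loc {J J' : Ideal A} (h : ∀ n, ∀ a ∈ 𝒜 n, a ∈ J → ∀ y : Pt 𝒜,
    ∃ m, ∃ b ∈ 𝒜 m, b ∉ pr y ∧ b * a ∈ J') : Ev 𝒜 J J' := by
  filter_upwards [snc_fam_le (MX 𝒜) J J' h] with n hn a ha h1
  obtain ⟨c, h2, -, e⟩ := (MX 𝒜).mem_fam.1 (hn ((MX 𝒜).mem_fam.2 ⟨a, h1, ha, rfl⟩))
  rwa [← IsFractionRing.injective A (FractionRing A) e]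

omit hG in
theorem ev_of_le {J J' : Ideal A} (h : J ≤ J') : Ev 𝒜 J J' :=
  Eventually.of_forall fun _ _ _ h1 => h h1

omit hG in
theorem Ev.inf_eq {J J' : Ideal A} (h : Ev 𝒜 J J') (h' : Ev 𝒜 J' J) :
    ∀ᶠ n in atTop, J.toAddSubgroup ⊓ 𝒜 n = J'.toAddSubgroup ⊓ 𝒜 n := by
  filter_upwards [h, h'] with n h1 h2
  ext a
  exact ⟨fun k => ⟨h1 a k.2 k.1, k.2⟩, fun k => ⟨h2 a k.2 k.1, k.2⟩⟩

variable (𝒜) in
/-- the order of the degree `n` part of `A ⧸ J` -/
def idx (J : Ideal A) (n : ℕ) : ℕ := J.toAddSubgroup.relIndex (𝒜 n)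

omit hG in
theorem Ev.idx_eq {J J' : Ideal A} (h : Ev 𝒜 J J') (h' : Ev 𝒜 J' J) :
    ∀ᶠ n in atTop, idx 𝒜 J n = idx 𝒜 J' n := by
  filter_upwards [h.inf_eq h'] with n hn
  rw [idx, idx, ← AddSubgroup.inf_relIndex_right, hn, AddSubgroup.inf_relIndex_right]

omit hG in
theorem Ev.rk_eq {J J' : Ideal A} (h : Ev 𝒜 J J') (h' : Ev 𝒜 J' J) :
    ∀ᶠ n in atTop, rk 𝒜 J n = rk 𝒜 J' n := by
  filter_upwards [h.inf_eq h'] with n hn
  rw [rk, rk, hn]

omit hG in
theorem idx_sup {J : Ideal A} (hJ : J.IsHomogeneous 𝒜) {f : A} {e n : ℕ} (hf : f ∈ 𝒜 e)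
    (hn : e ≤ n) : (J ⊔ Ideal.span {f}).toAddSubgroup ⊓ 𝒜 n =
      (J.toAddSubgroup ⊓ 𝒜 n) ⊔ (𝒜 (n - e)).map (AddMonoidHom.mulRight f) := by
  have h1 : ∀ x ∈ 𝒜 (n - e), x * f ∈ 𝒜 n := fun x hx => by
    have := SetLike.mul_mem_graded hx hf
    rwa [Nat.sub_add_cancel hn] at this
  refine le_antisymm (fun z hz => ?_) (sup_le (inf_le_inf_right _ fun z hz =>
    Ideal.mem_sup_left hz) ?_)
  · obtain ⟨x, -, h2, h3⟩ := step_split hJ (Ideal.IsHomogeneous.top 𝒜) hf hn hz.2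
      (by rw [Ideal.top_mul]; exact hz.1)
    exact AddSubgroup.mem_sup.2 ⟨_, ⟨h3, (𝒜 n).sub_mem hz.2 (h1 x h2)⟩, _, ⟨x, h2, rfl⟩,
      sub_add_cancel _ _⟩
  · rintro _ ⟨x, hx, rfl⟩
    exact ⟨Ideal.mem_sup_right (Ideal.mul_mem_left _ _ (Ideal.mem_span_singleton_self f)), h1 x hx⟩

omit hG in
theorem idx_step {J : Ideal A} (hJ : J.IsHomogeneous 𝒜) {f : A} {e n : ℕ} (hf : f ∈ 𝒜 e)
    (hn : e ≤ n) :
    idx 𝒜 J n = idx 𝒜 (J.colon {f}) (n - e) * idx 𝒜 (J ⊔ Ideal.span {f}) n := by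
  have h1 := AddSubgroup.relIndex_mul_relIndex (J.toAddSubgroup ⊓ 𝒜 n)
    ((J ⊔ Ideal.span {f}).toAddSubgroup ⊓ 𝒜 n) (𝒜 n)
    (inf_le_inf_right _ fun z hz => Ideal.mem_sup_left hz) inf_le_right
  rw [AddSubgroup.inf_relIndex_right, AddSubgroup.inf_relIndex_right, idx_sup hJ hf hn,
    AddSubgroup.relIndex_sup_left] at h1
  rw [idx, ← h1, idx, idx]
  congr 1
  refine (tor_rel (AddMonoidHom.mulRight f) rfl fun v hv => ?_).symm
  have := SetLike.mul_mem_graded hv hf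
  rw [Nat.sub_add_cancel hn] at this
  exact ⟨fun h => ⟨Submodule.mem_colon_singleton.1 h, this⟩,
    fun h => Submodule.mem_colon_singleton.2 h.1⟩

theorem rk_step {J : Ideal A} (hJ : J.IsHomogeneous 𝒜) {f : A} {e n : ℕ} (hf : f ∈ 𝒜 e)
    (hn : e ≤ n) :
    rk 𝒜 J n = rk 𝒜 (J.colon {f}) (n - e) + rk 𝒜 (J ⊔ Ideal.span {f}) n := by
  have h1 := fr_sup (fr_fg (piece_fg n) (inf_le_right : J.toAddSubgroup ⊓ 𝒜 n ≤ _))
    (fr_fg_map (AddMonoidHom.mulRight f) (piece_fg (𝒜 := 𝒜) (n - e)))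
  have h2 := fr_rel (AddMonoidHom.mulRight f) (B := (J.colon {f}).toAddSubgroup)
    (B' := J.toAddSubgroup ⊓ 𝒜 n) (piece_fg (𝒜 := 𝒜) (n - e)) rfl fun v hv => by
      have := SetLike.mul_mem_graded hv hf
      rw [Nat.sub_add_cancel hn] at this
      exact ⟨fun h => ⟨Submodule.mem_colon_singleton.1 h, this⟩,
        fun h => Submodule.mem_colon_singleton.2 h.1⟩
  rw [rk, rk, rk, idx_sup hJ hf hn, h2]
  linarith

theorem rk_zero [CharZero A] {J : Ideal A} {n r : ℕ} (hr : r ≠ 0)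
    (h : ∀ a ∈ 𝒜 n, (r : A) * a ∈ J) : rk 𝒜 J n = 0 := by
  have fin : ∀ S : AddSubgroup A, S ≤ 𝒜 n → Module.Finite ℤ S := fun S hS =>
    Module.Finite.iff_addGroup_fg.2 ((AddGroup.fg_iff_addSubgroup_fg S).2 (fr_fg (piece_fg n) hS))
  have := fin _ le_rfl
  have := fin (J.toAddSubgroup ⊓ 𝒜 n) inf_le_right
  rw [rk, sub_eq_zero, Nat.cast_inj]
  refine le_antisymm ?_ ?_
  · refine LinearMap.finrank_le_finrank_of_injective (f := AddMonoidHom.toIntLinearMap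
      { toFun := fun a => ⟨r * a.1, h _ a.2, by
          rw [← nsmul_eq_mul]; exact AddSubgroup.nsmul_mem _ a.2 r⟩
        map_zero' := Subtype.ext (mul_zero _)
        map_add' := fun a b => Subtype.ext (mul_add _ _ _) }) fun a b e => ?_
    exact Subtype.ext (mul_left_cancel₀ (Nat.cast_ne_zero.2 hr) (congrArg Subtype.val e))
  · exact LinearMap.finrank_le_finrank_of_injective
      (f := (AddSubgroup.inclusion (inf_le_right : J.toAddSubgroup ⊓ 𝒜 n ≤ _)).toIntLinearMap)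
      (AddSubgroup.inclusion_injective (inf_le_right : J.toAddSubgroup ⊓ 𝒜 n ≤ _))

theorem rk_filt [CharZero A] {𝔞 : Ideal A} {l : List (Ideal A × ℕ)} (h : Filt 𝒜 𝔞 l)
    (hh : 𝔞.IsHomogeneous 𝒜) :
    ∀ᶠ n in atTop, rk 𝒜 𝔞 n = (l.map fun q => rk 𝒜 q.1 (n - q.2)).sum := by
  induction h with
  | top => exact Eventually.of_forall fun n => rk_zero one_ne_zero fun _ _ => trivial
  | step 𝔞 f a l hf hp _ ih =>
    filter_upwards [ih (hh.sup (md_span_hom hf)), eventually_ge_atTop a] with n h1 h2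
    rw [rk_step hh hf h2, h1, List.map_cons, List.sum_cons]

/-- the forms of degree `n` in the residue field -/
def La (x : Pt 𝒜) (n : ℕ) : AddSubgroup (kap x) := (𝒜 n).map (th x).toAddMonoidHom

theorem La_fg (x : Pt 𝒜) (n : ℕ) : (La x n).FG := fr_fg_map _ (piece_fg n)

/-- the lattice of forms of degree `n` spans the residue field of a closed point -/
theorem pt_span {x : Pt 𝒜} (hx : CharZero (kap x)) (h : tr x = 0) :
    ∀ᶠ n in atTop, span ℚ (La x n : Set (kap x)) = ⊤ := by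
  classical
  have alg : Algebra.IsAlgebraic ℚ (kap x) := alg_of_tz ((tr_int hx).trans h)
  have key : ∀ R : Subalgebra ℚ (kap x), (∀ n, ∀ a ∈ 𝒜 n, th x a ∈ R) → R = ⊤ := fun R hR => by
    refine top_le_iff.1 fun z _ => ?_
    obtain ⟨n, a, ha, b, hb, -, rfl⟩ := th_gen x z
    rw [div_eq_mul_inv]
    exact mul_mem (hR n a ha) (R.inv_mem_of_algebraic (x := ⟨_, hR n b hb⟩) (alg.1 _))
  have fin : Module.Finite ℚ (kap x) := by
    obtain ⟨s, -, hs⟩ := hG.out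
    have h1 := Algebra.finite_adjoin_of_finite_of_isIntegral (R := ℚ)
      (s.finite_toSet.image (th x)) fun z _ => (alg.1 z).isIntegral
    rw [key (Algebra.adjoin ℚ (th x '' s)) fun n a _ => ?_] at h1
    · exact Module.Finite.equiv Subalgebra.topEquiv.toLinearEquiv
    · have : a ∈ Subring.closure (s : Set A) := hs ▸ trivial
      exact (Subring.closure_le (t := (Algebra.adjoin ℚ (th x '' s)).toSubring.comap (th x))).2
        (fun b hb => Algebra.subset_adjoin ⟨b, hb, rfl⟩) this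
  let W : ℕ →o Submodule ℚ (kap x) := ⟨fun n => span ℚ (La x n : Set (kap x)),
    monotone_nat_of_le_succ fun n => span_mono fun z hz => by
      obtain ⟨a, ha, rfl⟩ := hz
      exact ⟨a * ell x, SetLike.mul_mem_graded ha (ell_spec x).1, by
        change th x _ = th x _
        rw [map_mul, th_ell, mul_one]⟩⟩
  obtain ⟨n₀, h0⟩ := monotone_stabilizes_iff_noetherian.2 inferInstance W
  have hW : ∀ n, W n ≤ W n₀ := fun n => (W.monotone (le_max_left n n₀)).trans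
    (h0 _ (le_max_right n n₀)).ge
  have hth : ∀ n, ∀ a ∈ 𝒜 n, th x a ∈ W n₀ := fun n a ha => hW n (subset_span ⟨a, ha, rfl⟩)
  have hmul : W n₀ * W n₀ ≤ W n₀ := by
    refine (span_mul_span ℚ _ _).le.trans (span_le.2 ?_)
    rintro _ ⟨_, ⟨a, ha, rfl⟩, _, ⟨b, hb, rfl⟩, rfl⟩
    have := hth _ _ (SetLike.mul_mem_graded ha hb)
    rwa [map_mul] at this
  have h1 := key ((W n₀).toSubalgebra (by simpa using hth 0 1 (SetLike.one_mem_graded 𝒜))
    fun z w hz hw => hmul (mul_mem_mul hz hw)) hth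
  filter_upwards [eventually_ge_atTop n₀] with n hn
  refine top_le_iff.1 fun z _ => W.monotone hn ?_
  exact (h1.ge trivial : z ∈ (W n₀).toSubalgebra _ _)

omit hG in
theorem dg_eq {x : Pt 𝒜} (hx : CharZero (kap x)) : dg x = Module.finrank ℚ (kap x) := by
  let f : ℚ →+* (⊥ : Subfield (kap x)) := algebraMap ℚ _
  have hf : Function.Bijective f := ⟨f.injective, fun z => by
    obtain ⟨c, hc⟩ : z.1 ∈ (algebraMap ℚ (kap x)).fieldRange :=
      Subfield.bot_eq_of_charZero (K := kap x) ▸ z.2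
    exact ⟨c, Subtype.ext (by rw [← hc]; simp [f])⟩⟩
  exact (Algebra.finrank_eq_of_equiv_equiv (RingEquiv.ofBijective f hf) (RingEquiv.refl _)
    (Subsingleton.elim _ _)).symm

theorem rk_pt {x : Pt 𝒜} (hx : CharZero (kap x)) (h : tr x = 0) :
    ∀ᶠ n in atTop, rk 𝒜 (pr x) n = dg x := by
  filter_upwards [pt_span hx h] with n hn
  have h1 := fr_rel (th x).toAddMonoidHom (B := (pr x).toAddSubgroup) (B' := ⊥)
    (Z' := La x n) (piece_fg (𝒜 := 𝒜) n) rfl fun v hv => (th_eq_zero x hv).symm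
  have : Module.finrank ℤ (⊥ : AddSubgroup (kap x)) = 0 := Module.finrank_zero_of_subsingleton
  rw [rk, h1, bot_inf_eq, dg_eq hx, fr_span (La_fg x n) hn, this, Nat.cast_zero, sub_zero]

end

end Pool.Agent.Lib.MP_62d77c_ag
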