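import Pool.Agent.Lib.MP_62d77c_ag.Tor

/-! The intersection number with a component of a fibre. -/

set_option autoImplicit false

namespace Pool.Agent.Lib.MP_62d77c_ag

open Filter Polynomial Submodule

noncomputable section

variable {A : Type} [CommRing A] [IsDomain A] {𝒜 : ℕ → AddSubgroup A} [GradedRing 𝒜]
  [hG : Fact (Gen 𝒜)] {p : ℕ} [Fact p.Prime]

theorem resol_cyc {I : Ideal A} (R : Resol 𝒜 I) (J : Ideal A) (q : ℕ) :
    LinearMap.range (R.D q) ⊔ J • ⊤ ≤ R.cyc J q := by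
  refine sup_le ?_ ?_
  · rintro _ ⟨v, rfl⟩
    cases q with
    | zero =>
      show R.ε _ ∈ J
      rw [R.exact0.apply_apply_eq_zero]; exact zero_mem _
    | succ q =>
      show R.D q _ ∈ (J • ⊤ : Submodule A (Fin (R.b q) → A))
      rw [(R.exact q).apply_apply_eq_zero]; exact zero_mem _
  · refine Submodule.smul_le.2 fun r hr v _ => ?_
    cases q with
    | zero =>
      show R.ε _ ∈ J
      rw [map_smul]; exact Ideal.mul_mem_right _ _ hr
    | succ q =>
      show R.D q _ ∈ (J • ⊤ : Submodule A (Fin (R.b q) → A))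
      rw [map_smul]; exact Submodule.smul_mem_smul hr trivial

theorem resol_log (j : Vp 𝒜 p) {I : Ideal A} (R : Resol 𝒜 I) (q : ℕ) :
    ∀ᶠ n : ℕ in atTop, Real.log (R.tor (pr j.1) n (q + 1)) =
      ((hq (Mp j).V (lat j (R.a q) (R.cyc (pr j.1) q)) 1 -
        hq (Mp j).V (lat j (R.a q) (LinearMap.range (R.D q) ⊔ pr j.1 • ⊤)) 1).eval (n : ℚ) : ℚ) *
        Real.log p :=
  tor_log_lat j (R.a q) (resol_cyc R (pr j.1) q) fun _ hc =>
    Submodule.mem_sup_right (tor_mem_smul.2 hc)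

theorem resol_lat (j : Vp 𝒜 p) {I : Ideal A} (R : Resol 𝒜 I) :
    lat j (R.a 0) (LinearMap.range (R.D 0) ⊔ pr j.1 • ⊤) = lat j (R.a 0) (LinearMap.ker R.ε) := by
  obtain ⟨φ, hφ⟩ := tor_phi j (R.D 0)
  have h1 := tor_lat_range (R.homD 0) hφ (Z := ⊥) (fun n c hc => by
    rw [(Submodule.mem_bot _).1 hc, map_zero]; exact zero_mem _)
  rw [sup_bot_eq, ← LinearMap.exact_iff.1 R.exact0] at h1
  rw [h1, tor_lat_range (R.homD 0) hφ (torH_smul (pr_hom j.1))]
  funext n
  rw [tor_lat_bot (Z := ⊥) fun c hc i => by rw [(Submodule.mem_bot _).1 hc]; exact zero_mem _,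
    tor_lat_bot fun c hc => tor_mem_smul.1 hc]

theorem tor_comp {j : Vp 𝒜 p} {C : Pic (Mp j).V} (h : Cls j C) (W : Pt 𝒜) (R : Resol 𝒜 (pr W))
    {Q : ℕ} (hQ : 2 ≤ Q) : ∀ᶠ n : ℕ in atTop,
    ∑ q ∈ Finset.range Q, (-1) ^ q * Real.log (R.tor (pr j.1) n q) =
      ((PV j C (pr W) 1).eval (n : ℚ) : ℚ) * Real.log p := by
  induction Q, hQ using Nat.le_induction with
  | succ Q hQ ih =>
    obtain ⟨q, rfl⟩ : ∃ q, Q = q + 2 := ⟨Q - 2, by omega⟩
    have e : lat j (R.a (q + 1)) (R.cyc (pr j.1) (q + 1)) =ᶠ[atTop]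
        lat j (R.a (q + 1)) (LinearMap.range (R.D (q + 1)) ⊔ pr j.1 • ⊤) := by
      filter_upwards [tor_exact h.lp (R.homD q) (R.exact q) (tor_sat R q)] with n hn
      exact le_antisymm hn (step_lat_mono _ (resol_cyc R _ _) n)
    filter_upwards [ih, resol_log j R (q + 1)] with n h1 h2
    rw [hq_congr e, sub_self] at h2
    rw [Finset.sum_range_succ, h1, h2]
    simp
  | base =>
    filter_upwards [tor_log_fam j (le_sup_right : pr j.1 ≤ pr W ⊔ pr j.1), resol_log j R 0]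
      with n h0 h1
    have h0' : Real.log (R.tor (pr j.1) n 0) = _ := h0
    rw [Finset.sum_range_succ, Finset.sum_range_one, h0', h1, resol_lat,
      ← TT_prime h R.homε W.isPrime R.range, TT, R.range, Phi_sup j (pr_hom W)]
    simp only [eval_sub]
    push_cast
    simp only [Resol.cyc]
    ring

theorem isInt_comp {j : Vp 𝒜 p} {C : Pic (Mp j).V} (h : Cls j C) (W : Pt 𝒜)
    (hL : Lev 1 (PV j C (pr W))) (d : ℕ) :
    IsInt d W j.1 (((PV j C (pr W) 1).coeff 0 : ℚ) * Real.log p) := by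
  refine ⟨exists_resol (pr_hom W), fun R => ?_⟩
  filter_upwards [tor_comp h W R (Q := d + 2) (by omega)] with n hn
  rw [hn, eq_C_of_mem_degreeLT_one (hL.mem 1), eval_C, coeff_C_zero]

end

end Pool.Agent.Lib.MP_62d77c_ag
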