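import Pool.Agent.Lib.MP_62d77c_ag.End.Idx

/-! The restriction of a locally principal ideal to a fibral subvariety. -/

set_option autoImplicit false

namespace Pool.Agent.Lib.MP_62d77c_ag

open Filter Polynomial Submodule

noncomputable section

variable {A : Type} [CommRing A] [IsDomain A] {𝒜 : ℕ → AddSubgroup A} [GradedRing 𝒜]
  [hG : Fact (Gen 𝒜)] {p : ℕ} [Fact p.Prime]

/-- the restriction of the locally principal ideal `I` to `j`, embedded in its function field -/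
structure Kap (j : Vp 𝒜 p) (I : Ideal A) (C : Pic (Mp j).V) where
  κ : ℕ → A → kap j.1
  add : ∀ n, ∀ s ∈ I, ∀ t ∈ I, s ∈ 𝒜 n → t ∈ 𝒜 n → κ n (s + t) = κ n s + κ n t
  mul : ∀ l n, ∀ a ∈ 𝒜 l, ∀ s ∈ I, s ∈ 𝒜 n → κ (l + n) (a * s) = th j.1 a * κ n s
  cls : ∃ D : Car (Mp j).V, cl D = C ∧
    IsCl D fun n => span (ZMod p) (κ n '' {s | s ∈ I ∧ s ∈ 𝒜 n})
  lp : (MX 𝒜).LP I
  hom : I.IsHomogeneous 𝒜

theorem exists_kap (j : Vp 𝒜 p) {I : Ideal A} (hI : I.IsHomogeneous 𝒜) (hlp : (MX 𝒜).LP I)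
    {D : Car (MX 𝒜).V} (hD : IsCl D ((MX 𝒜).fam I)) :
    Nonempty (Kap j I ((MX 𝒜).rho j (cl D))) := by
  have hon := on_MX j.1
  obtain ⟨e, g, hg⟩ := hlp j.1 hon
  set S := (MX 𝒜).sp j hon with hS
  have hθ : ∀ a : A, a ≠ 0 → (MX 𝒜).θ a ≠ 0 := fun a ha h =>
    ha ((FaithfulSMul.algebraMap_eq_zero_iff A (FractionRing A)).1 h)
  have hne : ∀ a : A, a ∉ pr j.1 → (MX 𝒜).θ a ≠ 0 := fun a ha =>
    hθ a fun h => ha (h ▸ zero_mem _)
  have hs0 : (MX 𝒜).θ (ell j.1) ≠ 0 := hne _ (ell_spec j.1).2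
  have hg0 : (MX 𝒜).θ g ≠ 0 := hg.2.2.1
  let u : ℕ → FractionRing A := fun n =>
    (MX 𝒜).θ g * (MX 𝒜).θ (ell j.1) ^ n / (MX 𝒜).θ (ell j.1) ^ e
  have hO : ∀ n, ∀ a ∈ 𝒜 n, ∀ b ∈ 𝒜 n, b ∉ pr j.1 → (MX 𝒜).θ a / (MX 𝒜).θ b ∈ S.O := by
    intro n a ha b hb h
    rw [hS, (MX 𝒜).sp_O]
    exact (MX 𝒜).div_mem_fr ha hb h
  have hmem : ∀ n, ∀ s ∈ I, s ∈ 𝒜 n → (MX 𝒜).θ s / u n ∈ S.O := by
    intro n s hs hn
    obtain ⟨m, l, b, hb, c, hc, h1, h2, h3⟩ := hg.2.2.2 n s hs hn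
    have hb0 := hne b h1
    have h4 := hO (m + n) (c * ell j.1 ^ e)
      (h2 ▸ SetLike.mul_mem_graded hc (step_ell_pow j.1 e).1) (b * ell j.1 ^ n)
      (SetLike.mul_mem_graded hb (step_ell_pow j.1 n).1) (step_mul_not h1 (step_ell_pow j.1 n).2)
    convert h4 using 1
    simp only [map_mul, map_pow, u] at h3 ⊢
    field_simp
    linear_combination h3
  have hmem' : ∀ n, ∀ w ∈ (MX 𝒜).fam I n, w / u n ∈ S.O := by
    intro n w hw
    obtain ⟨s, hs, hn, rfl⟩ := (MX 𝒜).mem_fam.1 hw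
    exact hmem n s hs hn
  have hfam : (fun n => span (ZMod p) ((fun s => S.ev ((MX 𝒜).θ s / u n)) ''
      {s | s ∈ I ∧ s ∈ 𝒜 n})) = fun n => S.img ((MX 𝒜).fam I n) (u n) := by
    funext n
    rw [Spec.img]
    congr 1
    ext z
    constructor
    · rintro ⟨s, ⟨h1, h2⟩, rfl⟩
      exact ⟨_, (MX 𝒜).mem_fam.2 ⟨s, h1, h2, rfl⟩, rfl⟩
    · rintro ⟨w, hw, rfl⟩
      obtain ⟨s, hs, hn, rfl⟩ := (MX 𝒜).mem_fam.1 hw
      exact ⟨s, ⟨hs, hn⟩, rfl⟩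
  have hov := (MX 𝒜).sp_over j hon
  have hfg : Fg (Mp j).V fun n => S.img ((MX 𝒜).fam I n) (u n) := by
    filter_upwards [(MX 𝒜).fg_fam I] with n hn
    refine ⟨S.img_fg hn.1 (hmem' n), ?_⟩
    have : u (n + 1) = (MX 𝒜).θ (ell j.1) * u n := by simp only [u]; ring
    rw [hn.2, this, smul_eq_mul, S.img_mul hov.1.2.1 (hmem' n), hov.2, smul_eq_mul]
  have htriv : ∀ᶠ n in atTop, S.Triv ((MX 𝒜).fam I n) (u n) := by
    filter_upwards [eventually_ge_atTop e] with n hn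
    obtain ⟨d, rfl⟩ := Nat.exists_eq_add_of_le hn
    refine ⟨by simp [u, hs0, hg0], hmem' _, (MX 𝒜).θ (g * ell j.1 ^ d),
      (MX 𝒜).mem_fam.2 ⟨_, Ideal.mul_mem_right _ _ hg.1,
        SetLike.mul_mem_graded hg.2.1 (step_ell_pow j.1 d).1, rfl⟩, ?_⟩
    have : (MX 𝒜).θ (g * ell j.1 ^ d) / u (e + d) = 1 := by
      simp only [map_mul, map_pow, u]
      field_simp
      ring
    rw [this, S.ev_one]
    exact one_ne_zero
  have hrep : ∀ᶠ n in atTop, ∃ D' : Car (Mp j).V,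
      Rep D' (S.img ((MX 𝒜).fam I n) (u n)) n ∧ hov.rho (cl D) = cl D' := by
    filter_upwards [htriv, hD.rep ((MX 𝒜).mdl hon)] with n h1 h2
    exact hov.rho_spec h2 h1
  obtain ⟨D₀, hD₀⟩ := exists_isCl (mdl_Mp j) hfg (hrep.mono fun n h => by
    obtain ⟨D', h, -⟩ := h
    exact h.exists_inv).frequently
  obtain ⟨n, ⟨D', h1, h2⟩, h3⟩ := (hrep.and (hD₀.rep (mdl_Mp j))).exists
  refine ⟨⟨fun n s => S.ev ((MX 𝒜).θ s / u n), ?_, ?_, ⟨D₀, ?_, hfam ▸ hD₀⟩, hlp, hI⟩⟩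
  · intro n s hs t ht h1 h2
    rw [map_add, add_div, S.ev_add (hmem n s hs h1) (hmem n t ht h2)]
  · intro l n a ha s hs h1
    have h4 := step_ell_pow j.1 l
    have : (MX 𝒜).θ (a * s) / u (l + n) =
        (MX 𝒜).θ a / (MX 𝒜).θ (ell j.1 ^ l) * ((MX 𝒜).θ s / u n) := by
      simp only [map_mul, map_pow, u]
      field_simp
      ring
    rw [this, S.ev_mul (hO l a ha _ h4.1 h4.2) (hmem n s hs h1), hS,
      (MX 𝒜).sp_ev j hon ha h4.1 h4.2, map_pow, th_ell, one_pow, div_one]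
  · rw [AM.rho, dif_pos hon, h3.unique h1]
    exact h2.symm

variable {j : Vp 𝒜 p} {I : Ideal A} {C : Pic (Mp j).V}

theorem Kap.step_zero (h : Kap j I C) (n : ℕ) : h.κ n 0 = 0 := by
  have := h.add n 0 (zero_mem _) 0 (zero_mem _) (zero_mem _) (zero_mem _)
  rw [add_zero] at this
  exact left_eq_add.1 this

theorem Kap.step_sub (h : Kap j I C) {n : ℕ} {s t : A} (hs : s ∈ I) (ht : t ∈ I)
    (h1 : s ∈ 𝒜 n) (h2 : t ∈ 𝒜 n) : h.κ n (s - t) = h.κ n s - h.κ n t := by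
  have := h.add n (s - t) (sub_mem hs ht) t ht (sub_mem h1 h2) h2
  rw [sub_add_cancel] at this
  rw [this, add_sub_cancel_right]

/-- the image of a subideal in the conormal bundle -/
def Kap.stepKf (h : Kap j I C) (J : Ideal A) (n : ℕ) : Submodule (ZMod p) (kap j.1) :=
  span (ZMod p) (h.κ n '' {s | s ∈ J ∧ s ∈ 𝒜 n})

theorem Kap.step_mem_kf (h : Kap j I C) {J : Ideal A} (hJ : J ≤ I) {n : ℕ} {z : kap j.1} :
    z ∈ h.stepKf J n ↔ ∃ s ∈ J, s ∈ 𝒜 n ∧ h.κ n s = z := by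
  rw [Kap.stepKf, step_mem_span]
  · constructor
    · rintro ⟨c, ⟨h1, h2⟩, h3⟩; exact ⟨c, h1, h2, h3⟩
    · rintro ⟨c, h1, h2, h3⟩; exact ⟨c, ⟨h1, h2⟩, h3⟩
  · exact ⟨0, ⟨zero_mem _, zero_mem _⟩, h.step_zero n⟩
  · rintro _ ⟨c, ⟨h1, h2⟩, rfl⟩ _ ⟨d, ⟨h3, h4⟩, rfl⟩
    exact ⟨c + d, ⟨add_mem h1 h3, add_mem h2 h4⟩, h.add n c (hJ h1) d (hJ h3) h2 h4⟩

theorem Kap.step_smul_kf (h : Kap j I C) {J : Ideal A} (hJ : J ≤ I) {n l : ℕ} {z : kap j.1}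
    (hz : z ∈ h.stepKf J n) {x : A} (hx : x ∈ 𝒜 l) : th j.1 x • z ∈ h.stepKf J (l + n) := by
  obtain ⟨s, h1, h2, rfl⟩ := (h.step_mem_kf hJ).1 hz
  exact (h.step_mem_kf hJ).2 ⟨x * s, J.mul_mem_left x h1, SetLike.mul_mem_graded hx h2,
    h.mul l n x hx s (hJ h1) h2⟩

theorem Kap.step_fg_kf (h : Kap j I C) {J : Ideal A} (hJ : J ≤ I) :
    Fg (Mp j).V (h.stepKf J) := by
  obtain ⟨D, -, hD⟩ := h.cls
  refine Fg.of_le (Mp j).V_fg (hD.fg (mdl_Mp j)) (step_fam (Eventually.of_forall fun n v hv x hx =>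
    add_comm 1 n ▸ h.step_smul_kf hJ hv hx)) (Eventually.of_forall fun n => ?_)
  exact span_mono (Set.image_mono fun s hs => ⟨hJ hs.1, hs.2⟩)

theorem Kap.step_ne (h : Kap j I C) {y : Pt 𝒜} (hy : pr j.1 ≤ pr y) {e : ℕ} {g : A}
    (hg : (MX 𝒜).GenI I y e g) : h.κ e g ≠ 0 := by
  intro h0
  obtain ⟨D, -, hD⟩ := h.cls
  obtain ⟨n, hn⟩ := (hD.rep (mdl_Mp j)).exists
  refine hn.ne_bot (mdl_Mp j) (span_eq_bot.2 ?_)
  rintro _ ⟨s, ⟨h1, h2⟩, rfl⟩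
  obtain ⟨m, l, b, hb, c, hc, h3, h4, h5⟩ := step_gen hg h1 h2
  have e1 := h.mul m n b hb s h1 h2
  rw [h5, h4, h.mul l e c hc g hg.1 hg.2.1, h0, mul_zero] at e1
  exact (mul_eq_zero.1 e1.symm).resolve_left fun hb0 => h3 (hy ((th_eq_zero j.1 hb).1 hb0))

theorem Kap.step_ker (h : Kap j I C) {y : Pt 𝒜} (hy : pr j.1 ≤ pr y) {n : ℕ} {s : A}
    (hs : s ∈ I) (hn : s ∈ 𝒜 n) (h0 : h.κ n s = 0) :
    ∃ m, ∃ b ∈ 𝒜 m, b ∉ pr y ∧ b * s ∈ pr j.1 * I := by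
  obtain ⟨e, g, hg⟩ := h.lp y (on_MX y)
  obtain ⟨m, l, b, hb, c, hc, h3, h4, h5⟩ := step_gen hg hs hn
  have e1 := h.mul m n b hb s hs hn
  rw [h5, h4, h.mul l e c hc g hg.1 hg.2.1, h0, mul_zero] at e1
  exact ⟨m, b, hb, h3, h5 ▸ Ideal.mul_mem_mul
    ((th_eq_zero j.1 hc).1 ((mul_eq_zero.1 e1).resolve_right (h.step_ne hy hg))) hg.1⟩

theorem Kap.step_hq_top (h : Kap j I C) (D : Pic (Mp j).V) :
    hq (Mp j).V (h.stepKf I) D = PP (Mp j).V (D * C) := by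
  obtain ⟨D₀, e, hD⟩ := h.cls
  subst e
  exact hD.hq_eq (mdl_Mp j) D

theorem Kap.step_hq_mul (h : Kap j I C) {𝔮 : Ideal A} (hq' : 𝔮.IsHomogeneous 𝒜) (D : Pic (Mp j).V) :
    hq (Mp j).V (h.stepKf (𝔮 * I)) D = hq (Mp j).V ((Mp j).fam 𝔮) (D * C) := by
  obtain ⟨D₀, e, hD⟩ := h.cls
  have hD' : IsCl D₀ (h.stepKf I) := hD
  have hle : 𝔮 * I ≤ I := Ideal.mul_le_right
  subst e
  rw [← hq_tw (mdl_Mp j) ((Mp j).fg_fam 𝔮)]
  obtain ⟨e₀, h1, h2⟩ := ((hD'.rep (mdl_Mp j)).and (hD'.fg (mdl_Mp j)).pow_smul).exists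
  have h3 := tw_rep ((Mp j).fg_fam 𝔮) h1
  have h4 : Fg (Mp j).V fun n => h.stepKf I e₀ • (Mp j).fam 𝔮 (n - e₀) :=
    (((Mp j).fg_fam 𝔮).tw (mdl_Mp j) D₀).congr h3
  refine congrFun (hq_congr (EventuallyEq.trans ?_ h3.symm)) D
  refine EventuallyLE.antisymm ?_ ?_
  · refine Fg.le_of_mem (Mp j).V_fg (h.step_fg_kf hle) h4.fam (Eventually.of_forall fun n w hw => ?_)
    obtain ⟨x, hx, hn, rfl⟩ := (h.step_mem_kf hle).1 hw
    refine ⟨e₀, fun v hv => ?_⟩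
    obtain ⟨a, ha, rfl⟩ := (Mp j).mem_pow.1 hv
    rw [Nat.add_sub_cancel]
    refine step_mul_ind (P := fun x => (Mp j).θ a • h.κ n x ∈
      h.stepKf I e₀ • (Mp j).fam 𝔮 n) hq' h.hom ?_ ?_ ?_ hx hn
    · simp [h.step_zero]
    · intro x hx y hy h5 h6 h7 h8
      rw [h.add n x (hle hx) y (hle hy) h5 h6, smul_add]
      exact add_mem h7 h8
    · rintro l m rfl q hq s hs h5 h6
      have h7 : th j.1 a • h.κ m s ∈ h.stepKf I (e₀ + m) :=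
        h.step_smul_kf le_rfl ((h.step_mem_kf le_rfl).2 ⟨s, hs, h6, rfl⟩) ha
      rw [h2 m] at h7
      have h8 : (Mp j).θ a • h.κ (l + m) (q * s) = th j.1 q * (th j.1 a • h.κ m s) := by
        rw [h.mul l m q h5 s hs h6]
        change th j.1 a * _ = _
        rw [smul_eq_mul]; ring
      rw [h8]
      refine Submodule.smul_induction_on (p := fun z => th j.1 q * z ∈
        h.stepKf I e₀ • (Mp j).fam 𝔮 (l + m)) h7 ?_ ?_
      · intro v hv z hz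
        obtain ⟨b, hb, rfl⟩ := (Mp j).mem_pow.1 hv
        have : th j.1 q * ((Mp j).θ b • z) = z • (Mp j).θ (q * b) := by
          change th j.1 q * (th j.1 b * z) = z * th j.1 (q * b)
          rw [map_mul]; ring
        rw [this]
        exact smul_mem_smul hz ((Mp j).mem_fam.2 ⟨q * b, 𝔮.mul_mem_right b hq,
          SetLike.mul_mem_graded h5 hb, rfl⟩)
      · intro x y h9 h10
        rw [mul_add]; exact add_mem h9 h10
  · filter_upwards [eventually_ge_atTop e₀] with n hn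
    refine Submodule.smul_le.2 fun z hz w hw => ?_
    obtain ⟨s, hs, h5, rfl⟩ := (h.step_mem_kf le_rfl).1 hz
    obtain ⟨q, hq, h6, rfl⟩ := (Mp j).mem_fam.1 hw
    refine (h.step_mem_kf hle).2 ⟨q * s, Ideal.mul_mem_mul hq hs, ?_, ?_⟩
    · have := SetLike.mul_mem_graded h6 h5
      rwa [Nat.sub_add_cancel hn] at this
    · have := h.mul (n - e₀) e₀ q h6 s hs h5
      rw [Nat.sub_add_cancel hn] at this
      rw [this, smul_eq_mul, mul_comm]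
      rfl

theorem Kap.ker (h : Kap j I C) :
    ∀ᶠ n in atTop, ∀ s ∈ I, s ∈ 𝒜 n → h.κ n s = 0 → s ∈ pr j.1 * I := by
  obtain ⟨K, -, hK⟩ := inv_exists_ideal (𝒜 := 𝒜) (fun n a => a ∈ I ∧ h.κ n a = 0)
    (fun n => ⟨zero_mem _, h.step_zero n⟩)
    (fun n a b ha hb h1 h2 => ⟨add_mem h1.1 h2.1, by
      rw [h.add n a h1.1 b h2.1 ha hb, h1.2, h2.2, add_zero]⟩)
    (fun n m a c ha hc h1 => ⟨I.mul_mem_right _ h1.1, by
      rw [add_comm, mul_comm, h.mul m n c hc a h1.1 ha, h1.2, mul_zero]⟩)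
  have : Ev 𝒜 K (pr j.1 * I) := ev_of_loc fun n a ha h1 y => by
    obtain ⟨h2, h3⟩ := (hK n a ha).1 h1
    by_cases hy : pr j.1 ≤ pr y
    · exact h.step_ker hy h2 ha h3
    · obtain ⟨m, b, hb, hb', h4⟩ := md_exists_not_mem (pr_hom j.1) hy
      exact ⟨m, b, hb, h4, Ideal.mul_mem_mul hb' h2⟩
  filter_upwards [this] with n hn s h1 h2 h3
  exact hn s h2 ((hK n s h2).2 ⟨h1, h3⟩)

theorem Kap.zero (h : Kap j I C) {n : ℕ} {s : A} (hs : s ∈ pr j.1 * I) (hn : s ∈ 𝒜 n) :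
    h.κ n s = 0 := by
  refine step_mul_ind (P := fun s => h.κ n s = 0) (pr_hom j.1) h.hom (h.step_zero n) ?_ ?_ hs hn
  · intro x hx y hy h1 h2 h3 h4
    rw [h.add n x (Ideal.mul_le_right hx) y (Ideal.mul_le_right hy) h1 h2, h3, h4, add_zero]
  · rintro l m rfl a ha s hs h1 h2
    rw [h.mul l m a h1 s hs h2, step_th_mem ha, zero_mul]

/-- the Hilbert function of `I ⧸ (j + 𝔮) I` -/
theorem Kap.log_idx (h : Kap j I C) {𝔮 : Ideal A} (hq' : 𝔮.IsHomogeneous 𝒜) :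
    ∀ᶠ n : ℕ in atTop, Real.log (((pr j.1 ⊔ 𝔮) * I).toAddSubgroup.relIndex
      (I.toAddSubgroup ⊓ 𝒜 n)) = ((Phi j 𝔮 C).eval (n : ℚ) : ℚ) * Real.log p := by
  have hle : 𝔮 * I ≤ I := Ideal.mul_le_right
  have e1 := h.step_hq_top 1
  have e2 := h.step_hq_mul hq' 1
  rw [one_mul, hq_one (mdl_Mp j) (h.step_fg_kf le_rfl)] at e1
  rw [one_mul, hq_one (mdl_Mp j) (h.step_fg_kf hle)] at e2
  rw [Phi, ← e1, ← e2]
  filter_upwards [hp_spec (Mp j).V_fg (h.step_fg_kf le_rfl), hp_spec (Mp j).V_fg (h.step_fg_kf hle),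
    h.step_fg_kf le_rfl, h.ker] with n h1 h2 h3 h4
  let f : ↥(I.toAddSubgroup ⊓ 𝒜 n) →+ kap j.1 :=
    AddMonoidHom.mk' (fun s => h.κ n s.1) fun s t => h.add n _ s.2.1 _ t.2.1 s.2.2 t.2.2
  rw [eval_sub, h1, h2, AddSubgroup.relIndex, ← AddSubgroup.relIndex_top_right,
    tor_rel f (B' := (h.stepKf (𝔮 * I) n).toAddSubgroup) (Z' := (h.stepKf I n).toAddSubgroup),
    tor_log (B := h.stepKf (𝔮 * I) n) (Z := h.stepKf I n)
      (span_mono (Set.image_mono fun s hs => And.intro (hle hs.1) hs.2)) h3.1]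
  · push_cast; rfl
  · ext v
    constructor
    · rintro ⟨s, -, rfl⟩
      exact (h.step_mem_kf le_rfl).2 ⟨s.1, s.2.1, s.2.2, rfl⟩
    · intro hv
      obtain ⟨s, k1, k2, rfl⟩ := (h.step_mem_kf le_rfl).1 hv
      exact ⟨⟨s, k1, k2⟩, trivial, rfl⟩
  · rintro ⟨s, k1, k2⟩ -
    change s ∈ (pr j.1 ⊔ 𝔮) * I ↔ h.κ n s ∈ h.stepKf (𝔮 * I) n
    rw [Ideal.sup_mul, h.step_mem_kf hle]
    constructor
    · intro hs
      obtain ⟨u, hu, w, hw, k3, k4, rfl⟩ :=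
        span_hom_sup ((pr_hom j.1).mul h.hom) (hq'.mul h.hom) hs k2
      exact ⟨w, hw, k4, by
        rw [h.add n u (Ideal.mul_le_right hu) w (hle hw) k3 k4, h.zero hu k3, zero_add]⟩
    · rintro ⟨w, hw, k3, e⟩
      have := h4 (s - w) (sub_mem k1 (hle hw)) (sub_mem k2 k3) (by
        rw [h.step_sub k1 (hle hw) k2 k3, e, sub_self])
      exact Submodule.mem_sup.2 ⟨_, this, w, hw, sub_add_cancel _ _⟩

theorem Kap.hq_lat (h : Kap j I C) {β : Type} [Fintype β] {a : β → ℕ} {ε : (β → A) →ₗ[A] A}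
    (hε : ∀ n, ∀ v ∈ piece 𝒜 a n, ε v ∈ 𝒜 n) (hr : LinearMap.range ε = I) (E : Pic (Mp j).V) :
    hq (Mp j).V (lat j a ⊤) E - hq (Mp j).V (lat j a (LinearMap.ker ε)) E =
      PP (Mp j).V (E * C) := by
  classical
  have hI : ∀ v, ε v ∈ I := fun v => hr ▸ ⟨v, rfl⟩
  let ψ : (β → kap j.1) →ₗ[kap j.1] kap j.1 :=
    Fintype.linearCombination _ fun i => h.κ (a i) (ε (Pi.single i 1))
  have hψ : ∀ n, ∀ c ∈ piece 𝒜 a n, ψ (fun i => th j.1 (c i)) = h.κ n (ε c) := fun n c hc => by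
    let f : ↥(I.toAddSubgroup ⊓ 𝒜 n) →+ kap j.1 :=
      AddMonoidHom.mk' (fun s => h.κ n s.1) fun s t => h.add n _ s.2.1 _ t.2.1 s.2.2 t.2.2
    have k1 : ∀ i, c i * ε (Pi.single i 1) ∈ 𝒜 n ∧
        h.κ n (c i * ε (Pi.single i 1)) = th j.1 (c i) * h.κ (a i) (ε (Pi.single i 1)) := fun i => by
      rcases le_or_gt (a i) n with e | e
      · have k2 := (mem_piece.1 hc i).1 e
        have k3 := hε _ _ (step_single_mem a i)
        have k4 := SetLike.mul_mem_graded k2 k3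
        have k5 := h.mul _ _ _ k2 _ (hI _) k3
        rw [Nat.sub_add_cancel e] at k4 k5
        exact ⟨k4, k5⟩
      · rw [(mem_piece.1 hc i).2 e, zero_mul, map_zero, zero_mul]
        exact ⟨zero_mem _, h.step_zero n⟩
    have k2 := map_sum f (fun i => ⟨c i * ε (Pi.single i 1), I.mul_mem_left _ (hI _), (k1 i).1⟩)
      Finset.univ
    rw [Fintype.linearCombination_apply, step_eps_eq ε c]
    refine Eq.trans (Finset.sum_congr rfl fun i _ => (k1 i).2.symm) (k2.symm.trans ?_)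
    exact congrArg (h.κ n) (AddSubmonoidClass.coe_finsetSum _ _)
  have i1 := hq_iso (mdl_Mp j) (fg_lat j a ⊤) (fg_const_bot (E := kap j.1)) ψ E
  have e1 : (fun n => (lat j a ⊤ n).map (ψ.restrictScalars (ZMod p)) ⊔ ⊥) = h.stepKf I := by
    funext n
    rw [sup_bot_eq]
    ext v
    rw [h.step_mem_kf le_rfl]
    constructor
    · rintro ⟨w, hw, rfl⟩
      obtain ⟨c, -, k2, rfl⟩ := mem_lat.1 hw
      exact ⟨ε c, hI c, hε _ _ k2, (hψ n c k2).symm⟩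
    · rintro ⟨s, k1, k2, rfl⟩
      obtain ⟨c, k3, rfl⟩ := step_lift hε k2 (hr ▸ k1)
      exact ⟨_, mem_lat.2 ⟨c, trivial, k3, rfl⟩, hψ n c k3⟩
  have e2 : (fun n => lat j a ⊤ n ⊓ (⊥ : Submodule (ZMod p) (kap j.1)).comap
      (ψ.restrictScalars (ZMod p))) =ᶠ[atTop] lat j a (LinearMap.ker ε) := by
    filter_upwards [h.ker] with n hn
    refine le_antisymm ?_ fun v hv => ?_
    · rintro v ⟨k1, k2⟩
      obtain ⟨c, -, k3, rfl⟩ := mem_lat.1 k1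
      have k4 := hn _ (hI c) (hε _ _ k3) ((hψ n c k3).symm.trans k2)
      have := step_to_B (j := j) hε k3 (SetLike.one_mem_graded 𝒜) (by
        rwa [one_mul, hr, mul_comm])
      simpa using this
    · obtain ⟨c, k1, k3, rfl⟩ := mem_lat.1 hv
      exact ⟨mem_lat.2 ⟨c, trivial, k3, rfl⟩, (hψ n c k3).trans (by
        rw [LinearMap.mem_ker.1 k1, h.step_zero])⟩
  rw [e1, hq_congr e2, hq_bot, sub_zero, h.step_hq_top] at i1
  exact i1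

theorem Kap.TT_eq (h : Kap j I C) {β : Type} [Fintype β] {a : β → ℕ} {ε : (β → A) →ₗ[A] A}
    (hε : ∀ n, ∀ v ∈ piece 𝒜 a n, ε v ∈ 𝒜 n) (hr : LinearMap.range ε = I) (E : Pic (Mp j).V) :
    TT j a ε E = -dl C (PP (Mp j).V) E := by
  obtain ⟨ψ, hψ⟩ := tor_phiE j ε
  have i1 := hq_iso (mdl_Mp j) (fg_lat j a ⊤) (fg_const_bot (E := kap j.1)) ψ E
  simp only [sup_bot_eq, hq_bot, sub_zero] at i1
  rw [TT, Phi, tor_fam_range hε hψ, tor_lat_comapE hε hψ le_rfl, funext (tor_fam_bot (j := j)), dl,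
    ← h.hq_lat hε hr E]
  linear_combination i1

end

end Pool.Agent.Lib.MP_62d77c_ag
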