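import Pool.Agent.Lib.MP_62d77c_ag.End.IntC
import Pool.Agent.Lib.MP_62d77c_ag.End.Kap

/-! The intersection number of a locally principal prime with a fibral curve. -/

set_option autoImplicit false

namespace Pool.Agent.Lib.MP_62d77c_ag

open Filter Polynomial Submodule

noncomputable section

variable {A : Type} [CommRing A] [IsDomain A] {𝒜 : ℕ → AddSubgroup A} [GradedRing 𝒜]
  [hG : Fact (Gen 𝒜)] {p : ℕ} [Fact p.Prime]

omit [IsDomain A] in
theorem split_lift {β γ : Type} [Fintype β] (d : (γ → A) →ₗ[A] (β → A))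
    (π : (β → A) →ₗ[A] (β → A)) (h : ∀ v, π v ∈ LinearMap.range d) :
    ∃ σ : (β → A) →ₗ[A] (γ → A), ∀ v, d (σ v) = π v := by
  obtain ⟨σ, e⟩ := Module.projective_lifting_property d.rangeRestrict (π.codRestrict _ h)
    d.surjective_rangeRestrict
  exact ⟨σ, fun v => congrArg Subtype.val (LinearMap.congr_fun e v)⟩

omit hG in
/-- the resolution of a locally principal ideal splits locally -/
theorem resol_split {I : Ideal A} (hlp : (MX 𝒜).LP I) (R : Resol 𝒜 I) (y : Pt 𝒜) :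
    ∃ m, ∃ b ∈ 𝒜 m, b ∉ pr y ∧ ∀ q, ∃ π : (Fin (R.b q) → A) →ₗ[A] (Fin (R.b q) → A),
      (∀ v, π v ∈ LinearMap.range (R.D q)) ∧ ∀ v ∈ LinearMap.range (R.D q), π v = b • v := by
  classical
  obtain ⟨e, g, hg⟩ := hlp y (on_MX y)
  have hI : ∀ v, R.ε v ∈ I := fun v => R.range.le ⟨v, rfl⟩
  have h4 : ∀ i, ∃ m, ∃ b ∈ 𝒜 m, b ∉ pr y ∧ g ∣ b * R.ε (Pi.single i 1) := fun i => by
    obtain ⟨m, l, b, b1, c, -, b2, -, b3⟩ :=
      step_gen hg (hI _) (R.homε _ _ (step_single_mem (R.a 0) i))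
    exact ⟨m, b, b1, b2, c, b3.trans (mul_comm _ _)⟩
  choose m b b1 b2 b3 using h4
  have b4 : ∏ i, b i ∈ 𝒜 (∑ i, m i) := SetLike.prod_mem_graded 𝒜 m b fun i _ => b1 i
  have b5 : ∏ i, b i ∉ pr y := fun h => by
    obtain ⟨i, -, hi⟩ := (Ideal.IsPrime.prod_mem_iff (hp := y.isPrime)).1 h
    exact b2 i hi
  have b6 : ∀ i, g ∣ (∏ i, b i) * R.ε (Pi.single i 1) := fun i =>
    (b3 i).trans (mul_dvd_mul_right (Finset.dvd_prod_of_mem b (Finset.mem_univ i)) _)
  choose c hc using b6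
  obtain ⟨w, hw⟩ : g ∈ LinearMap.range R.ε := R.range.ge hg.1
  refine ⟨_, _, b4, b5, fun q => ?_⟩
  generalize ∏ i, b i = t at hc
  induction q with
  | zero =>
    let φ : (Fin (R.b 0) → A) →ₗ[A] A := Fintype.linearCombination A c
    have hφ : ∀ v, g * φ v = t * R.ε v := fun v => by
      rw [Fintype.linearCombination_apply, step_eps_eq R.ε v, Finset.mul_sum, Finset.mul_sum]
      exact Finset.sum_congr rfl fun i _ => by
        rw [smul_eq_mul]; linear_combination -(v i) * hc i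
    refine ⟨t • LinearMap.id - φ.smulRight w, fun v => (R.exact0 _).1 ?_, fun v hv => ?_⟩
    · simp only [LinearMap.sub_apply, LinearMap.smul_apply, LinearMap.id_apply,
        LinearMap.smulRight_apply, map_sub, map_smul, smul_eq_mul, hw]
      linear_combination -hφ v
    · have := hφ v
      rw [(R.exact0 v).2 hv, mul_zero] at this
      simp [(mul_eq_zero.1 this).resolve_left (step_gen_ne hg)]
  | succ q ih =>
    obtain ⟨π, h1, h2⟩ := ih
    obtain ⟨σ, hσ⟩ := split_lift (R.D q) π h1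
    refine ⟨t • LinearMap.id - σ ∘ₗ R.D q, fun v => (R.exact q _).1 ?_, fun v hv => ?_⟩
    · simp only [LinearMap.sub_apply, LinearMap.smul_apply, LinearMap.id_apply,
        LinearMap.comp_apply, map_sub, map_smul, hσ]
      rw [h2 _ ⟨v, rfl⟩, sub_self]
    · simp [(R.exact q v).2 hv]

theorem tor_high {I : Ideal A} (hlp : (MX 𝒜).LP I) (R : Resol 𝒜 I) (z : Vp 𝒜 p) (q : ℕ) :
    lat z (R.a (q + 1)) (R.cyc (pr z.1) (q + 1)) =ᶠ[atTop]
      lat z (R.a (q + 1)) (LinearMap.range (R.D (q + 1)) ⊔ pr z.1 • ⊤) := by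
  refine EventuallyLE.antisymm ((Mp z).local_global (fg_lat z _ _) (fg_lat z _ _).fam
    (Eventually.of_forall fun n w hw y _ => ?_))
    (Eventually.of_forall (step_lat_mono _ (resol_cyc R _ _)))
  obtain ⟨v, h1, h2, rfl⟩ := mem_lat.1 hw
  obtain ⟨m, b, b1, b2, h3⟩ := resol_split hlp R y
  obtain ⟨π, h4, h5⟩ := h3 q
  obtain ⟨σ, hσ⟩ := split_lift (R.D q) π h4
  refine ⟨m, b, b1, b2, mem_lat.2 ⟨b • v, ?_, step_smul_piece h2 b1, ?_⟩⟩
  · refine Submodule.mem_sup.2 ⟨b • v - σ (R.D q v), (R.exact q _).1 ?_, σ (R.D q v), ?_,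
      sub_add_cancel _ _⟩
    · rw [map_sub, map_smul, hσ, h5 _ ⟨v, rfl⟩, sub_self]
    · have : (pr z.1 • ⊤ : Submodule A _).map σ ≤ pr z.1 • ⊤ := by
        rw [Submodule.map_smul'']
        exact Submodule.smul_mono le_rfl le_top
      exact this ⟨_, h1, rfl⟩
  · funext i
    rw [Pi.smul_apply, Pi.smul_apply, smul_eq_mul, smul_eq_mul, map_mul]; rfl

theorem tor_div {z : Vp 𝒜 p} {I : Ideal A} {C : Pic (Mp z).V} (h : Kap z I C) (R : Resol 𝒜 I)
    {Q : ℕ} (hQ : 2 ≤ Q) : ∀ᶠ n : ℕ in atTop,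
    ∑ q ∈ Finset.range Q, (-1) ^ q * Real.log (R.tor (pr z.1) n q) =
      ((-dl C (PP (Mp z).V) 1).eval (n : ℚ) : ℚ) * Real.log p := by
  induction Q, hQ using Nat.le_induction with
  | succ Q hQ ih =>
    obtain ⟨q, rfl⟩ : ∃ q, Q = q + 2 := ⟨Q - 2, by omega⟩
    filter_upwards [ih, resol_log z R (q + 1)] with n h1 h2
    rw [hq_congr (tor_high h.lp R z q), sub_self] at h2
    rw [Finset.sum_range_succ, h1, h2]
    simp
  | base =>
    filter_upwards [tor_log_fam z (le_sup_right : pr z.1 ≤ I ⊔ pr z.1), resol_log z R 0]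
      with n h0 h1
    have h0' : Real.log (R.tor (pr z.1) n 0) = _ := h0
    rw [Finset.sum_range_succ, Finset.sum_range_one, h0', h1, resol_lat,
      ← h.TT_eq R.homε R.range, TT, R.range, Phi_sup z h.hom]
    simp only [eval_sub]
    push_cast
    simp only [Resol.cyc]
    ring

theorem isInt_div {x : Pt 𝒜} (hlp : (MX 𝒜).LP (pr x)) {D : Car (MX 𝒜).V}
    (hD : IsCl D ((MX 𝒜).fam (pr x))) (z : Vp 𝒜 p) (hz : dm z = 1) (d : ℕ) :
    IsInt d x z.1 ((-lin 0 (PP (Mp z).V) ((MX 𝒜).rho z (cl D)) : ℚ) * Real.log p) := by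
  obtain ⟨h⟩ := exists_kap z (pr_hom x) hlp hD
  refine ⟨exists_resol (pr_hom x), fun R => ?_⟩
  have hL : Lev 2 (PP (Mp z).V) := by
    have := snapper (mdl_Mp z)
    rwa [show dimV (Mp z).V = 1 from hz] at this
  filter_upwards [tor_div h R (Q := d + 2) (by omega)] with n hn
  rw [hn, lin, eq_C_of_mem_degreeLT_one ((Lev.dl (s := 1) hL _).mem 1), eval_neg, eval_C,
    coeff_C_zero]

end

end Pool.Agent.Lib.MP_62d77c_ag
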