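import Pool.Agent.Lib.MP_62d77c_ag.End.Idx

/-! Lattices in a field stable under an element that is idempotent modulo `p`. -/

set_option autoImplicit false

namespace Pool.Agent.Lib.MP_62d77c_ag

open Polynomial Submodule

noncomputable section

theorem lat_charpoly {ι : Type} [Fintype ι] [DecidableEq ι] (M : Matrix ι ι ℤ) {μ : ℤ[X]}
    (hμ : μ.Monic) (hi : Irreducible (μ.map (Int.castRingHom ℚ))) (h0 : aeval M μ = 0) :
    ∃ k, M.charpoly = μ ^ k ∧ μ.natDegree * k = Fintype.card ι := by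
  have hc : Commute (Matrix.scalar ι (X : ℤ[X])) ((C : ℤ →+* ℤ[X]).mapMatrix M) :=
    Matrix.scalar_commute _ (fun _ => Commute.all _ _) _
  have key : ∀ P : ℤ[X], ∃ Q, Matrix.scalar ι P - (C : ℤ →+* ℤ[X]).mapMatrix (aeval M P) =
      M.charmatrix * Q := fun P => by
    induction P using Polynomial.induction_on' with
    | add P P' h1 h2 =>
      obtain ⟨Q, e⟩ := h1
      obtain ⟨Q', e'⟩ := h2
      exact ⟨Q + Q', by rw [mul_add, ← e, ← e', map_add, map_add, map_add]; abel⟩
    | monomial n a =>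
      obtain ⟨Q, e⟩ := hc.sub_dvd_pow_sub_pow n
      refine ⟨a • Q, ?_⟩
      rw [mul_smul_comm, Matrix.charmatrix, ← e, smul_sub, aeval_monomial,
        ← C_mul_X_pow_eq_monomial, map_mul, map_mul, map_pow, map_pow]
      simp
  obtain ⟨Q, e⟩ := key μ
  rw [h0, map_zero, sub_zero] at e
  have h1 : M.charpoly ∣ μ ^ Fintype.card ι := ⟨Q.det, by
    rw [Matrix.charpoly, ← Matrix.det_mul, ← e, Matrix.scalar_apply, Matrix.det_diagonal]; simp⟩
  have h2 := Polynomial.map_dvd (Int.castRingHom ℚ) h1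
  rw [Polynomial.map_pow] at h2
  obtain ⟨k, -, hk⟩ := (dvd_prime_pow hi.prime _).1 h2
  have h3 : M.charpoly = μ ^ k := Polynomial.map_injective (Int.castRingHom ℚ) Int.cast_injective (by
    rw [Polynomial.map_pow]
    exact eq_of_monic_of_associated (M.charpoly_monic.map _) ((hμ.map _).pow k) hk)
  exact ⟨k, h3, by rw [← M.charpoly_natDegree_eq_dim, h3, hμ.natDegree_pow, mul_comm]⟩

theorem lat_minpoly {F : Type} [Field F] [CharZero F] {Λ : AddSubgroup F} (hfg : Λ.FG)
    (h0 : Λ ≠ ⊥) {v : F} (hv : ∀ z ∈ Λ, v * z ∈ Λ) : ∃ μ : ℤ[X], μ.Monic ∧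
      Irreducible (μ.map (Int.castRingHom ℚ)) ∧ μ.eval₂ (Int.castRingHom F) v = 0 := by
  have h1 : IsIntegral ℤ v := isIntegral_of_smul_mem_submodule Λ.toIntSubmodule
    (fun e => h0 (by rw [← AddSubgroup.toIntSubmodule_toAddSubgroup Λ, e]; rfl))
    (by rwa [Submodule.fg_iff_addSubgroup_fg, AddSubgroup.toIntSubmodule_toAddSubgroup]) v hv
  refine ⟨minpoly ℤ v, minpoly.monic h1, ?_, minpoly.aeval ℤ v⟩
  have := minpoly.irreducible (h1.tower_top (A := ℚ))
  rwa [minpoly.isIntegrallyClosed_eq_field_fractions' ℚ h1] at this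

theorem lat_trail {R : Type} [CommRing R] [IsDomain R] {P : R[X]} (h : P ≠ 0) (k : ℕ) :
    (P ^ k).natTrailingDegree = k * P.natTrailingDegree := by
  induction k with
  | zero => simp
  | succ k ih => rw [pow_succ, natTrailingDegree_mul (pow_ne_zero _ h) h, ih]; ring

theorem lat_index {K : Type} [Field K] [CharZero K] {p : ℕ} [Fact p.Prime] {Λ B : AddSubgroup K}
    (hfg : Λ.FG) {v : K} (hv : ∀ z ∈ Λ, v * z ∈ Λ)
    (hv2 : ∀ z ∈ Λ, ∃ w ∈ Λ, v * (v * z) - v * z = p * w)
    (hB : ∀ z ∈ Λ, z ∈ B ↔ ∃ a ∈ Λ, ∃ b ∈ Λ, z = p * a + v * b) {μ : ℤ[X]} (hμ : μ.Monic)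
    (hi : Irreducible (μ.map (Int.castRingHom ℚ))) (h0 : μ.eval₂ (Int.castRingHom K) v = 0) :
    Real.log (B.relIndex Λ) = ((μ.map (Int.castRingHom (ZMod p))).natTrailingDegree /
      μ.natDegree * Module.finrank ℤ Λ : ℚ) * Real.log p := by
  classical
  set N := Λ.toIntSubmodule
  have : Module.Finite ℤ N := Module.Finite.iff_fg.2 (by
    rwa [Submodule.fg_iff_addSubgroup_fg, AddSubgroup.toIntSubmodule_toAddSubgroup])
  let b := Module.Free.chooseBasis ℤ N
  let f : N →ₗ[ℤ] N := (LinearMap.mulLeft ℤ v).restrict hv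
  let M := LinearMap.toMatrix b b f
  have hf : ∀ (P : ℤ[X]) (z : N), (aeval f P z).1 = P.eval₂ (Int.castRingHom K) v * z.1 := by
    intro P z
    induction P using Polynomial.induction_on' with
    | add P P' h1 h2 => rw [map_add, LinearMap.add_apply, Submodule.coe_add, h1, h2, eval₂_add, add_mul]
    | monomial n a =>
      have : ∀ n : ℕ, ((f ^ n) z).1 = v ^ n * z.1 := fun n => by
        induction n with
        | zero => simp
        | succ n ih => rw [pow_succ', Module.End.mul_apply, pow_succ', mul_assoc, ← ih]; rfl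
      rw [aeval_monomial, eval₂_monomial, Module.End.mul_apply, mul_assoc, ← this]
      simp
  obtain ⟨k, h2, hdeg⟩ := lat_charpoly M hμ hi (by
    have : aeval f μ = 0 := LinearMap.ext fun z => Subtype.ext (by rw [hf, h0, zero_mul]; rfl)
    have e := aeval_algHom_apply (LinearMap.toMatrixAlgEquiv b) f μ
    rw [this, map_zero] at e
    exact e)
  rw [← Module.finrank_eq_card_basis b] at hdeg
  let ψ := Matrix.toLin' (M.map (Int.castRingHom (ZMod p)))
  let ρ : N →+ (_ → ZMod p) :=
    { toFun := fun z i => (b.repr z i : ZMod p)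
      map_zero' := by funext i; simp
      map_add' := fun z w => by funext i; simp }
  have hρ : ∀ z, ρ (f z) = ψ (ρ z) := fun z => by
    funext i
    have := congrFun (LinearMap.toMatrix_mulVec_repr b b f z) i
    change ((b.repr (f z) i : ℤ) : ZMod p) = _
    rw [← this]
    exact RingHom.map_mulVec (Int.castRingHom (ZMod p)) M _ i
  have hsurj : Function.Surjective ρ := fun w => by
    choose c hc using fun i => ZMod.intCast_surjective (w i)
    exact ⟨b.equivFun.symm c, funext fun i => by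
      rw [← hc i]
      exact congrArg _ (congrFun (b.equivFun.apply_symm_apply c) i)⟩
  have hker : ∀ z, ρ z = 0 ↔ ∃ w : N, z = p • w := fun z => by
    refine ⟨fun h => ?_, ?_⟩
    · choose c hc using fun i => (ZMod.intCast_zmod_eq_zero_iff_dvd _ p).1 (congrFun h i)
      refine ⟨b.equivFun.symm c, b.equivFun.injective (funext fun i => ?_)⟩
      rw [map_nsmul, LinearEquiv.apply_symm_apply, Pi.smul_apply, nsmul_eq_mul]
      exact hc i
    · rintro ⟨w, rfl⟩
      rw [map_nsmul]
      funext i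
      simp
  have hid : ∀ w, ψ (ψ w) = ψ w := fun w => by
    obtain ⟨z, rfl⟩ := hsurj w
    obtain ⟨c, hc, e⟩ := hv2 z.1 z.2
    rw [← hρ, ← hρ, ← sub_eq_zero, ← map_sub, hker]
    exact ⟨⟨c, hc⟩, Subtype.ext (e.trans (by simp))⟩
  have h3 : Module.End.maxGenEigenspace ψ 0 = LinearMap.ker ψ := by
    ext w
    rw [Module.End.mem_maxGenEigenspace, zero_smul, sub_zero, LinearMap.mem_ker]
    refine ⟨fun ⟨n, hn⟩ => ?_, fun h => ⟨1, by simpa using h⟩⟩
    induction n with
    | zero => rw [show w = 0 by simpa using hn, map_zero]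
    | succ n ih =>
      cases n with
      | zero => simpa using hn
      | succ n =>
        refine ih ?_
        rwa [pow_succ', pow_succ', Module.End.mul_apply, Module.End.mul_apply, hid,
          ← Module.End.mul_apply, ← pow_succ'] at hn
  have h4 := LinearMap.finrank_maxGenEigenspace_zero_eq ψ
  rw [h3, Matrix.charpoly_toLin', Matrix.charpoly_map, h2, Polynomial.map_pow,
    lat_trail (hμ.map _).ne_zero] at h4
  have h5 : B.relIndex Λ = (LinearMap.range ψ).toAddSubgroup.relIndex
      (⊤ : Submodule (ZMod p) (_ → ZMod p)).toAddSubgroup := by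
    rw [AddSubgroup.relIndex, ← AddSubgroup.relIndex_top_right]
    refine tor_rel (G := N) ρ (AddSubgroup.map_top_of_surjective ρ hsurj) fun z _ => ?_
    refine (hB z.1 z.2).trans ⟨?_, ?_⟩
    · rintro ⟨a, ha, c, hc, e⟩
      refine ⟨ρ ⟨c, hc⟩, ?_⟩
      rw [← hρ, eq_comm, ← sub_eq_zero, ← map_sub, hker]
      exact ⟨⟨a, ha⟩, Subtype.ext (by
        simp only [f, AddSubgroupClass.coe_sub, LinearMap.coe_restrict_apply,
          LinearMap.mulLeft_apply, AddSubmonoidClass.coe_nsmul, nsmul_eq_mul]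
        rw [e]; ring)⟩
    · rintro ⟨w, hw⟩
      obtain ⟨c, rfl⟩ := hsurj w
      rw [← hρ, eq_comm, ← sub_eq_zero, ← map_sub, hker] at hw
      obtain ⟨a, e⟩ := hw
      refine ⟨a.1, a.2, c.1, c.2, ?_⟩
      have := congrArg Subtype.val e
      simp only [f, AddSubgroupClass.coe_sub, LinearMap.coe_restrict_apply,
        LinearMap.mulLeft_apply, AddSubmonoidClass.coe_nsmul, nsmul_eq_mul] at this
      rw [← this]; ring
  have h6 := LinearMap.finrank_range_add_finrank_ker ψ
  have h7 : (μ.natDegree : ℚ) ≠ 0 := by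
    rw [← hμ.natDegree_map (Int.castRingHom ℚ)]
    exact_mod_cast hi.natDegree_pos.ne'
  rw [h5, tor_log le_top Module.Finite.fg_top, finrank_top, ← h6, h4,
    show Module.finrank ℤ Λ = μ.natDegree * k from hdeg.symm]
  congr 1
  have : ((μ.map (Int.castRingHom (ZMod p))).natTrailingDegree / μ.natDegree *
      (μ.natDegree * k : ℕ) : ℚ) = (k * (μ.map (Int.castRingHom (ZMod p))).natTrailingDegree : ℕ) := by
    push_cast
    field_simp
  rw [this]
  push_cast
  ring

end

end Pool.Agent.Lib.MP_62d77c_ag
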