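import Pool.Agent.Lib.MP_62d77c_ag.End.Cut
import Pool.Agent.Lib.MP_62d77c_ag.End.IntD

/-! Numerically trivial divisors on the generic fibre. -/

set_option autoImplicit false
set_option linter.unusedSectionVars false

namespace Pool.Agent.Lib.MP_62d77c_ag

open Filter Polynomial Submodule

noncomputable section

variable {A : Type} [CommRing A] [IsDomain A] {𝒜 : ℕ → AddSubgroup A} [GradedRing 𝒜]
  [hG : Fact (Gen 𝒜)] {p : ℕ} [Fact p.Prime]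
  {m : Comp 𝒜 p → ℕ} {I : Comp 𝒜 p → Car (MX 𝒜).V}

open Classical in
/-- the class of a locally principal prime -/
def Dc (x : Pt 𝒜) : Car (MX 𝒜).V :=
  if h : ∃ D : Car (MX 𝒜).V, IsCl D ((MX 𝒜).fam (pr x)) then h.choose else 1

theorem Dc_spec {x : Pt 𝒜} (h : (MX 𝒜).LP (pr x)) : IsCl (Dc x) ((MX 𝒜).fam (pr x)) := by
  have e := h.exists_isCl _ (on_MX x)
  rw [Dc, dif_pos e]
  exact e.choose_spec

theorem Fib0.Dc_eq (h : Fib0 m I) (j : Comp 𝒜 p) : Dc j.1.1 = I j :=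
  (Dc_spec (h.lp j)).unique ((MX 𝒜).mdl (on_MX j.1.1)) (h.isCl j)

theorem Fib0.dl_swap (h : Fib0 m I) (j l : Comp 𝒜 p) (E : Pic (MX 𝒜).V) :
    dl ((MX 𝒜).rho j.1 (cl (I l))) (PP (Mp j.1).V) ((MX 𝒜).rho j.1 E) =
      dl ((MX 𝒜).rho l.1 (cl (I j))) (PP (Mp l.1).V) ((MX 𝒜).rho l.1 E) := by
  by_cases e : j = l
  · rw [e]
  have := Phi_swap j.1 l.1 E
  rw [Phi_rho j.1 (pr_hom _) (h.isCl l) (comp_ne (Ne.symm e)),
    Phi_rho l.1 (pr_hom _) (h.isCl j) (comp_ne e)] at this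
  exact neg_inj.1 this

theorem Fib0.sq_comp (h : Fib0 m I) {s : ℕ} (hd : ∀ j : Comp 𝒜 p, dm j.1 = s + 2)
    (l : Comp 𝒜 p) (E : Pic (MX 𝒜).V) : ∑ j : Comp 𝒜 p, (m j : ℚ) *
      lin s (dl ((MX 𝒜).rho j.1 E) (PP (Mp j.1).V)) ((MX 𝒜).rho j.1 (cl (I l))) = 0 := by
  have hL : Lev (s + 3) (PP (Mp l.1).V) :=
    (snapper (mdl_Mp l.1)).mono (show dm l.1 + 1 ≤ s + 3 by rw [hd])
  rw [← h.ad_rel (ad_lin l.1 (hL.dl ((MX 𝒜).rho l.1 E)))]
  refine Finset.sum_congr rfl fun j _ => ?_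
  rw [lin_dl_comm, lin_dl_comm ((MX 𝒜).rho l.1 (cl (I j))),
    ← lin_comp (dl ((MX 𝒜).rho j.1 (cl (I l))) (PP (Mp j.1).V)) ((MX 𝒜).rho j.1) E,
    ← lin_comp (dl ((MX 𝒜).rho l.1 (cl (I j))) (PP (Mp l.1).V)) ((MX 𝒜).rho l.1) E,
    funext (h.dl_swap j l)]

theorem exists_comb {G ι κ : Type} [CommGroup G] [Fintype κ] (t : Finset ι) (c : ι → ℚ) (e : ι → G)
    (a : κ → ℚ) (e' : κ → G) : ∃ N : ℕ, 0 < N ∧ ∃ w : G, ∀ f : G → ℚ, LA_Ad f →
      f w = N * (∑ x ∈ t, c x * f (e x) + ∑ l, a l * f (e' l)) := by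
  obtain ⟨N, hN, k, hk⟩ := LA_scale (ι := t ⊕ κ) (Sum.elim (fun x => c x) a)
  refine ⟨N, hN, ∏ i, Sum.elim (fun x : t => e x) e' i ^ k i, fun f hf => ?_⟩
  rw [hf.comb, Fintype.sum_sum_type, mul_add, ← Finset.sum_coe_sort t, Finset.mul_sum,
    Finset.mul_sum]
  simp only [hk, Sum.elim_inl, Sum.elim_inr, mul_assoc]

theorem Fib0.curve_zero [CharZero A] (h : Fib0 m I) {s : ℕ}
    (hdim : Algebra.trdeg ℤ A = (s + 1 + 1 : ℕ) + 1) {c : Pt 𝒜 →₀ ℚ}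
    (hc : ∀ x ∈ c.support, CharZero (kap x) ∧ trn x = s + 1)
    (hD : ∀ x ∈ c.support, IsCl (Dc x) ((MX 𝒜).fam (pr x))) (ht : NumTriv c) {a : Comp 𝒜 p → ℚ}
    (ha : ∀ j : Comp 𝒜 p, ∑ x ∈ c.support, c x * lin (s + 1) (PP (Mp j.1).V)
      ((MX 𝒜).rho j.1 (cl (Dc x))) = ∑ l, a l * Zm I (s + 1) j l) (z : Vp 𝒜 p) (hz : dm z = 1) :
    ∑ x ∈ c.support, c x * lin 0 (PP (Mp z).V) ((MX 𝒜).rho z (cl (Dc x))) +
      ∑ l, a l * lin 0 (PP (Mp z).V) ((MX 𝒜).rho z (cl (I l))) = 0 := by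
  have hd : ∀ j : Comp 𝒜 p, dm j.1 = s + 2 := dm_comp hdim
  have hL : ∀ j : Comp 𝒜 p, Lev (s + 3) (PP (Mp j.1).V) := fun j =>
    (snapper (mdl_Mp j.1)).mono (show dm j.1 + 1 ≤ s + 3 by rw [hd])
  obtain ⟨N, hN, w, hw⟩ := exists_comb c.support c (fun x => cl (Dc x)) a fun l => cl (I l)
  have h1 : ∀ j : Comp 𝒜 p, i1 (Mp j.1).V (dimV (Mp j.1).V) ((MX 𝒜).rho j.1 w) = 0 := fun j => by
    rw [show dimV (Mp j.1).V = s + 2 from hd j, i1, show s + 2 - 1 = s + 1 from rfl,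
      hw _ (ad_lin j.1 (hL j)), ha j, ← Finset.sum_add_distrib]
    simp [Zm]
  have h2 : ∑ j : Comp 𝒜 p, (m j : ℚ) *
      lin s (dl ((MX 𝒜).rho j.1 w) (PP (Mp j.1).V)) ((MX 𝒜).rho j.1 w) = 0 := by
    have k1 := h.sq_zero hdim hc hD ht (S := Finset.univ)
      (fun _ _ k hk => absurd (Finset.mem_univ k) hk) w
    have k2 : ∑ l, a l * ∑ j : Comp 𝒜 p, (m j : ℚ) *
        lin s (dl ((MX 𝒜).rho j.1 w) (PP (Mp j.1).V)) ((MX 𝒜).rho j.1 (cl (I l))) = 0 :=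
      Finset.sum_eq_zero fun l _ => by rw [h.sq_comp hd l w, mul_zero]
    simp only [Finset.mul_sum] at k2
    rw [Finset.sum_comm] at k2
    have k3 := congrArg₂ (fun u v => (N : ℚ) * (u + v)) k1 k2
    simp only [add_zero, mul_zero] at k3
    rw [← k3, Gs, ← Finset.sum_add_distrib, Finset.mul_sum]
    refine Finset.sum_congr rfl fun j _ => ?_
    rw [hw _ (ad_lin j.1 ((hL j).dl _)), mul_left_comm, mul_add, Finset.mul_sum, Finset.mul_sum]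
    congr 2
    · exact Finset.sum_congr rfl fun x _ => by ring
    · exact Finset.sum_congr rfl fun x _ => by ring
  have h3 : ∀ j : Comp 𝒜 p, (m j : ℚ) *
      lin s (dl ((MX 𝒜).rho j.1 w) (PP (Mp j.1).V)) ((MX 𝒜).rho j.1 w) ≤ 0 := fun j => by
    have := hodge (mdl_Mp j.1) (show 2 ≤ dm j.1 by rw [hd]; omega) (h1 j)
    rw [show dimV (Mp j.1).V = s + 2 from hd j] at this
    exact mul_nonpos_of_nonneg_of_nonpos (Nat.cast_nonneg _) this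
  obtain ⟨j, hj⟩ := exists_comp z
  have h4 := (mul_eq_zero.1 ((Finset.sum_eq_zero_iff_of_nonpos fun j _ => h3 j).1 h2 j
    (Finset.mem_univ j))).resolve_left (by exact_mod_cast (h.pos j).ne')
  obtain ⟨n, hn, e⟩ := torsion (mdl_Mp j.1) (w := (MX 𝒜).rho j.1 w) ⟨fun _ => h1 j, fun _ => by
    rw [show dimV (Mp j.1).V = s + 2 from hd j]; exact h4⟩
  have hz' : Lev 2 (PP (Mp z).V) := (snapper (mdl_Mp z)).mono (show dm z + 1 ≤ 2 by omega)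
  have h5 : lin 0 (PP (Mp z).V) ((MX 𝒜).rho z w) = 0 :=
    LA_Ad.tors (f := lin 0 (PP (Mp z).V)) (lin_mul hz') ⟨n, hn, by
      rw [← AM.rho_rho _ (on_MX _) hj, ← map_pow, e, map_one]⟩
  rw [hw _ (ad_lin z hz')] at h5
  exact (mul_eq_zero.1 h5).resolve_left (by exact_mod_cast hN.ne')

theorem corr_one [CharZero A] {s : ℕ} (hdim : Algebra.trdeg ℤ A = (s + 1 + 1 : ℕ) + 1) (hr : Reg 𝒜)
    {c : Pt 𝒜 →₀ ℚ} (hc : ∀ x ∈ c.support, CharZero (kap x) ∧ trn x = s + 1) (ht : NumTriv c) :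
    ∃ y : Pt 𝒜 →₀ ℚ, (∀ x ∈ y.support, (p : A) ∈ pr x ∧ tr x = (s + 1 + 1 : ℕ)) ∧
      ((∀ w : Pt 𝒜, (p : loc w) ∉ IsLocalRing.maximalIdeal (loc w) ^ 2) → y = 0) ∧
      ∀ z : Vp 𝒜 p, tr z.1 = 1 → Orth (s + 1 + 1) (c + y) z.1 := by
  classical
  obtain ⟨m, I, h⟩ := exists_fib0 (p := p) hr
  have hd : ∀ j : Comp 𝒜 p, dm j.1 = s + 1 + 1 := dm_comp hdim
  have hlp : ∀ x ∈ c.support, (MX 𝒜).LP (pr x) := fun x hx =>
    lp_horiz hr hdim (hc x hx).1 (by rw [(hc x hx).2])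
  have hD := fun x hx => Dc_spec (hlp x hx)
  have hb : ∀ S : Finset (Comp 𝒜 p), Clop S → ∑ j ∈ S, (m j : ℚ) * ∑ x ∈ c.support,
      c x * lin (s + 1) (PP (Mp j.1).V) ((MX 𝒜).rho j.1 (cl (Dc x))) = 0 := fun S hS => by
    rw [← h.deg_zero hdim hc hD ht hS, Gs]
    simp only [Finset.mul_sum, mul_assoc]
  have key : ∃ a : Comp 𝒜 p → ℚ,
      ((∀ w : Pt 𝒜, (p : loc w) ∉ IsLocalRing.maximalIdeal (loc w) ^ 2) → a = 0) ∧
      ∀ j : Comp 𝒜 p, ∑ x ∈ c.support, c x * lin (s + 1) (PP (Mp j.1).V)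
        ((MX 𝒜).rho j.1 (cl (Dc x))) = ∑ l, a l * Zm I (s + 1) j l := by
    by_cases hp : ∀ w : Pt 𝒜, (p : loc w) ∉ IsLocalRing.maximalIdeal (loc w) ^ 2
    · refine ⟨0, fun _ => rfl, fun j => ?_⟩
      have := hb _ (h.disj hp j)
      rw [Finset.sum_singleton] at this
      rw [(mul_eq_zero.1 this).resolve_left (by exact_mod_cast (h.pos j).ne')]
      simp
    obtain ⟨a, ha⟩ := LA_dual' (fun l j : Comp 𝒜 p => Zm I (s + 1) l j) _ fun a ha =>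
      h.zariski hd hb (a := a) fun l => by simpa only [mul_comm] using ha l
    exact ⟨a, fun e => absurd e hp, fun j => (ha j).trans
      (Finset.sum_congr rfl fun l _ => by rw [h.Zm_symm])⟩
  obtain ⟨a, h1, h2⟩ := key
  have hinj : Function.Injective fun j : Comp 𝒜 p => j.1.1 :=
    Subtype.val_injective.comp Subtype.val_injective
  have hs : ∀ x ∈ ((Finsupp.equivFunOnFinite.symm a).mapDomain
      fun j : Comp 𝒜 p => j.1.1).support, ∃ j : Comp 𝒜 p, j.1.1 = x := fun x hx => by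
    obtain ⟨j, -, rfl⟩ := Finset.mem_image.1 (Finsupp.mapDomain_support hx)
    exact ⟨j, rfl⟩
  refine ⟨(Finsupp.equivFunOnFinite.symm a).mapDomain fun j : Comp 𝒜 p => j.1.1, fun x hx => ?_,
    fun hp => ?_, fun z hz => ?_⟩
  · obtain ⟨j, rfl⟩ := hs x hx
    exact ⟨j.1.2, by rw [tr_eq_dm, hd]⟩
  · rw [h1 hp, show Finsupp.equivFunOnFinite.symm (0 : Comp 𝒜 p → ℚ) = 0 from
      Finsupp.ext fun _ => rfl, Finsupp.mapDomain_zero]
  have hz' : dm z = 1 := dm_of_tr (by simpa using hz)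
  refine orth_of (fun x => -lin 0 (PP (Mp z).V) ((MX 𝒜).rho z (cl (Dc x)))) (Real.log p)
    (fun x hx => ?_) ?_
  · have : (MX 𝒜).LP (pr x) := by
      rcases Finset.mem_union.1 (Finsupp.support_add hx) with k | k
      · exact hlp x k
      · obtain ⟨j, rfl⟩ := hs x k
        exact h.lp j
    exact isInt_div this (Dc_spec this) z hz' _
  · rw [Finsupp.sum_add_index' (fun _ => zero_mul _) fun _ _ _ => add_mul _ _ _,
      Finsupp.sum_mapDomain_index_inj hinj,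
      Finsupp.sum_fintype (Finsupp.equivFunOnFinite.symm a) _ (by intro i; exact zero_mul _),
      ← neg_eq_zero, ← h.curve_zero hdim hc hD ht h2 z hz', Finsupp.sum, neg_add,
      ← Finset.sum_neg_distrib, ← Finset.sum_neg_distrib]
    congr 1
    · exact Finset.sum_congr rfl fun x _ => by rw [mul_neg, neg_neg]
    · exact Finset.sum_congr rfl fun l _ => by rw [mul_neg, neg_neg, h.Dc_eq]; rfl

omit hG in
theorem main_one [CharZero A] (d : ℕ) (hd : 2 ≤ d) (hfg : Gen 𝒜)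
    (hdim : Algebra.trdeg ℤ A = d + 1) (hr : ∀ x : Pt 𝒜, IsRegularLocalRing (loc x))
    (hsm : ∀ x : Pt 𝒜, CharZero (kap x) → Algebra.FormallySmooth ℤ (loc x))
    (c : Pt 𝒜 →₀ ℚ) (hc : ∀ x ∈ c.support, CharZero (kap x) ∧ tr x + 1 = d) (ht : NumTriv c) :
    ∃ y : Pt 𝒜 →₀ ℚ, (∀ x ∈ y.support, ¬CharZero (kap x) ∧ tr x = d) ∧
      ∀ z : Pt 𝒜, ¬CharZero (kap z) → tr z = 1 → Orth d (c + y) z := by
  have : Fact (Gen 𝒜) := ⟨hfg⟩
  obtain ⟨s, rfl⟩ : ∃ s, d = s + 1 + 1 := ⟨d - 2, by omega⟩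
  refine assemble hsm c _ _ (fun p _ => corr_one hdim hr (fun x hx => ⟨(hc x hx).1, ?_⟩) ht)
    fun p q _ hq hne x z hx hx' hz => ?_
  · have := (hc x hx).2
    rw [tr_eq_trn hdim (hc x hx).1] at this
    have : trn x + 1 = s + 1 + 1 := by exact_mod_cast this
    omega
  have : Fact q.Prime := ⟨hq⟩
  obtain ⟨m, I, h⟩ := exists_fib0 (p := q) hr
  obtain ⟨j, hj⟩ := comp_of_dm hdim (z := (⟨x, hx⟩ : Vp 𝒜 q)) (dm_of_tr hx')
  obtain rfl : j.1.1 = x := congrArg Subtype.val hj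
  have hno : ∀ y : Pt 𝒜, pr z.1 ≤ pr y → ¬cI j ≤ pr y := fun y h1 h2 => by
    obtain ⟨a, b, hab⟩ : IsCoprime (q : ℤ) (p : ℤ) :=
      Nat.isCoprime_iff_coprime.2 ((Nat.coprime_primes hq Fact.out).2 hne)
    have h3 : ((a * q + b * p : ℤ) : A) ∈ pr y := by
      push_cast
      exact add_mem (Ideal.mul_mem_left _ _ (h2 hx)) (Ideal.mul_mem_left _ _ (h1 z.2))
    rw [hab, Int.cast_one] at h3
    exact md_one_not_mem y h3
  have e := Phi_rho z (pr_hom _) (h.isCl j) (hno z.1 le_rfl)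
  rw [Phi_irrelevant z (pr_hom _) hno] at e
  have := isInt_div (h.lp j) (h.isCl j) z (dm_of_tr (by simpa using hz)) (s + 1 + 1)
  rw [lin, ← coeff_neg, ← congrFun e 1] at this
  simpa using this

end

end Pool.Agent.Lib.MP_62d77c_ag
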