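import Pool.Agent.Lib.MP_62d77c_ag.End.PtsA
import Pool.Agent.Lib.MP_62d77c_ag.End.Kap
import Pool.Agent.Lib.MP_62d77c_ag.End.Fib0

/-! Degrees of horizontal subvarieties on an open and closed part of a fibre. -/

set_option autoImplicit false
set_option linter.unusedSectionVars false

namespace Pool.Agent.Lib.MP_62d77c_ag

open Filter Polynomial Submodule

noncomputable section

theorem rel_ne_zero {G : Type} [AddCommGroup G] {B Z : AddSubgroup G} (hZ : Z.FG) {r : ℕ}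
    (hr : r ≠ 0) (h : ∀ z ∈ Z, r • z ∈ B) : B.relIndex Z ≠ 0 := by
  have : AddGroup.FG Z := (AddGroup.fg_iff_addSubgroup_fg Z).2 hZ
  have : AddGroup.FG (Z ⧸ B.addSubgroupOf Z) := QuotientAddGroup.fg _
  have : Finite (Z ⧸ B.addSubgroupOf Z) := AddCommGroup.finite_of_fg_isAddTorsion _ fun q => by
    obtain ⟨z, rfl⟩ := QuotientAddGroup.mk_surjective q
    exact isOfFinAddOrder_iff_nsmul_eq_zero.2 ⟨r, Nat.pos_of_ne_zero hr, by
      rw [← QuotientAddGroup.mk_nsmul, QuotientAddGroup.eq_zero_iff]; exact h z.1 z.2⟩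
  exact AddSubgroup.index_ne_zero_of_finite

variable {A : Type} [CommRing A] [IsDomain A] {𝒜 : ℕ → AddSubgroup A} [GradedRing 𝒜]
  [hG : Fact (Gen 𝒜)] {p : ℕ} [Fact p.Prime]

theorem lp_of_isCl {k K : Type} [CommRing k] [Field K] [Algebra k K] (M : AM 𝒜 k K) {J : Ideal A}
    {D : Car M.V} (h : IsCl D (M.fam J)) : M.LP J := by
  intro y hy
  obtain ⟨e, g, hg, h1⟩ := (M.exists_genAt (M.mdl hy) h {y} (by simpa using hy)).exists
  obtain ⟨a, h2, h3, rfl⟩ := M.mem_fam.1 hg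
  exact ⟨e, a, M.genI_of_genAt hy h2 h3 (h1 y (by simp))⟩

theorem pts_step (W : Pt 𝒜) (j : Vp 𝒜 p) {I : Ideal A} (hI : I.IsHomogeneous 𝒜)
    {D : Car (MX 𝒜).V} (hD : IsCl D ((MX 𝒜).fam I)) (hn : ¬I ≤ pr W) : ∀ᶠ n : ℕ in atTop,
    Real.log ((Ltc W (pr j.1 * I) n).relIndex (Ltc W I n)) =
      ((Phi j (pr W) ((MX 𝒜).rho j (cl D))).eval (n : ℚ) : ℚ) * Real.log p := by
  have hlp := lp_of_isCl _ hD
  obtain ⟨h⟩ := exists_kap j hI hlp hD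
  have hT : Ev 𝒜 (pr W ⊓ I) (pr W * I) := ev_of_loc fun n a ha h1 y =>
    torFree_of_prime hI hlp W.isPrime (pr_hom W) hn y n a h1.1 h1.2 ha
  filter_upwards [h.log_idx (pr_hom W), hT] with n h1 h2
  rw [← h1]
  congr 2
  refine (tor_rel (th W).toAddMonoidHom rfl fun v hv => ?_).symm
  change v ∈ (pr j.1 ⊔ pr W) * I ↔ th W v ∈ _
  rw [Ideal.sup_mul, mem_Ltc]
  constructor
  · intro hs
    obtain ⟨u, hu, w, hw, k3, -, rfl⟩ :=
      span_hom_sup ((pr_hom j.1).mul hI) ((pr_hom W).mul hI) hs hv.2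
    exact ⟨u, hu, k3, by rw [map_add, step_th_mem (Ideal.mul_le_left hw), add_zero]⟩
  · rintro ⟨u, hu, k3, e⟩
    have k4 : v - u ∈ 𝒜 n := sub_mem (show v ∈ 𝒜 n from hv.2) k3
    have k5 : v - u ∈ I := I.sub_mem hv.1 (Ideal.mul_le_right hu)
    have := h2 (v - u) k4 ⟨(th_eq_zero W k4).1 (by rw [map_sub, e, sub_self]), k5⟩
    exact Submodule.mem_sup.2 ⟨u, hu, _, this, add_sub_cancel _ _⟩

/-- the Hilbert polynomial along a chain of components -/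
def chn (I : Comp 𝒜 p → Car (MX 𝒜).V) (W : Pt 𝒜) : List (Comp 𝒜 p) → Pic (MX 𝒜).V → ℚ[X]
  | [], _ => 0
  | j :: l, E => Phi j.1 (pr W) ((MX 𝒜).rho j.1 E) + chn I W l (E * cl (I j))

variable {m : Comp 𝒜 p → ℕ} {I : Comp 𝒜 p → Car (MX 𝒜).V}

theorem chn_log (h : Fib0 m I) {W : Pt 𝒜} (hW : CharZero (kap W)) (l : List (Comp 𝒜 p))
    {𝔞 : Ideal A} (ha : 𝔞.IsHomogeneous 𝒜) {D : Car (MX 𝒜).V} (hD : IsCl D ((MX 𝒜).fam 𝔞))
    (hn : ¬𝔞 ≤ pr W) : ∀ᶠ n : ℕ in atTop,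
    (Ltc W ((l.map cI).prod * 𝔞) n).relIndex (Ltc W 𝔞 n) ≠ 0 ∧
    Real.log ((Ltc W ((l.map cI).prod * 𝔞) n).relIndex (Ltc W 𝔞 n)) =
      ((chn I W l (cl D)).eval (n : ℚ) : ℚ) * Real.log p := by
  induction l generalizing 𝔞 D with
  | nil => exact Eventually.of_forall fun n => by simp [chn]
  | cons j l ih =>
    obtain ⟨h1, h2⟩ := snc_isCl_mul (MX 𝒜) ((MX 𝒜).mdl (on_MX W)) ⟨pr_hom _, h.isCl j⟩ ⟨ha, hD⟩
    have h3 : ¬cI j * 𝔞 ≤ pr W := fun e => (W.isPrime.mul_le.1 e).elim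
      (fun e => not_charZero_of_mem W (Fact.out : p.Prime).ne_zero (e j.1.2) hW) hn
    filter_upwards [ih h1 h2 h3, pts_step W j.1 ha hD hn] with n ⟨k1, k2⟩ k3
    have k4 : (Ltc W (cI j * 𝔞) n).relIndex (Ltc W 𝔞 n) ≠ 0 :=
      rel_ne_zero (Ltc_fg W 𝔞 n) (Fact.out : p.Prime).ne_zero fun z hz => by
        obtain ⟨c, m1, m2, rfl⟩ := mem_Ltc.1 hz
        exact mem_Ltc.2 ⟨p * c, Ideal.mul_mem_mul j.1.2 m1, by
          simpa using SetLike.mul_mem_graded (md_natCast_mem (𝒜 := 𝒜) p) m2, by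
          rw [map_mul, map_natCast, nsmul_eq_mul]⟩
    have k5 := AddSubgroup.relIndex_mul_relIndex _ _ _
      (Ltc_mono W (Ideal.mul_le_right : (l.map cI).prod * (cI j * 𝔞) ≤ _) n)
      (Ltc_mono W (Ideal.mul_le_right : cI j * 𝔞 ≤ _) n)
    rw [List.map_cons, List.prod_cons, mul_comm (cI j), mul_assoc, ← k5]
    refine ⟨mul_ne_zero k1 k4, ?_⟩
    rw [Nat.cast_mul, Real.log_mul (by exact_mod_cast k1) (by exact_mod_cast k4), k2, k3, chn,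
      eval_add, map_mul, mul_comm (cl D)]
    push_cast
    ring

theorem chn_lev {W : Pt 𝒜} {s : ℕ} (h : ∀ j : Comp 𝒜 p, Lev s (Phi j.1 (pr W)))
    (l : List (Comp 𝒜 p)) : Lev s (chn I W l) := by
  induction l with
  | nil => exact lev_zero_fun
  | cons j l ih => exact ((h j).comp ((MX 𝒜).rho j.1)).add (ih.translate _)

theorem chn_one {W : Pt 𝒜} (h : ∀ j : Comp 𝒜 p, Lev 1 (Phi j.1 (pr W))) (l : List (Comp 𝒜 p)) :
    (chn I W l 1).coeff 0 = (l.map fun j => (Phi j.1 (pr W) 1).coeff 0).sum := by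
  induction l with
  | nil => simp [chn]
  | cons j l ih =>
    have := lin_eq_zero (chn_lev (I := I) h l) (cl (I j))
    rw [lin, dl, coeff_sub, sub_eq_zero] at this
    rw [chn, coeff_add, this, ih, map_one, List.map_cons, List.sum_cons]

theorem chn_lin {W : Pt 𝒜} (h : ∀ j : Comp 𝒜 p, Lev 2 (Phi j.1 (pr W))) (l : List (Comp 𝒜 p))
    (E : Pic (MX 𝒜).V) : lin 0 (chn I W l) E =
      (l.map fun j : Comp 𝒜 p => lin 0 (Phi j.1 (pr W)) ((MX 𝒜).rho j.1 E)).sum := by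
  induction l with
  | nil => simp [chn, lin, dl]
  | cons j l ih =>
    rw [List.map_cons, List.sum_cons, ← ih, ← lin_comp (Phi j.1 (pr W)) ((MX 𝒜).rho j.1) E,
      ← lin_translate (chn_lev (I := I) h l) E (cl (I j)), ← lin_add]
    rfl

theorem exists_list {α : Type} (S : Finset α) (m : α → ℕ) (c : α → Ideal A) : ∃ l : List α,
    (l.map c).prod = ∏ j ∈ S, c j ^ m j ∧ ∀ f : α → ℚ, (l.map f).sum = ∑ j ∈ S, m j * f j := by
  classical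
  induction S using Finset.induction_on with
  | empty => exact ⟨[], by simp⟩
  | insert a s ha ih =>
    obtain ⟨l, h1, h2⟩ := ih
    exact ⟨List.replicate (m a) a ++ l, by simp [Finset.prod_insert ha, h1],
      fun f => by simp [Finset.sum_insert ha, h2]⟩

/-- `S` does not meet the other components -/
def Clop (S : Finset (Comp 𝒜 p)) : Prop :=
  ∀ j ∈ S, ∀ k, k ∉ S → ∀ y : Pt 𝒜, cI j ≤ pr y → ¬cI k ≤ pr y

theorem Fib0.exists_lam [CharZero A] (h : Fib0 m I) {S : Finset (Comp 𝒜 p)} (hS : Clop S) :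
    ∃ lam : ℚ, ∀ W : Pt 𝒜, CharZero (kap W) →
      ((∀ j : Comp 𝒜 p, Lev 1 (Phi j.1 (pr W))) → ∀ᶠ n in atTop,
        ∑ j ∈ S, m j * (Phi j.1 (pr W) 1).coeff 0 = lam * rk 𝒜 (pr W) n) ∧
      ((∀ j : Comp 𝒜 p, Lev 2 (Phi j.1 (pr W))) → ∀ 𝔞 : Ideal A, 𝔞.IsHomogeneous 𝒜 →
        ∀ D : Car (MX 𝒜).V, IsCl D ((MX 𝒜).fam 𝔞) → ¬𝔞 ≤ pr W → ∀ᶠ n in atTop,
        ∑ j ∈ S, m j * lin 0 (Phi j.1 (pr W)) ((MX 𝒜).rho j.1 (cl D)) =
          -lam * rk 𝒜 (𝔞 ⊔ pr W) n) := by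
  classical
  have hom : ∀ T : Finset (Comp 𝒜 p), (∏ j ∈ T, cI j ^ m j).IsHomogeneous 𝒜 := fun T =>
    Finset.prod_induction _ _ (fun _ _ => Ideal.IsHomogeneous.mul)
      (by rw [Ideal.one_eq_top]; exact Ideal.IsHomogeneous.top 𝒜)
      fun j _ => hom_pow (pr_hom _) _
  have hle : ∀ (T : Finset (Comp 𝒜 p)) (y : Pt 𝒜), ∏ j ∈ T, cI j ^ m j ≤ pr y →
      ∃ j ∈ T, cI j ≤ pr y := fun T y e => by
    obtain ⟨j, hj, e'⟩ := y.isPrime.prod_le.1 e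
    exact ⟨j, hj, Ideal.IsPrime.le_of_pow_le (hP := y.isPrime) e'⟩
  obtain ⟨lam, hl⟩ := Pool.Agent.Lib.MP_62d77c_ag.exists_lam (p := p) (hom S) (hom Sᶜ)
    (fun y e e' => by
      obtain ⟨j, hj, k1⟩ := hle S y e
      obtain ⟨k, hk, k2⟩ := hle Sᶜ y e'
      exact hS j hj k (Finset.mem_compl.1 hk) y k1 k2)
    (by rw [Finset.prod_mul_prod_compl]; exact h.sub)
    (by rw [Finset.prod_mul_prod_compl]; exact fun _ a _ ha => h.sup a ha)
  obtain ⟨l, l1, l2⟩ := exists_list S m cI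
  have hp : Real.log p ≠ 0 :=
    (Real.log_pos (by exact_mod_cast (Fact.out : p.Prime).one_lt)).ne'
  refine ⟨lam, fun W hW => ?_⟩
  have key : ∀ 𝔞 : Ideal A, 𝔞.IsHomogeneous 𝒜 → ∀ D : Car (MX 𝒜).V, IsCl D ((MX 𝒜).fam 𝔞) →
      ¬𝔞 ≤ pr W → ∀ᶠ n : ℕ in atTop, (chn I W l (cl D)).eval (n : ℚ) =
        lam * (rk 𝒜 (pr W) n - rk 𝒜 (𝔞 ⊔ pr W) n) := fun 𝔞 ha D hD hn => by
    filter_upwards [chn_log h hW l ha hD hn, hl W hW 𝔞 ha] with n ⟨_, k1⟩ k2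
    rw [l1, k2, Ltc_rk W ha] at k1
    exact_mod_cast (mul_right_cancel₀ hp k1).symm
  obtain ⟨o1, o2⟩ := snc_isCl_one (MX 𝒜) ((MX 𝒜).mdl (on_MX W))
  have k0 := key 1 o1 1 o2 fun e => W.isPrime.ne_top (top_le_iff.1 (Ideal.one_eq_top.ge.trans e))
  have r0 : ∀ n, rk 𝒜 (1 ⊔ pr W) n = 0 := fun n =>
    rk_zero one_ne_zero fun a _ => Ideal.mem_sup_left (by simp)
  rw [map_one] at k0
  refine ⟨fun hL => ?_, fun hL 𝔞 ha D hD hn => ?_⟩
  · filter_upwards [k0] with n k1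
    rw [r0, sub_zero, eq_C_of_mem_degreeLT_one ((chn_lev hL l).mem 1), eval_C] at k1
    rw [← l2, ← chn_one (I := I) hL, k1]
  · filter_upwards [k0, key 𝔞 ha D hD hn] with n k1 k2
    have e := congrArg (eval (n : ℚ))
      (eq_C_of_mem_degreeLT_one ((Lev.dl (s := 1) (chn_lev (I := I) hL l) (cl D)).mem 1))
    rw [eval_C, dl, eval_sub, one_mul, k1, k2, r0] at e
    rw [← l2, ← chn_lin (I := I) hL, lin, dl, one_mul, ← e]
    ring

end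

end Pool.Agent.Lib.MP_62d77c_ag
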