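import Pool.Agent.Lib.MP_62d77c_ag.End.Lat
import Pool.Agent.Lib.MP_62d77c_ag.End.Idem

/-! The index of an open and closed part of a fibre on a horizontal subvariety. -/

set_option autoImplicit false
set_option linter.unusedSectionVars false

namespace Pool.Agent.Lib.MP_62d77c_ag

open Filter Polynomial Submodule

noncomputable section

variable {A : Type} [CommRing A] [IsDomain A] {𝒜 : ℕ → AddSubgroup A} [GradedRing 𝒜]
  [hG : Fact (Gen 𝒜)] {p : ℕ} [Fact p.Prime]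

/-- the image of the degree `n` part of `I` in the residue field -/
def Ltc (W : Pt 𝒜) (I : Ideal A) (n : ℕ) : AddSubgroup (kap W) :=
  (I.toAddSubgroup ⊓ 𝒜 n).map (th W).toAddMonoidHom

theorem mem_Ltc {W : Pt 𝒜} {I : Ideal A} {n : ℕ} {z : kap W} :
    z ∈ Ltc W I n ↔ ∃ a ∈ I, a ∈ 𝒜 n ∧ th W a = z :=
  ⟨fun ⟨a, h, e⟩ => ⟨a, h.1, h.2, e⟩, fun ⟨a, h, h', e⟩ => ⟨a, ⟨h, h'⟩, e⟩⟩

theorem Ltc_fg (W : Pt 𝒜) (I : Ideal A) (n : ℕ) : (Ltc W I n).FG :=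
  fr_fg_map _ (fr_fg (piece_fg n) inf_le_right)

theorem Ltc_mono (W : Pt 𝒜) {I I' : Ideal A} (h : I ≤ I') (n : ℕ) : Ltc W I n ≤ Ltc W I' n :=
  AddSubgroup.map_mono (inf_le_inf_right _ h)

theorem Ltc_rk (W : Pt 𝒜) {I : Ideal A} (hI : I.IsHomogeneous 𝒜) (n : ℕ) :
    (Module.finrank ℤ (Ltc W I n) : ℚ) = rk 𝒜 (pr W) n - rk 𝒜 (I ⊔ pr W) n := by
  have h1 := fr_rel (th W).toAddMonoidHom (B := (pr W).toAddSubgroup) (B' := ⊥)
    (Z := (I ⊔ pr W).toAddSubgroup ⊓ 𝒜 n) (Z' := Ltc W I n) (fr_fg (piece_fg n) inf_le_right)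
    (by
      ext z
      rw [mem_Ltc]
      constructor
      · rintro ⟨a, h, rfl⟩
        obtain ⟨u, hu, w, hw, k1, -, rfl⟩ := span_hom_sup hI (pr_hom W) h.1 h.2
        exact ⟨u, hu, k1, by
          change _ = th W (u + w)
          rw [map_add, step_th_mem hw, add_zero]⟩
      · rintro ⟨a, h, h', rfl⟩
        exact ⟨a, ⟨Ideal.mem_sup_left h, h'⟩, rfl⟩)
    fun v hv => (th_eq_zero W hv.2).symm
  have : Module.finrank ℤ (⊥ : AddSubgroup (kap W)) = 0 := Module.finrank_zero_of_subsingleton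
  have e : (pr W).toAddSubgroup ⊓ ((I ⊔ pr W).toAddSubgroup ⊓ 𝒜 n) =
      (pr W).toAddSubgroup ⊓ 𝒜 n := by
    rw [← inf_assoc, inf_eq_left.2 (show (pr W).toAddSubgroup ≤ (I ⊔ pr W).toAddSubgroup from
      fun a ha => Ideal.mem_sup_right ha)]
  rw [bot_inf_eq, this, e, Nat.cast_zero, sub_zero] at h1
  rw [rk, rk, ← h1]
  ring

omit hG in
theorem hom_p_mul {I : Ideal A} (hI : I.IsHomogeneous 𝒜) {n : ℕ} {a : A} (ha : a ∈ 𝒜 n)
    (h : a ∈ Ideal.span {(p : A)} * I) : ∃ w ∈ I, w ∈ 𝒜 n ∧ a = w * p := by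
  obtain ⟨z, hz, rfl⟩ := Ideal.mem_span_singleton_mul.1 h
  rw [mul_comm] at ha ⊢
  have h2 := md_proj_mul (md_natCast_mem (𝒜 := 𝒜) p) n z
  rw [add_zero, md_proj_same ha] at h2
  exact ⟨_, md_proj_ideal hI n hz, md_proj_mem n z, h2⟩

/-- a function that multiplies forms into `J` multiplies `I` into `J I` -/
theorem ev_mul_into {K : Type} [Field K] {θ : A →+* K} (hθ : Function.Injective θ) {v : K}
    {J : Ideal A} (h : ∀ᶠ n in atTop, ∀ a ∈ 𝒜 n, ∃ β ∈ J, θ β = v * θ a) (I : Ideal A) :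
    ∀ᶠ n in atTop, ∀ a ∈ I, a ∈ 𝒜 n → ∀ β ∈ 𝒜 n, θ β = v * θ a → β ∈ J * I := by
  obtain ⟨T, -, hT⟩ := inv_exists_ideal (𝒜 := 𝒜)
    (fun n c => ∃ a ∈ I, a ∈ 𝒜 n ∧ θ c = v * θ a)
    (fun n => ⟨0, zero_mem _, zero_mem _, by simp⟩)
    (fun n a b _ _ ⟨x, h1, h2, h3⟩ ⟨y, h4, h5, h6⟩ => ⟨x + y, add_mem h1 h4, add_mem h2 h5, by
      rw [map_add, map_add, h3, h6, mul_add]⟩)
    (fun n m a c _ hc ⟨x, h1, h2, h3⟩ => ⟨x * c, I.mul_mem_right _ h1,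
      SetLike.mul_mem_graded h2 hc, by rw [map_mul, map_mul, h3, mul_assoc]⟩)
  obtain ⟨m, hm⟩ := h.exists
  have : Ev 𝒜 T (J * I) := ev_of_loc fun n c hc h1 y => by
    obtain ⟨a, h2, -, h4⟩ := (hT n c hc).1 h1
    obtain ⟨β, h5, h6⟩ := hm _ (step_ell_pow y m).1
    refine ⟨m, _, (step_ell_pow y m).1, (step_ell_pow y m).2, ?_⟩
    rw [show ell y ^ m * c = β * a from hθ (by rw [map_mul, map_mul, h4, h6]; ring)]
    exact Ideal.mul_mem_mul h5 h2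
  filter_upwards [this] with n hn a h1 h2 β h3 h4
  exact hn β h3 ((hT n β h3).2 ⟨a, h1, h2, h4⟩)

theorem root_th {K : Type} [Field K] {θ : A →+* K} (hθ : Function.Injective θ) {v : K} {μ : ℤ[X]}
    (h : μ.eval₂ (Int.castRingHom K) v = 0) {L : Type} [Field L] (φ : A →+* L) {b s : A}
    (hs : φ s = 1) (e : θ b = v * θ s) : μ.eval₂ (Int.castRingHom L) (φ b) = 0 := by
  have h1 := scaleRoots_eval₂_eq_zero (p := μ.map (Int.castRingHom A)) θ (r := v) (s := s) (by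
    rw [eval₂_map, ← h]; congr 1; exact RingHom.ext_int _ _)
  rw [mul_comm, ← e, eval₂_hom, map_eq_zero_iff _ hθ] at h1
  have h2 := scaleRoots_eval₂_mul (p := μ.map (Int.castRingHom A)) φ (φ b) s
  rw [hs, one_mul, one_pow, one_mul, eval₂_hom, h1, map_zero, eval₂_map] at h2
  rw [h2]; congr 1; exact RingHom.ext_int _ _

theorem lam_gen [CharZero A] {K : Type} [Field K] [CharZero K] {θ : A →+* K}
    (hθ : Function.Injective θ) (y₀ : Pt 𝒜) {J J' : Ideal A}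
    (hJ : J.IsHomogeneous 𝒜) (hJ' : J'.IsHomogeneous 𝒜)
    (hsub : Loc 𝒜 (J * J') (Ideal.span {(p : A)})) (hsup : Loc 𝒜 (Ideal.span {(p : A)}) (J * J'))
    {u : K} (hu : ∀ᶠ n in atTop, ∀ a ∈ 𝒜 n, ∃ α ∈ 𝒜 n, α ∈ J' ∧ a - α ∈ J ∧ θ α = u * θ a) :
    ∃ lam : ℚ, ∀ W : Pt 𝒜, CharZero (kap W) → ∀ I : Ideal A, I.IsHomogeneous 𝒜 →
      ∀ᶠ n in atTop, Real.log ((Ltc W (J * I) n).relIndex (Ltc W I n)) =
        (lam * Module.finrank ℤ (Ltc W I n) : ℚ) * Real.log p := by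
  have hv : ∀ᶠ n in atTop, ∀ a ∈ 𝒜 n, ∃ β ∈ J, θ β = (1 - u) * θ a := hu.mono fun n hn a ha => by
    obtain ⟨α, -, -, h2, h3⟩ := hn a ha
    exact ⟨_, h2, by rw [map_sub, h3]; ring⟩
  have hu' : ∀ᶠ n in atTop, ∀ a ∈ 𝒜 n, ∃ β ∈ J', θ β = u * θ a := hu.mono fun n hn a ha => by
    obtain ⟨α, -, h1, -, h3⟩ := hn a ha
    exact ⟨_, h1, h3⟩
  obtain ⟨n₀, h0⟩ := hu.exists
  obtain ⟨μ, h1, h2, h3⟩ := lat_minpoly (v := 1 - u) (fr_fg_map θ.toAddMonoidHom (piece_fg n₀))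
    (fun e => (step_ell_pow y₀ n₀).2 (by
      have : θ (ell y₀ ^ n₀) ∈ (⊥ : AddSubgroup K) := e ▸ ⟨_, (step_ell_pow y₀ n₀).1, rfl⟩
      rw [(map_eq_zero_iff _ hθ).1 this]; exact zero_mem _)) (by
      rintro _ ⟨a, ha, rfl⟩
      obtain ⟨α, k1, -, -, k3⟩ := h0 a ha
      exact ⟨a - α, sub_mem ha k1, by
        change θ (a - α) = (1 - u) * θ a
        rw [map_sub, k3]; ring⟩)
  refine ⟨(μ.map (Int.castRingHom (ZMod p))).natTrailingDegree / μ.natDegree, fun W hW I hI => ?_⟩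
  obtain ⟨α₀, -, -, -, e0⟩ := h0 _ (step_ell_pow W n₀).1
  have e1 : θ (ell W ^ n₀ - α₀) = (1 - u) * θ (ell W ^ n₀) := by rw [map_sub, e0]; ring
  have e2 : th W (ell W ^ n₀) = 1 := by rw [map_pow, th_ell, one_pow]
  have h4 := root_th hθ h3 (th W) e2 e1
  generalize ell W ^ n₀ - α₀ = b₀ at e1 h4
  have hp := md_span_hom (md_natCast_mem (𝒜 := 𝒜) p)
  have l1 : Ev 𝒜 (J' * (J * I)) (Ideal.span {(p : A)} * I) := ev_of_loc (by
    rw [← mul_assoc, mul_comm J']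
    exact hsub.mul (loc_of_le le_rfl) (hJ.mul hJ') hI)
  have l2 : Ev 𝒜 (Ideal.span {(p : A)} * I) (J * I) := ev_of_loc
    ((hsup.trans (loc_of_le Ideal.mul_le_left)).mul (loc_of_le le_rfl) hp hI)
  filter_upwards [hu, ev_mul_into hθ hv I, ev_mul_into hθ hu' (J * I), l1, l2]
    with n k1 k2 k3 k4 k5
  have A1 : ∀ a ∈ 𝒜 n, ∀ α, θ α = u * θ a → th W (a - α) = th W b₀ * th W a := fun a _ α e => by
    have : (a - α) * ell W ^ n₀ = b₀ * a := hθ (by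
      rw [map_mul, map_mul, e1, map_sub, e]; ring)
    rw [← map_mul, ← this, map_mul, e2, mul_one]
  have A2 : ∀ z ∈ Ltc W I n, th W b₀ * z ∈ Ltc W (J * I) n := fun z hz => by
    obtain ⟨a, m1, m2, rfl⟩ := mem_Ltc.1 hz
    obtain ⟨α, m3, -, -, m4⟩ := k1 a m2
    exact mem_Ltc.2 ⟨a - α, k2 a m1 m2 _ (sub_mem m2 m3) (by rw [map_sub, m4]; ring),
      sub_mem m2 m3, A1 a m2 α m4⟩
  have A3 : ∀ z ∈ Ltc W (J * I) n, ∃ w ∈ Ltc W I n, z = p * w + th W b₀ * z := fun z hz => by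
    obtain ⟨a, m1, m2, rfl⟩ := mem_Ltc.1 hz
    obtain ⟨α, m3, -, -, m4⟩ := k1 a m2
    obtain ⟨w, m5, m6, m7⟩ := hom_p_mul hI m3 (k4 α m3 (k3 a m1 m2 α m3 m4))
    refine ⟨_, mem_Ltc.2 ⟨w, m5, m6, rfl⟩, ?_⟩
    rw [← A1 a m2 α m4, m7, map_sub, map_mul, map_natCast]
    ring
  have A4 := Ltc_mono W (Ideal.mul_le_right : J * I ≤ I) n
  refine lat_index (Ltc_fg W I n) (fun z hz => A4 (A2 z hz)) (fun z hz => ?_) (fun z _ => ?_)
    h1 h2 h4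
  · obtain ⟨w, m1, m2⟩ := A3 _ (A2 z hz)
    exact ⟨-w, neg_mem m1, by linear_combination -m2⟩
  · refine ⟨fun hz => ?_, ?_⟩
    · obtain ⟨w, m1, m2⟩ := A3 z hz
      exact ⟨w, m1, z, A4 hz, m2⟩
    · rintro ⟨a, ha, b, hb, rfl⟩
      refine add_mem ?_ (A2 b hb)
      obtain ⟨c, m1, m2, rfl⟩ := mem_Ltc.1 ha
      have m3 : (p : A) * c ∈ 𝒜 n := by
        simpa using SetLike.mul_mem_graded (md_natCast_mem (𝒜 := 𝒜) p) m2
      exact mem_Ltc.2 ⟨p * c, k5 _ m3 (Ideal.mul_mem_mul (Ideal.mem_span_singleton_self _) m1), m3,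
        by rw [map_mul, map_natCast]⟩

theorem exists_lam [CharZero A] {J J' : Ideal A}
    (hJ : J.IsHomogeneous 𝒜) (hJ' : J'.IsHomogeneous 𝒜) (hdis : ∀ y : Pt 𝒜, J ≤ pr y → ¬J' ≤ pr y)
    (hsub : Loc 𝒜 (J * J') (Ideal.span {(p : A)})) (hsup : Loc 𝒜 (Ideal.span {(p : A)}) (J * J')) :
    ∃ lam : ℚ, ∀ W : Pt 𝒜, CharZero (kap W) → ∀ I : Ideal A, I.IsHomogeneous 𝒜 →
      ∀ᶠ n in atTop, Real.log ((Ltc W (J * I) n).relIndex (Ltc W I n)) =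
        (lam * Module.finrank ℤ (Ltc W I n) : ℚ) * Real.log p := by
  rcases isEmpty_or_nonempty (Pt 𝒜) with h | ⟨⟨y₀⟩⟩
  · exact ⟨0, fun W => isEmptyElim W⟩
  obtain ⟨u, hu⟩ := exists_idem y₀ hJ hJ' hdis hsub hsup
  have : CharZero (FractionRing A) :=
    charZero_of_injective_algebraMap (IsFractionRing.injective A (FractionRing A))
  exact lam_gen (IsFractionRing.injective A (FractionRing A)) y₀ hJ hJ' hsub hsup hu

end

end Pool.Agent.Lib.MP_62d77c_ag
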