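import Pool.Agent.Lib.MP_62d77c_ag.End.Fib0
import Pool.Agent.Lib.MP_62d77c_ag.DimC

/-! Dimensions on the generic fibre. -/

set_option autoImplicit false
set_option linter.unusedSectionVars false

namespace Pool.Agent.Lib.MP_62d77c_ag

open Filter Polynomial Submodule

noncomputable section

/-- transcendence degree over the integers -/
def tz (R : Type) [CommRing R] : Cardinal := Algebra.trdeg ℤ R

theorem tz_add (R S : Type) [CommRing R] [CharZero R] [CommRing S] [IsDomain S] [Algebra R S]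
    [FaithfulSMul R S] : tz R + Algebra.trdeg R S = tz S := trdeg_add_eq ℤ R

theorem tz_equiv {R S : Type} [CommRing R] [CommRing S] (e : R ≃+* S) : tz R = tz S :=
  e.toIntAlgEquiv.trdeg_eq

theorem tz_zero (K : Type) [Field K] [CharZero K] (h : Function.Surjective (algebraMap ℚ K)) :
    tz K = 0 := by
  have : Algebra.IsAlgebraic ℤ K := ⟨fun z => by
    obtain ⟨c, rfl⟩ := h z
    exact (IsLocalization.isAlgebraic ℚ (nonZeroDivisors ℤ)).1 c |>.algebraMap⟩
  exact trdeg_eq_zero

theorem tz_field (K : Type) [Field K] [CharZero K] :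
    tz K = Algebra.trdeg (⊥ : Subfield K) K := by
  rw [← tz_add (⊥ : Subfield K) K, tz_zero, zero_add]
  intro z
  obtain ⟨c, hc⟩ : z.1 ∈ (algebraMap ℚ K).fieldRange :=
    Subfield.bot_eq_of_charZero (K := K) ▸ z.2
  exact ⟨c, Subtype.ext (by rw [← hc]; simp)⟩

theorem tr_drop {B B' : Type} [CommRing B] [IsDomain B] [CommRing B'] [IsDomain B'] [CharZero B']
    (φ : B →+* B') (hφ : Function.Surjective φ) {f : B} (hf : f ≠ 0) (h0 : φ f = 0) :
    tz B' + 1 ≤ tz B := by
  obtain ⟨t, ht⟩ := exists_isTranscendenceBasis ℤ B'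
  choose w hw using fun i : t => hφ i
  have key : ∀ P : MvPolynomial t ℤ, φ (MvPolynomial.aeval w P) = 0 → P = 0 := fun P hP => by
    refine algebraicIndependent_iff.1 ht.1 P ?_
    rw [← hP, ← AlgHom.coe_toRingHom (MvPolynomial.aeval w), ← RingHom.comp_apply]
    exact DFunLike.congr_fun (MvPolynomial.ringHom_ext' (f := (MvPolynomial.aeval
      (Subtype.val : t → B') : MvPolynomial t ℤ →ₐ[ℤ] B').toRingHom) (RingHom.ext_int _ _)
      fun i => by simp [hw]) P
  have h1 : AlgebraicIndependent ℤ w :=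
    algebraicIndependent_iff.2 fun P hP => key P (by rw [hP, map_zero])
  have h2 : Transcendental (Algebra.adjoin ℤ (Set.range w)) f := fun ha => by
    obtain ⟨⟨r, hr⟩, r0, c, hc⟩ := ha.exists_nonzero_dvd (mem_nonZeroDivisors_of_ne_zero hf)
    rw [Algebra.adjoin_range_eq_range_aeval] at hr
    obtain ⟨P, rfl⟩ := hr
    have e : MvPolynomial.aeval w P = f * c := hc
    have := key P (by rw [e, map_mul, h0, zero_mul])
    exact r0 (Subtype.ext (by simp [this]))
  have h3 := ((h1.option_iff_transcendental f).2 h2).cardinalMk_le_trdeg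
  rwa [Cardinal.mk_option, ht.cardinalMk_eq_trdeg] at h3

variable {A : Type} [CommRing A] [IsDomain A] {𝒜 : ℕ → AddSubgroup A} [GradedRing 𝒜]
  [hG : Fact (Gen 𝒜)] {p : ℕ} [Fact p.Prime]

theorem natCast_not_mem {x : Pt 𝒜} (hx : CharZero (kap x)) {r : ℕ} (hr : r ≠ 0) :
    (r : A) ∉ pr x := fun h => not_charZero_of_mem x hr h hx

theorem charZero_of_le {x y : Pt 𝒜} (hy : CharZero (kap y)) (h : pr x ≤ pr y) :
    CharZero (kap x) := by
  by_contra hc
  obtain ⟨q, hq, h1⟩ := exists_prime_of_not_charZero x hc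
  exact natCast_not_mem hy hq.ne_zero (h h1)

theorem charZero_quot {x : Pt 𝒜} (hx : CharZero (kap x)) : CharZero (A ⧸ pr x) := by
  have := x.isPrime
  refine charZero_of_inj_zero fun n hn => ?_
  by_contra h
  exact natCast_not_mem hx h (Ideal.Quotient.eq_zero_iff_mem.1 (by simpa using hn))

theorem tr_int {x : Pt 𝒜} (hx : CharZero (kap x)) : tz (kap x) = tr x := tz_field _

theorem tr_cone {x : Pt 𝒜} (hx : CharZero (kap x)) : tz (A ⧸ pr x) = tr x + 1 := by
  have := x.isPrime
  have := charZero_quot hx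
  obtain ⟨θ, h1, h2⟩ := dimc_cone x
  let φ : A ⧸ pr x →+* (kap x)[X] := Ideal.Quotient.lift _ θ fun a ha => (h2 a).2 ha
  have hφ : Function.Injective φ := (injective_iff_map_eq_zero φ).2 fun z hz => by
    obtain ⟨a, rfl⟩ := Ideal.Quotient.mk_surjective z
    exact Ideal.Quotient.eq_zero_iff_mem.2 ((h2 a).1 hz)
  let := φ.toAlgebra
  have : FaithfulSMul (A ⧸ pr x) (kap x)[X] :=
    (faithfulSMul_iff_algebraMap_injective _ _).2 hφ
  have ha : ∀ a : A, IsAlgebraic (A ⧸ pr x) (θ a) := fun a =>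
    isAlgebraic_algebraMap (Ideal.Quotient.mk (pr x) a)
  have hC : ∀ z : kap x, IsAlgebraic (A ⧸ pr x) (C z : (kap x)[X]) := fun z => by
    obtain ⟨n, a, ha', b, hb, hb', rfl⟩ := th_gen x z
    have b0 : th x b ≠ 0 := fun e => hb' ((th_eq_zero x hb).1 e)
    refine IsAlgebraic.of_mul (y := θ b)
      (mem_nonZeroDivisors_of_ne_zero fun e => hb' ((h2 b).1 e)) (ha b) ?_
    have : θ b * C (th x a / th x b) = θ a := by
      rw [h1 n b hb, h1 n a ha', monomial_mul_C, mul_div_cancel₀ _ b0]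
    rw [this]
    exact ha a
  have hX : IsAlgebraic (A ⧸ pr x) (X : (kap x)[X]) := by
    have := ha (ell x)
    rwa [h1 1 _ (ell_spec x).1, th_ell] at this
  have : Algebra.IsAlgebraic (A ⧸ pr x) (kap x)[X] := ⟨fun P => by
    induction P using Polynomial.induction_on' with
    | add P Q h3 h4 => exact h3.add h4
    | monomial n z =>
      rw [← C_mul_X_pow_eq_monomial]
      exact (hC z).mul (hX.pow n)⟩
  have e1 := tz_add (A ⧸ pr x) (kap x)[X]
  have e2 := tz_add (kap x) (kap x)[X]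
  rw [trdeg_eq_zero, add_zero] at e1
  rw [e1, ← e2, Polynomial.trdeg_of_isDomain, tr_int hx]

theorem tr_succ_le {x y : Pt 𝒜} (hy : CharZero (kap y)) (h : pr x < pr y) :
    tr y + 1 ≤ tr x := by
  have := x.isPrime
  have := y.isPrime
  have := charZero_quot hy
  obtain ⟨f, hf, hf'⟩ := SetLike.exists_of_lt h
  have h1 := tr_drop (Ideal.Quotient.factor h.le) (Ideal.Quotient.factor_surjective h.le)
    (f := Ideal.Quotient.mk _ f) (fun e => hf' (Ideal.Quotient.eq_zero_iff_mem.1 e))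
    (Ideal.Quotient.eq_zero_iff_mem.2 hf)
  rwa [tr_cone hy, tr_cone (charZero_of_le hy h.le), Cardinal.add_one_le_add_one_iff] at h1

variable {d : ℕ}

theorem tr_bot (hdim : Algebra.trdeg ℤ A = d + 1) {x : Pt 𝒜} (hx : CharZero (kap x))
    (h : pr x = ⊥) : tr x = d := by
  have e := tz_equiv ((Ideal.quotEquivOfEq h).trans (RingEquiv.quotientBot A))
  rw [tr_cone hx, show tz A = _ from hdim] at e
  exact (Cardinal.add_one_inj).1 e

theorem tr_succ_le_d (hdim : Algebra.trdeg ℤ A = d + 1) {x : Pt 𝒜} (hx : CharZero (kap x))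
    (h : pr x ≠ ⊥) : tr x + 1 ≤ d := by
  have := x.isPrime
  have := charZero_quot hx
  obtain ⟨f, hf, hf'⟩ := Submodule.exists_mem_ne_zero_of_ne_bot h
  have h1 := tr_drop (Ideal.Quotient.mk (pr x)) Ideal.Quotient.mk_surjective hf'
    (Ideal.Quotient.eq_zero_iff_mem.2 hf)
  rwa [tr_cone hx, show tz A = _ from hdim, Cardinal.add_one_le_add_one_iff] at h1

/-- the dimension of a subvariety of the generic fibre -/
def trn (x : Pt 𝒜) : ℕ := (tr x).toNat

theorem tr_eq_trn (hdim : Algebra.trdeg ℤ A = d + 1) {x : Pt 𝒜} (hx : CharZero (kap x)) :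
    tr x = trn x := by
  refine (Cardinal.cast_toNat_of_lt_aleph0 (lt_of_le_of_lt ?_ (Cardinal.natCast_lt_aleph0 (n := d)))).symm
  by_cases h : pr x = ⊥
  · exact (tr_bot hdim hx h).le
  · exact le_self_add.trans (tr_succ_le_d hdim hx h)

theorem trn_lt (hdim : Algebra.trdeg ℤ A = d + 1) {x y : Pt 𝒜} (hy : CharZero (kap y))
    (h : pr x < pr y) : trn y < trn x := by
  have := tr_succ_le hy h
  rw [tr_eq_trn hdim hy, tr_eq_trn hdim (charZero_of_le hy h.le)] at this
  exact_mod_cast this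

theorem trn_lt_d (hdim : Algebra.trdeg ℤ A = d + 1) {x : Pt 𝒜} (hx : CharZero (kap x))
    (h : pr x ≠ ⊥) : trn x < d := by
  have := tr_succ_le_d hdim hx h
  rw [tr_eq_trn hdim hx] at this
  exact_mod_cast this

/-- prime divisors of the generic fibre are Cartier divisors on a regular model -/
theorem lp_horiz (hr : Reg 𝒜) (hdim : Algebra.trdeg ℤ A = d + 1) {x : Pt 𝒜}
    (hx : CharZero (kap x)) (h : trn x + 1 = d) : (MX 𝒜).LP (pr x) := by
  intro y hy
  by_cases hxy : pr x ≤ pr y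
  swap
  · obtain ⟨n, a, ha, han, hay⟩ := fibre_exists_hom (pr_hom x) hxy
    exact ⟨n, a, (MX 𝒜).genI_of_not_mem hy ha han hay⟩
  have h0 : ¬pr x ≤ ⊥ := fun e => by
    have := tr_bot hdim hx (le_bot_iff.1 e)
    rw [tr_eq_trn hdim hx] at this
    have : trn x = d := by exact_mod_cast this
    omega
  obtain ⟨e, f, hf, hfe, hf0⟩ := fibre_exists_hom (pr_hom x) h0
  obtain ⟨y', -, h1, n, g, hg⟩ := dim_exists_prime (MX 𝒜) hy (on_MX x) hxy (hr.ufd y)
    (ell_spec y).1 (ell_spec y).2 hf hfe fun k =>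
      hf0 ((FaithfulSMul.algebraMap_eq_zero_iff A (FractionRing A)).1 k)
  have h3 : pr y' = pr x := by
    by_contra hc
    have h4 := trn_lt hdim hx (lt_of_le_of_ne h1 hc)
    have h5 := trn_lt_d hdim (charZero_of_le hx h1) fun k =>
      step_gen_ne hg (by simpa [k] using hg.1)
    omega
  exact ⟨n, g, h3 ▸ hg⟩

end

end Pool.Agent.Lib.MP_62d77c_ag
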