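import Pool.Agent.Lib.MP_62d77c_ag.End.Pts
import Pool.Agent.Lib.MP_62d77c_ag.LA

/-! Zariski's lemma for the components of a fibre. -/

set_option autoImplicit false
set_option linter.unusedSectionVars false

namespace Pool.Agent.Lib.MP_62d77c_ag

open Filter Polynomial Submodule

noncomputable section

theorem zar_max {J : Type} [Fintype J] (Z : J → J → ℚ) (m : J → ℚ) (hm : ∀ j, 0 < m j)
    (R : J → J → Prop) (hR : ∀ l j, R l j → R j l) (h0 : ∀ l j, j ≠ l → ¬R l j → Z l j = 0)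
    (h1 : ∀ l j, j ≠ l → R l j → 0 < Z l j) (hrel : ∀ l, ∑ j, m j * Z l j = 0) (a : J → ℚ)
    (ha : ∀ l, ∑ j, a j * Z l j = 0) (l j : J) (h : R l j) : a l / m l = a j / m j := by
  classical
  by_contra hc
  obtain ⟨l, hl, hmax⟩ := (Finset.univ.filter fun l => ∃ j, R l j ∧ a l / m l ≠ a j / m j).exists_max_image
    (fun l => a l / m l) ⟨l, by simpa using ⟨j, h, hc⟩⟩
  obtain ⟨j, k1, k2⟩ := (Finset.mem_filter.1 hl).2
  have hle : ∀ k, R l k → a k / m k ≤ a l / m l := fun k hk => by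
    by_contra e
    exact e (hmax k (by simpa using ⟨l, hR _ _ hk, fun e' => e e'.le⟩))
  have e1 : ∀ k, (a l / m l * m k - a k) = (a l / m l - a k / m k) * m k := fun k => by
    have := (hm k).ne'
    field_simp
  have hs : ∑ k, (a l / m l * m k - a k) * Z l k = 0 := by
    simp only [sub_mul, Finset.sum_sub_distrib, mul_assoc, ← Finset.mul_sum, hrel, ha, mul_zero,
      sub_zero]
  have hnn : ∀ k ∈ Finset.univ, 0 ≤ (a l / m l * m k - a k) * Z l k := fun k _ => by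
    rw [e1]
    by_cases e : k = l
    · rw [e, sub_self, zero_mul, zero_mul]
    by_cases r : R l k
    · exact mul_nonneg (mul_nonneg (sub_nonneg.2 (hle k r)) (hm k).le) (h1 l k e r).le
    · rw [h0 l k e r, mul_zero]
  have := (Finset.sum_eq_zero_iff_of_nonneg hnn).1 hs j (Finset.mem_univ j)
  have e : j ≠ l := fun e => k2 (by rw [e])
  rw [e1, mul_eq_zero, mul_eq_zero, sub_eq_zero] at this
  rcases this with (e' | e') | e'
  exacts [k2 e', (hm j).ne' e', (h1 l j e k1).ne' e']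

variable {A : Type} [CommRing A] [IsDomain A] {𝒜 : ℕ → AddSubgroup A} [GradedRing 𝒜]
  [hG : Fact (Gen 𝒜)] {p : ℕ} [Fact p.Prime]

theorem Phi_irr (x : Vp 𝒜 p) {𝔮 : Ideal A} (h : 𝔮.IsHomogeneous 𝒜) (hirr : ∀ a ∈ 𝒜 1, a ∈ 𝔮) :
    Phi x 𝔮 = 0 :=
  Phi_irrelevant x h fun y _ hy => (ell_spec y).2 (hy (hirr _ (ell_spec y).1))

theorem Phi_swap (x y : Vp 𝒜 p) (E : Pic (MX 𝒜).V) :
    Phi x (pr y.1) ((MX 𝒜).rho x E) = Phi y (pr x.1) ((MX 𝒜).rho y E) := by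
  have h' := (pr_hom y.1).sup (pr_hom x.1)
  obtain ⟨l, hl⟩ := exists_filt h'
  rw [← Phi_sup x (pr_hom _), ← Phi_sup y (pr_hom _), sup_comm (pr x.1),
    Phi_filt x h' le_sup_right hl, Phi_filt y h' le_sup_left hl]
  congr 1
  refine List.map_congr_left fun q hq => ?_
  obtain ⟨h1, h2, h3⟩ := hl.mem h' q hq
  rcases exists_pt h1 h2 with h4 | ⟨w, hw⟩
  · rw [Phi_irr x h2 h4, Phi_irr y h2 h4]; rfl
  · rw [← hw] at h3 ⊢
    have h5 : pr x.1 ≤ pr w := le_sup_right.trans h3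
    obtain ⟨w, rfl⟩ : ∃ y' : Vp 𝒜 p, y'.1 = w := ⟨⟨w, h5 x.2⟩, rfl⟩
    rw [Phi_pt h5, Phi_pt (le_sup_left.trans h3), AM.rho_rho _ (on_MX _) h5,
      AM.rho_rho _ (on_MX _) (le_sup_left.trans h3)]

theorem Phi_rho (w : Vp 𝒜 p) {𝔞 : Ideal A} (ha : 𝔞.IsHomogeneous 𝒜) {D : Car (MX 𝒜).V}
    (hD : IsCl D ((MX 𝒜).fam 𝔞)) (hn : ¬𝔞 ≤ pr w.1) :
    Phi w 𝔞 = fun E => -dl ((MX 𝒜).rho w (cl D)) (PP (Mp w).V) E := by
  obtain ⟨D', h1, h2⟩ := (MX 𝒜).rho_isCl (on_MX w.1) ha hD hn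
  funext E
  rw [Phi_isCl w h1, h2]

theorem Filt.exists_le {𝔞 : Ideal A} {l : List (Ideal A × ℕ)} (h : Filt 𝒜 𝔞 l) {y : Pt 𝒜}
    (hy : 𝔞 ≤ pr y) : ∃ q ∈ l, q.1 ≤ pr y := by
  induction h with
  | top => exact absurd (top_le_iff.1 hy) y.isPrime.ne_top
  | step 𝔞 f a l hf hp _ ih =>
    by_cases e : f ∈ pr y
    · obtain ⟨q, h1, h2⟩ := ih (sup_le hy ((Ideal.span_singleton_le_iff_mem _).2 e))
      exact ⟨q, List.mem_cons_of_mem _ h1, h2⟩
    · exact ⟨_, List.mem_cons_self, fun c hc => (y.isPrime.mem_or_mem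
        (hy (Submodule.mem_colon_singleton.1 hc))).resolve_right e⟩

theorem dm_anti {x y : Vp 𝒜 p} (h : pr x.1 ≤ pr y.1) : dm y ≤ dm x := by
  rcases h.lt_or_eq with e | e
  · exact (dm_lt e).le
  · rw [Subtype.ext (pr_inj e)]

/-- the top coefficient is positive -/
theorem Phi_top (x : Vp 𝒜 p) {𝔞 : Ideal A} (h : 𝔞.IsHomogeneous 𝒜) {s : ℕ}
    (hs : ∀ y : Vp 𝒜 p, pr x.1 ≤ pr y.1 → 𝔞 ≤ pr y.1 → dm y ≤ s) :
    0 ≤ (Phi x 𝔞 1).coeff s ∧ ((Phi x 𝔞 1).coeff s = 0 →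
      ∀ y : Vp 𝒜 p, pr x.1 ≤ pr y.1 → 𝔞 ≤ pr y.1 → dm y < s) := by
  have h' := h.sup (pr_hom x.1)
  obtain ⟨l, hl⟩ := exists_filt h'
  have key : ∀ q ∈ l, 0 ≤ ((Phi x q.1 1).comp (X - C (q.2 : ℚ))).coeff s ∧
      (((Phi x q.1 1).comp (X - C (q.2 : ℚ))).coeff s = 0 →
        ∀ y : Vp 𝒜 p, q.1 ≤ pr y.1 → dm y < s) := fun q hq => by
    obtain ⟨h1, h2, h3⟩ := hl.mem h' q hq
    rcases exists_pt h1 h2 with h4 | ⟨w, hw⟩
    · rw [Phi_irr x h2 h4]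
      exact ⟨by simp, fun _ y hy => absurd (hy (h4 _ (ell_spec y.1).1)) (ell_spec y.1).2⟩
    · rw [← hw] at h3 ⊢
      have h5 : pr x.1 ≤ pr w := le_sup_right.trans h3
      obtain ⟨w, rfl⟩ : ∃ y' : Vp 𝒜 p, y'.1 = w := ⟨⟨w, h5 x.2⟩, rfl⟩
      have h6 := hs w h5 (le_sup_left.trans h3)
      have h7 := (snapper (mdl_Mp w)).mem ((Mp x).rho w 1)
      rw [Phi_pt h5, sub_eq_add_neg, ← C_neg,
        coeff_comp_top (degreeLT_le (Nat.succ_le_succ h6) h7)]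
      rcases h6.lt_or_eq with e | e
      · exact ⟨(coeff_eq_zero_of_mem_degreeLT h7 e).ge, fun _ y hy => (dm_anti hy).trans_lt e⟩
      · have := (PP_lead (mdl_Mp w) ((Mp x).rho w 1)).2.1
        rw [show dimV (Mp w).V = s from e] at this
        exact ⟨this.le, fun e' => absurd e' this.ne'⟩
  have e : (Phi x 𝔞 1).coeff s =
      (l.map fun q => ((Phi x q.1 1).comp (X - C (q.2 : ℚ))).coeff s).sum := by
    rw [← Phi_sup x h, Phi_filt x h' le_sup_right hl, ← lcoeff_apply, map_list_sum, List.map_map]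
    rfl
  have hnn : ∀ t ∈ l.map fun q => ((Phi x q.1 1).comp (X - C (q.2 : ℚ))).coeff s, 0 ≤ t :=
    fun t ht => by
      obtain ⟨q, hq, rfl⟩ := List.mem_map.1 ht
      exact (key q hq).1
  rw [e]
  refine ⟨List.sum_nonneg hnn, fun h0 y h1 h2 => ?_⟩
  obtain ⟨q, hq, h3⟩ := hl.exists_le (sup_le h2 h1)
  refine (key q hq).2 (le_antisymm ?_ (key q hq).1) y h3
  exact h0 ▸ List.single_le_sum hnn _ (List.mem_map.2 ⟨q, hq, rfl⟩)

/-- an effective Cartier divisor of degree zero is empty -/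
theorem deg_pos (x : Vp 𝒜 p) {𝔞 : Ideal A} (h : 𝔞.IsHomogeneous 𝒜) {D : Car (MX 𝒜).V}
    (hD : IsCl D ((MX 𝒜).fam 𝔞)) (hn : ¬𝔞 ≤ pr x.1) {y : Pt 𝒜} (h1 : pr x.1 ≤ pr y)
    (h2 : 𝔞 ≤ pr y) : 0 < -lin (dm x - 1) (PP (Mp x).V) ((MX 𝒜).rho x (cl D)) := by
  have e := Phi_rho x h hD hn
  have hlt : ∀ y : Vp 𝒜 p, pr x.1 ≤ pr y.1 → 𝔞 ≤ pr y.1 → dm y < dm x := fun y k1 k2 =>
    dm_lt (lt_of_le_of_ne k1 fun e' => hn (e' ▸ k2))
  obtain ⟨k1, k2⟩ := Phi_top x h (s := dm x - 1) fun y a b => by have := hlt y a b; omega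
  have e1 : (Phi x 𝔞 1).coeff (dm x - 1) =
      -lin (dm x - 1) (PP (Mp x).V) ((MX 𝒜).rho x (cl D)) := by rw [e, coeff_neg]; rfl
  rw [← e1]
  refine lt_of_le_of_ne k1 fun h0 => ?_
  have h3 := (lev_Phi x h (k2 h0.symm)).neg
  simp only [e, neg_neg] at h3
  have h4 : NT (Mp x).V ((MX 𝒜).rho x (cl D)) :=
    ⟨fun _ => neg_eq_zero.1 (e1.symm.trans h0.symm), fun k =>
      lin_eq_zero (h3.mono (show dm x - 1 ≤ dm x - 2 + 1 by omega)) _⟩
  have h5 : Phi x 𝔞 1 = 0 := by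
    rw [e]
    simp only [dl, (numtriv (mdl_Mp x) h4).1, sub_self, neg_zero]
  have : ∀ s, (∀ y : Vp 𝒜 p, pr x.1 ≤ pr y.1 → 𝔞 ≤ pr y.1 → dm y < s) → False := fun s => by
    induction s with
    | zero => exact fun hs => absurd (hs ⟨y, h1 x.2⟩ h1 h2) (Nat.not_lt_zero _)
    | succ s ih =>
      exact fun hs => ih ((Phi_top x h fun y a b => Nat.lt_succ_iff.1 (hs y a b)).2 (by
        rw [h5, coeff_zero]))
  exact this _ hlt

omit hG [GradedRing 𝒜] in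
theorem colon_prime {𝔮 : Ideal A} (hq : 𝔮.IsPrime) {f : A} (hn : f ∉ 𝔮) : 𝔮.colon {f} = 𝔮 := by
  ext x
  rw [Submodule.mem_colon_singleton, smul_eq_mul]
  exact ⟨fun h => (hq.mem_or_mem h).resolve_right hn, fun h => 𝔮.mul_mem_right _ h⟩

/-- degree zero on all curves gives degree zero on all subvarieties -/
theorem cut_curves {E : Pic (MX 𝒜).V}
    (h : ∀ q : Vp 𝒜 p, dm q = 1 → lin 0 (PP (Mp q).V) ((MX 𝒜).rho q E) = 0) (s : ℕ) (w : Vp 𝒜 p)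
    (hw : dm w ≤ s + 1) : lin s (PP (Mp w).V) ((MX 𝒜).rho w E) = 0 := by
  induction s generalizing w with
  | zero =>
    by_cases h2 : dm w = 1
    · exact h w h2
    · exact lin_eq_zero ((snapper (mdl_Mp w)).mono (show dm w + 1 ≤ 1 by omega)) _
  | succ s ih =>
    obtain ⟨hf, hn⟩ := ell_spec w.1
    have hh : (pr w.1 ⊔ Ideal.span {ell w.1}).IsHomogeneous 𝒜 :=
      (pr_hom w.1).sup (span_hom_single hf)
    obtain ⟨l, hl⟩ := exists_filt hh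
    have e1 := lin_sub_shift ((snapper (mdl_Mp w)).mono (show dm w + 1 ≤ s + 3 by omega))
      ((1 : ℕ) : ℚ) ((MX 𝒜).rho w E)
    have e2 : ∀ D, PP (Mp w).V D - (PP (Mp w).V D).comp (X - C ((1 : ℕ) : ℚ)) =
        (l.map fun q => (Phi w q.1 D).comp (X - C (q.2 : ℚ))).sum := fun D => by
      have := Phi_step w (pr_hom w.1) le_rfl hf D
      rw [colon_prime w.1.isPrime hn, Phi_self, Phi_filt w hh le_sup_left hl] at this
      exact sub_eq_of_eq_add' this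
    simp only [e2] at e1
    rw [lin_list_sum l fun q D => (Phi w q.1 D).comp (X - C (q.2 : ℚ)), List.sum_eq_zero] at e1
    · exact (mul_eq_zero.1 e1.symm).resolve_left (by positivity)
    intro t ht
    obtain ⟨q, hq, rfl⟩ := List.mem_map.1 ht
    obtain ⟨h1, h2, h3⟩ := hl.mem hh q hq
    rcases exists_pt h1 h2 with h4 | ⟨y, hy⟩
    · rw [Phi_irr w h2 h4]; simp [lin, dl]
    · rw [← hy] at h3 ⊢
      have h5 : pr w.1 ≤ pr y := le_sup_left.trans h3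
      obtain ⟨y, rfl⟩ : ∃ y' : Vp 𝒜 p, y'.1 = y := ⟨⟨y, h5 w.2⟩, rfl⟩
      have : dm y < dm w := dm_lt (lt_of_le_of_ne h5 fun e => hn
        (e ▸ h3 (Ideal.mem_sup_right (Ideal.mem_span_singleton_self _))))
      rw [funext (Phi_pt h5), lin_shift (((snapper (mdl_Mp y)).mono
        (show dm y + 1 ≤ s + 2 by omega)).comp _), lin_comp (PP (Mp y).V),
        AM.rho_rho _ (on_MX _) h5]
      exact ih y (by omega)

theorem ad_lin (w : Vp 𝒜 p) {f : Pic (Mp w).V → ℚ[X]} {s : ℕ} (h : Lev (s + 2) f) :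
    LA_Ad fun E : Pic (MX 𝒜).V => lin s f ((MX 𝒜).rho w E) := fun x y => by
  simp only [map_mul, lin_mul h]

variable {m : Comp 𝒜 p → ℕ} {I : Comp 𝒜 p → Car (MX 𝒜).V}

theorem comp_ne {j l : Comp 𝒜 p} (h : j ≠ l) : ¬cI j ≤ cI l := fun e =>
  h (Subtype.ext (l.2 j.1 e))

theorem Fib0.PV_eq (h : Fib0 m I) (j : Comp 𝒜 p) (w : Vp 𝒜 p) (E : Pic (MX 𝒜).V) :
    PV j.1 (CC I j) (pr w.1) ((MX 𝒜).rho j.1 E) =
      -dl ((MX 𝒜).rho w (cl (I j))) (PP (Mp w).V) ((MX 𝒜).rho w E) := by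
  by_cases hle : pr j.1.1 ≤ pr w.1
  · rw [PV, if_pos hle, Phi_pt hle, Phi_pt hle, map_mul, CC, AM.rho_rho _ (on_MX _) hle,
      AM.rho_rho _ (on_MX _) hle, dl, neg_sub]
  · rw [PV, if_neg hle, sub_zero, Phi_swap, Phi_rho w (pr_hom _) (h.isCl j) hle]

theorem Fib0.ad_rel (h : Fib0 m I) {f : Pic (MX 𝒜).V → ℚ} (hf : LA_Ad f) :
    ∑ j, (m j : ℚ) * f (cl (I j)) = 0 := by
  rw [← hf.one, ← h.rel, hf.prod]
  exact Finset.sum_congr rfl fun j _ => (hf.pow _ _).symm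

/-- the intersection matrix of the components -/
def Zm (I : Comp 𝒜 p → Car (MX 𝒜).V) (s : ℕ) (l j : Comp 𝒜 p) : ℚ :=
  -lin s (PP (Mp l.1).V) ((MX 𝒜).rho l.1 (cl (I j)))

theorem Fib0.Zm_symm (h : Fib0 m I) (s : ℕ) (l j : Comp 𝒜 p) : Zm I s l j = Zm I s j l := by
  by_cases e : l = j
  · rw [e]
  have := Phi_swap l.1 j.1 1
  rw [Phi_rho l.1 (pr_hom _) (h.isCl j) (comp_ne (Ne.symm e)),
    Phi_rho j.1 (pr_hom _) (h.isCl l) (comp_ne e), map_one, map_one] at this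
  simp only [Zm, lin, neg_inj.1 this]

/-- Zariski's lemma -/
theorem Fib0.zariski (h : Fib0 m I) {s : ℕ} (hd : ∀ j : Comp 𝒜 p, dm j.1 = s + 1)
    {b : Comp 𝒜 p → ℚ} (hb : ∀ S : Finset (Comp 𝒜 p), Clop S → ∑ j ∈ S, m j * b j = 0)
    {a : Comp 𝒜 p → ℚ} (ha : ∀ l, ∑ j, a j * Zm I s l j = 0) : ∑ j, b j * a j = 0 := by
  classical
  have hm : ∀ j, (0 : ℚ) < m j := fun j => by exact_mod_cast h.pos j
  have key := zar_max (Zm I s) (fun j => m j) hm (fun l j => ∃ y : Pt 𝒜, cI l ≤ pr y ∧ cI j ≤ pr y)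
    (fun _ _ ⟨y, h1, h2⟩ => ⟨y, h2, h1⟩)
    (fun l j e hn => by
      have := Phi_rho l.1 (pr_hom _) (h.isCl j) (comp_ne e)
      rw [Phi_irrelevant l.1 (pr_hom _) fun y h1 h2 => hn ⟨y, h1, h2⟩] at this
      rw [Zm, lin, ← coeff_neg, ← congrFun this 1]; rfl)
    (fun l j e ⟨y, h1, h2⟩ => by
      have := deg_pos l.1 (pr_hom _) (h.isCl j) (comp_ne e) h1 h2
      rwa [hd l] at this)
    (fun l => by
      have := h.ad_rel (ad_lin l.1 (s := s) (by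
        have := snapper (mdl_Mp l.1)
        rwa [show dimV (Mp l.1).V = s + 1 from hd l] at this))
      simp only [Zm, mul_neg, Finset.sum_neg_distrib, this, neg_zero]) a ha
  rw [← Finset.sum_fiberwise_of_maps_to (g := fun j => a j / m j)
    (t := Finset.univ.image fun j => a j / m j) fun j hj => Finset.mem_image_of_mem _ hj]
  refine Finset.sum_eq_zero fun t _ => ?_
  have := hb (Finset.univ.filter fun j => a j / m j = t) fun j hj k hk y h1 h2 => hk (by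
    rw [Finset.mem_filter] at hj ⊢
    exact ⟨Finset.mem_univ _, (key j k ⟨y, h1, h2⟩).symm.trans hj.2⟩)
  rw [← mul_zero t, ← this, Finset.mul_sum]
  refine Finset.sum_congr rfl fun j hj => ?_
  rw [← (Finset.mem_filter.1 hj).2]
  have := (hm j).ne'
  field_simp

theorem Fib0.disj (h : Fib0 m I)
    (hp : ∀ y : Pt 𝒜, (p : loc y) ∉ IsLocalRing.maximalIdeal (loc y) ^ 2) (j₀ : Comp 𝒜 p) :
    Clop {j₀} := by
  classical
  intro j₁ hj k₀ hk y h1 h2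
  rw [Finset.mem_singleton.1 hj] at h1
  refine hp y ?_
  choose e g hg using fun j => h.lp j y (on_MX y)
  obtain ⟨n, n', b, hb, c, hc, hby, -, hn, e1⟩ := h.eqn ⟨y, h1 j₀.1.2⟩ e g hg
  have hl : ∀ i, ell y ^ i ∈ 𝒜 i := fun i => (step_ell_pow y i).1
  have hl' : ∀ i, ell y ^ i ∉ pr y := fun i => (step_ell_pow y i).2
  have hne : ∀ a, a ∉ pr y → (MX 𝒜).θ a ≠ 0 := fun a ha h0 =>
    ha (((FaithfulSMul.algebraMap_eq_zero_iff A (FractionRing A)).1 h0) ▸ zero_mem _)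
  let x : Comp 𝒜 p → loc y := fun j =>
    ⟨_, (MX 𝒜).div_mem_fr (T := (pr y).primeCompl) (hg j).2.1 (hl (e j)) (hl' _)⟩
  let u : loc y := ⟨_, (MX 𝒜).div_mem_fr (T := (pr y).primeCompl)
    (hn ▸ SetLike.mul_mem_graded hc (hl (∑ j : Comp 𝒜 p, m j * e j))) hb hby⟩
  have hx : ∀ j, cI j ≤ pr y → x j ^ m j ∈ IsLocalRing.maximalIdeal (loc y) := fun j hj =>
    Ideal.pow_mem_of_mem _ ((IsLocalRing.mem_maximalIdeal (x j)).2 fun hu =>
      ((MX 𝒜).isUnit_orng (on_MX y) (hg j).2.1 (hl (e j)) (hl' _)).1 hu (hj (hg j).1)) _ (h.pos j)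
  have e2 : (p : loc y) = u * ∏ j : Comp 𝒜 p, x j ^ m j := by
    refine Subtype.ext ?_
    have e3 := congrArg (MX 𝒜).θ e1
    simp only [map_mul, map_natCast, map_prod, map_pow] at e3
    have h1 := hne _ hby
    have h2 := hne _ (ell_spec y).2
    simp only [Subring.coe_natCast, Subring.coe_mul, SubmonoidClass.coe_finsetProd,
      SubmonoidClass.coe_pow, x, u, map_mul, map_pow, div_pow, Finset.prod_div_distrib,
      ← pow_mul, Finset.prod_pow_eq_pow_sum, mul_comm (e _)]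
    field_simp
    rw [← e3, mul_comm]
  rw [e2, ← Finset.mul_prod_erase _ _ (Finset.mem_univ j₀),
    ← Finset.mul_prod_erase _ _ (Finset.mem_erase.2
      ⟨fun e => hk (Finset.mem_singleton.2 e), Finset.mem_univ k₀⟩),
    ← mul_assoc (x _ ^ _), pow_two]
  exact Ideal.mul_mem_left _ _ (Ideal.mul_mem_right _ _ (Ideal.mul_mem_mul (hx _ h1) (hx _ h2)))

end

end Pool.Agent.Lib.MP_62d77c_ag
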