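import Pool.Agent.Lib.MP_62d77c_ag.End.Zar
import Pool.Agent.Lib.MP_62d77c_ag.End.IntC
import Pool.Agent.Lib.MP_62d77c_ag.Smooth

/-! Zero-cycles of degree zero on the generic fibre. -/

set_option autoImplicit false
set_option linter.unusedSectionVars false

namespace Pool.Agent.Lib.MP_62d77c_ag

open Filter Polynomial Submodule

noncomputable section

variable {A : Type} [CommRing A] [IsDomain A] {𝒜 : ℕ → AddSubgroup A} [GradedRing 𝒜]
  [hG : Fact (Gen 𝒜)] {d : ℕ}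

theorem orth_of {c : Pt 𝒜 →₀ ℚ} {z : Pt 𝒜} (v : Pt 𝒜 → ℚ) (r : ℝ)
    (h : ∀ x ∈ c.support, IsInt d x z ((v x : ℚ) * r)) (h0 : (c.sum fun x n => n * v x) = 0) :
    Orth d c z := by
  refine ⟨fun x => v x * r, h, ?_⟩
  have : (c.sum fun x n => (n : ℝ) * (v x * r)) = ((c.sum fun x n => n * v x : ℚ) : ℝ) * r := by
    unfold Finsupp.sum
    push_cast
    rw [Finset.sum_mul]
    exact Finset.sum_congr rfl fun W _ => by ring
  rw [this, h0]; simp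

theorem Orth.add_zero {c c' : Pt 𝒜 →₀ ℚ} {z : Pt 𝒜} (h : Orth d c z)
    (h' : ∀ x ∈ c'.support, IsInt d x z 0) : Orth d (c + c') z := by
  classical
  obtain ⟨v, h1, h2⟩ := h
  refine ⟨fun x => if x ∈ c.support then v x else 0, fun x hx => ?_, ?_⟩
  · beta_reduce
    split_ifs with e
    · exact h1 x e
    · exact h' x ((Finset.mem_union.1 (Finsupp.support_add hx)).resolve_left e)
  · rw [Finsupp.sum_add_index' (fun _ => by simp) fun _ _ _ => by push_cast; ring]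
    refine (congrArg₂ (· + ·) (Eq.trans ?_ h2) ?_).trans (_root_.add_zero 0)
    · exact Finset.sum_congr rfl fun x hx => by simp only [if_pos hx]
    · refine Finset.sum_eq_zero fun x hx => ?_
      beta_reduce
      split_ifs with e
      · rw [(h1 x e).unique (h' x hx), mul_zero]
      · rw [mul_zero]

/-- corrections in the single fibres add up -/
theorem assemble [CharZero A]
    (hsm : ∀ x : Pt 𝒜, CharZero (kap x) → Algebra.FormallySmooth ℤ (loc x)) (c : Pt 𝒜 →₀ ℚ)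
    (P Q : Pt 𝒜 → Prop)
    (h : ∀ (p : ℕ) [Fact p.Prime], ∃ y : Pt 𝒜 →₀ ℚ, (∀ x ∈ y.support, (p : A) ∈ pr x ∧ P x) ∧
      ((∀ w : Pt 𝒜, (p : loc w) ∉ IsLocalRing.maximalIdeal (loc w) ^ 2) → y = 0) ∧
      ∀ z : Vp 𝒜 p, Q z.1 → Orth d (c + y) z.1)
    (hoth : ∀ (p q : ℕ) [Fact p.Prime], q.Prime → q ≠ p → ∀ (x : Pt 𝒜) (z : Vp 𝒜 p),
      (q : A) ∈ pr x → P x → Q z.1 → IsInt d x z.1 0) :
    ∃ y : Pt 𝒜 →₀ ℚ, (∀ x ∈ y.support, ¬CharZero (kap x) ∧ P x) ∧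
      ∀ z : Pt 𝒜, ¬CharZero (kap z) → Q z → Orth d (c + y) z := by
  classical
  choose Y hY1 hY2 hY3 using fun q : Nat.Primes => @h q.1 ⟨q.2⟩
  have hfin := (finite_bad hsm).preimage (f := fun q : Nat.Primes => q.1)
    Subtype.val_injective.injOn
  have hsupp : ∀ (T : Finset Nat.Primes), ∀ x ∈ (∑ q ∈ T, Y q).support,
      ∃ q ∈ T, (q.1 : A) ∈ pr x ∧ P x := fun T x hx => by
    obtain ⟨q, h1, hq⟩ := Finset.mem_biUnion.1 (Finsupp.support_finsetSum hx)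
    exact ⟨q, h1, hY1 q x hq⟩
  refine ⟨∑ q ∈ hfin.toFinset, Y q, fun x hx => ?_, fun z hz hQ => ?_⟩
  · obtain ⟨q, -, h1, h2⟩ := hsupp _ x hx
    exact ⟨not_charZero_of_mem x q.2.ne_zero h1, h2⟩
  obtain ⟨p, hp, hpz⟩ := exists_prime_of_not_charZero z hz
  have : Fact p.Prime := ⟨hp⟩
  let q₀ : Nat.Primes := ⟨p, hp⟩
  have e : ∑ q ∈ hfin.toFinset, Y q = Y q₀ + ∑ q ∈ hfin.toFinset.erase q₀, Y q := by
    by_cases hb : q₀ ∈ hfin.toFinset
    · rw [Finset.add_sum_erase _ _ hb]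
    · rw [Finset.erase_eq_of_notMem hb,
        hY2 q₀ fun y hy => hb (hfin.mem_toFinset.2 ⟨hp, y, hy⟩), zero_add]
  rw [e, ← add_assoc]
  refine (hY3 q₀ ⟨z, hpz⟩ hQ).add_zero fun x hx => ?_
  obtain ⟨q, h0, h1, h2⟩ := hsupp _ x hx
  exact hoth p q.1 q.2 (fun e => (Finset.mem_erase.1 h0).1 (Subtype.ext e)) x ⟨z, hpz⟩ h1 h2 hQ

variable {p : ℕ} [Fact p.Prime]

theorem dm_of_tr {z : Vp 𝒜 p} {r : ℕ} (h : tr z.1 = r) : dm z = r := by
  rw [tr_eq_dm] at h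
  exact_mod_cast h

theorem comp_of_dm [CharZero A] (hdim : Algebra.trdeg ℤ A = d + 1) {z : Vp 𝒜 p} (h : dm z = d) :
    ∃ j : Comp 𝒜 p, j.1 = z := by
  obtain ⟨j, hj⟩ := exists_comp z
  refine ⟨j, Subtype.ext (pr_inj (hj.lt_or_eq.resolve_left fun e => ?_))⟩
  have := dm_lt e
  rw [dm_comp hdim j] at this
  omega

theorem lev_horiz (j : Vp 𝒜 p) {W : Pt 𝒜} (hW : CharZero (kap W)) {r : ℕ} (h : tr W = r) :
    Lev (r + 1) (Phi j (pr W)) :=
  lev_Phi _ (pr_hom _) fun y _ h2 => Nat.lt_succ_of_le (dm_le_of_horiz hW h y h2)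

variable {m : Comp 𝒜 p → ℕ} {I : Comp 𝒜 p → Car (MX 𝒜).V}

theorem Fib0.zero_clop [CharZero A] (h : Fib0 m I) {c : Pt 𝒜 →₀ ℚ}
    (hc : ∀ x ∈ c.support, CharZero (kap x) ∧ tr x = 0) (ht : DegZero c)
    {S : Finset (Comp 𝒜 p)} (hS : Clop S) :
    ∑ j ∈ S, m j * (c.sum fun x n => n * (PV j.1 (CC I j) (pr x) 1).coeff 0) = 0 := by
  obtain ⟨lam, hl⟩ := h.exists_lam hS
  unfold Finsupp.sum
  simp only [Finset.mul_sum]
  rw [Finset.sum_comm, ← mul_zero lam, ← show _ = (0 : ℚ) from ht, Finsupp.sum, Finset.mul_sum]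
  refine Finset.sum_congr rfl fun x hx => ?_
  obtain ⟨h1, h2⟩ := hc x hx
  obtain ⟨n, k1, k2⟩ := (((hl x h1).1 fun j => lev_horiz j.1 h1 (r := 0) (by simpa using h2)).and
    (rk_pt h1 h2)).exists
  rw [mul_left_comm, ← k2, ← k1, Finset.mul_sum]
  exact Finset.sum_congr rfl fun j _ => by rw [PV_horiz j _ h1]; ring

theorem zar_curves {s : ℕ} (hd : ∀ j : Comp 𝒜 p, dm j.1 = s + 1)
    {a : Comp 𝒜 p → ℚ} (ha : ∀ q : Vp 𝒜 p, dm q = 1 →
      ∑ j, -lin 0 (PP (Mp q).V) ((MX 𝒜).rho q (cl (I j))) * a j = 0) (l : Comp 𝒜 p) :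
    ∑ j, a j * Zm I s l j = 0 := by
  obtain ⟨N, hN, k, hk⟩ := LA_scale a
  have hN' : (N : ℚ) ≠ 0 := by exact_mod_cast hN.ne'
  have key : ∀ (t : ℕ) (w : Vp 𝒜 p), dm w = t + 1 →
      lin t (PP (Mp w).V) ((MX 𝒜).rho w (∏ j, cl (I j) ^ k j)) =
        -N * ∑ j, a j * -lin t (PP (Mp w).V) ((MX 𝒜).rho w (cl (I j))) := fun t w hw => by
    rw [(ad_lin w ((snapper (mdl_Mp w)).mono (show dm w + 1 ≤ t + 2 by omega))).comb,
      Finset.mul_sum]
    exact Finset.sum_congr rfl fun j _ => by rw [hk]; ring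
  have := cut_curves (E := ∏ j, cl (I j) ^ k j) (fun q hq => by
    rw [key 0 q hq, Finset.sum_congr rfl fun j _ => mul_comm (a j) _, ha q hq, mul_zero])
    s l.1 (hd l).le
  rw [key s l.1 (hd l)] at this
  exact (mul_eq_zero.1 this).resolve_left (neg_ne_zero.2 hN')

theorem corr_zero [CharZero A] (hd : 1 ≤ d) (hdim : Algebra.trdeg ℤ A = d + 1) (hr : Reg 𝒜)
    {c : Pt 𝒜 →₀ ℚ} (hc : ∀ x ∈ c.support, CharZero (kap x) ∧ tr x = 0) (ht : DegZero c) :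
    ∃ y : Pt 𝒜 →₀ ℚ, (∀ x ∈ y.support, (p : A) ∈ pr x ∧ tr x = 1) ∧
      ((∀ w : Pt 𝒜, (p : loc w) ∉ IsLocalRing.maximalIdeal (loc w) ^ 2) → y = 0) ∧
      ∀ z : Vp 𝒜 p, tr z.1 = d → Orth d (c + y) z.1 := by
  classical
  obtain ⟨m, I, h⟩ := exists_fib0 (p := p) hr
  have hd' : ∀ j : Comp 𝒜 p, dm j.1 = d - 1 + 1 := fun j => by rw [dm_comp hdim j]; omega
  have key : ∃ y : Pt 𝒜 →₀ ℚ, (∀ x ∈ y.support, (p : A) ∈ pr x ∧ tr x = 1) ∧
      ((∀ w : Pt 𝒜, (p : loc w) ∉ IsLocalRing.maximalIdeal (loc w) ^ 2) → y = 0) ∧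
      ∀ j : Comp 𝒜 p, (c.sum fun x n => n * (PV j.1 (CC I j) (pr x) 1).coeff 0) +
        (y.sum fun x n => n * (PV j.1 (CC I j) (pr x) 1).coeff 0) = 0 := by
    by_cases hp : ∀ w : Pt 𝒜, (p : loc w) ∉ IsLocalRing.maximalIdeal (loc w) ^ 2
    · refine ⟨0, by simp, fun _ => rfl, fun j => ?_⟩
      have := h.zero_clop hc ht (h.disj hp j)
      rw [Finset.sum_singleton] at this
      rw [(mul_eq_zero.1 this).resolve_left (by exact_mod_cast (h.pos j).ne')]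
      simp
    obtain ⟨y, hy⟩ := LA_dual (ι := {q : Vp 𝒜 p // dm q = 1})
      (fun q (j : Comp 𝒜 p) => -lin 0 (PP (Mp q.1).V) ((MX 𝒜).rho q.1 (cl (I j))))
      (fun j => -(c.sum fun x n => n * (PV j.1 (CC I j) (pr x) 1).coeff 0)) fun a ha => by
        simp only [neg_mul, Finset.sum_neg_distrib, neg_eq_zero]
        exact h.zariski hd' (fun S hS => h.zero_clop hc ht hS)
          (zar_curves hd' fun q hq => ha ⟨q, hq⟩)
    have hinj : Function.Injective fun W : {W : Vp 𝒜 p // dm W = 1} => W.1.1 :=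
      Subtype.val_injective.comp Subtype.val_injective
    refine ⟨y.mapDomain fun W => W.1.1, fun x hx => ?_, fun e => absurd e hp, fun j => ?_⟩
    · obtain ⟨W, -, rfl⟩ := Finset.mem_image.1 (Finsupp.mapDomain_support hx)
      exact ⟨W.1.2, by rw [tr_eq_dm, W.2]; simp⟩
    · rw [Finsupp.sum_mapDomain_index_inj hinj, add_eq_zero_iff_neg_eq, hy j]
      refine Finset.sum_congr rfl fun q _ => ?_
      have := h.PV_eq j q.1 1
      rw [map_one, map_one] at this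
      simp only [this, coeff_neg, lin]
  obtain ⟨y, h1, h2, h3⟩ := key
  refine ⟨y, h1, h2, fun z hz => ?_⟩
  obtain ⟨j, rfl⟩ := comp_of_dm hdim (dm_of_tr hz)
  obtain ⟨cls⟩ := h.cls j
  refine orth_of (fun x => (PV j.1 (CC I j) (pr x) 1).coeff 0) (Real.log p)
    (fun x hx => isInt_comp cls x ?_ d) ?_
  · rcases Finset.mem_union.1 (Finsupp.support_add hx) with k | k
    · rw [PV_horiz j _ (hc x k).1]
      exact lev_horiz j.1 (hc x k).1 (r := 0) (by simpa using (hc x k).2)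
    · have := lev_PV_vert j (CC I j) ⟨x, (h1 x k).1⟩
      rwa [dm_of_tr (z := ⟨x, (h1 x k).1⟩) (r := 1) (by simpa using (h1 x k).2)] at this
  · rw [Finsupp.sum_add_index' (fun _ => zero_mul _) fun _ _ _ => add_mul _ _ _]
    exact h3 j

omit hG in
theorem main_zero [CharZero A] (d : ℕ) (hd : 1 ≤ d) (hfg : Gen 𝒜)
    (hdim : Algebra.trdeg ℤ A = d + 1) (hr : ∀ x : Pt 𝒜, IsRegularLocalRing (loc x))
    (hsm : ∀ x : Pt 𝒜, CharZero (kap x) → Algebra.FormallySmooth ℤ (loc x))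
    (c : Pt 𝒜 →₀ ℚ) (hc : ∀ x ∈ c.support, CharZero (kap x) ∧ tr x = 0) (ht : DegZero c) :
    ∃ y : Pt 𝒜 →₀ ℚ, (∀ x ∈ y.support, ¬CharZero (kap x) ∧ tr x = 1) ∧
      ∀ z : Pt 𝒜, ¬CharZero (kap z) → tr z = d → Orth d (c + y) z := by
  have : Fact (Gen 𝒜) := ⟨hfg⟩
  refine assemble hsm c _ _ (fun p _ => corr_zero hd hdim hr hc ht) fun p q _ hq hne x z hx _ hz => ?_
  obtain ⟨m, I, h⟩ := exists_fib0 (p := p) hr
  obtain ⟨j, rfl⟩ := comp_of_dm hdim (dm_of_tr hz)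
  obtain ⟨cls⟩ := h.cls j
  have := isInt_comp cls x (by rw [PV_other j _ hq hne hx]; exact lev_zero_fun) d
  rw [PV_other j _ hq hne hx] at this
  simpa using this

end

end Pool.Agent.Lib.MP_62d77c_ag
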